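import Mathlib

/-!
# Star-shaped discs in the plane (helper88; OCTICS block, module M1a)

A compact set which meets every ray from the origin in exactly one point is the boundary circle
of a disc.
-/

set_option autoImplicit false

open Metric Set Filter Topology

namespace Pool.Agent.Rohlin.Octic

theorem star_disc (A : Set ℂ) (hA : IsCompact A) (h0 : (0 : ℂ) ∉ A)
    (hu : ∀ w : ℂ, w ≠ 0 → ∃! r : ℝ, 0 < r ∧ (r : ℂ) * w ∈ A) :
    ∃ h : ℂ ≃ₜ ℂ,
      h '' Metric.closedBall 0 1 = {z | ∃ t : ℝ, 0 ≤ t ∧ t ≤ 1 ∧ ∃ a ∈ A, z = t * a} ∧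
      h '' Metric.ball 0 1 = {z | ∃ t : ℝ, 0 ≤ t ∧ t < 1 ∧ ∃ a ∈ A, z = t * a} ∧
      h '' Metric.sphere 0 1 = A := by
  classical
  have hR : ∀ w : ℂ, w ≠ 0 → ∃ r : ℝ, (0 < r ∧ (r : ℂ) * w ∈ A) ∧
      ∀ s : ℝ, 0 < s ∧ (s : ℂ) * w ∈ A → s = r := fun w hw => hu w hw
  choose! R hR1 hR2 using hR
  let α : ℂ → ℂ := fun z => (R z : ℂ) * z
  let f : ℂ → ℝ := fun z => if z = 0 then 1 else ‖α z‖
  have hαA : ∀ z, z ≠ 0 → α z ∈ A := fun z hz => (hR1 z hz).2
  have hf0 : f 0 = 1 := by simp [f]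
  have hfα : ∀ z, z ≠ 0 → f z = ‖α z‖ := fun z hz => by simp [f, hz]
  have hαn : ∀ z, z ≠ 0 → ‖α z‖ = R z * ‖z‖ := by
    intro z hz
    simp only [α, norm_mul, Complex.norm_real, Real.norm_eq_abs, abs_of_pos (hR1 z hz).1]
  -- bounds
  obtain ⟨m, hm, hmA⟩ : ∃ m > 0, ∀ a ∈ A, m ≤ ‖a‖ := by
    have h1 : Aᶜ ∈ 𝓝 (0 : ℂ) := hA.isClosed.isOpen_compl.mem_nhds h0
    obtain ⟨m, hm, hb⟩ := Metric.mem_nhds_iff.1 h1
    refine ⟨m, hm, fun a ha => ?_⟩
    by_contra hlt
    exact hb (by rwa [Metric.mem_ball, dist_zero_right, ← not_le]) ha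
  obtain ⟨M, hM⟩ : ∃ M, ∀ a ∈ A, ‖a‖ ≤ M := by
    obtain ⟨M, hM⟩ := hA.isBounded.exists_norm_le
    exact ⟨M, hM⟩
  have hfpos : ∀ z, 0 < f z := by
    intro z
    by_cases hz : z = 0
    · rw [hz, hf0]; exact one_pos
    · rw [hfα z hz]; exact lt_of_lt_of_le hm (hmA _ (hαA z hz))
  -- homogeneity
  have hαt : ∀ z, z ≠ 0 → ∀ t : ℝ, 0 < t → α (t * z) = α z := by
    intro z hz t ht
    have htz : (t : ℂ) * z ≠ 0 := mul_ne_zero (by exact_mod_cast ht.ne') hz
    have h1 : R z / t = R (t * z) := by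
      refine hR2 _ htz _ ⟨div_pos (hR1 z hz).1 ht, ?_⟩
      have : ((R z / t : ℝ) : ℂ) * (t * z) = R z * z := by
        push_cast
        have : (t : ℂ) ≠ 0 := by exact_mod_cast ht.ne'
        field_simp
      rw [this]
      exact (hR1 z hz).2
    simp only [α]
    rw [← h1]
    push_cast
    have : (t : ℂ) ≠ 0 := by exact_mod_cast ht.ne'
    field_simp
  have hft : ∀ z, ∀ t : ℝ, 0 < t → f (t * z) = f z := by
    intro z t ht
    by_cases hz : z = 0
    · rw [hz, mul_zero]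
    · have htz : (t : ℂ) * z ≠ 0 := mul_ne_zero (by exact_mod_cast ht.ne') hz
      rw [hfα _ htz, hfα z hz, hαt z hz t ht]
  -- `z` and `α z` have the same direction
  have hdir : ∀ z, z ≠ 0 → α z * (‖z‖ : ℂ) = (‖α z‖ : ℂ) * z := by
    intro z hz
    rw [hαn z hz]
    simp only [α]
    push_cast
    ring
  have hαa : ∀ a ∈ A, α a = a := by
    intro a ha
    have ha0 : a ≠ 0 := fun h => h0 (h ▸ ha)
    have h1 : (1 : ℝ) = R a := hR2 a ha0 1 ⟨one_pos, by simpa using ha⟩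
    simp only [α]
    rw [← h1]
    simp
  have huniq : ∀ z, z ≠ 0 → ∀ a ∈ A, a * (‖z‖ : ℂ) = (‖a‖ : ℂ) * z → a = α z := by
    intro z hz a ha h
    have hz0 : (‖z‖ : ℂ) ≠ 0 := by exact_mod_cast norm_ne_zero_iff.2 hz
    have ha0 : a ≠ 0 := fun h => h0 (h ▸ ha)
    have h1 : a = ((‖a‖ / ‖z‖ : ℝ) : ℂ) * z := by
      push_cast
      rw [div_mul_eq_mul_div, ← h]
      field_simp
    calc a = α a := (hαa a ha).symm
      _ = α (((‖a‖ / ‖z‖ : ℝ) : ℂ) * z) := congrArg α h1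
      _ = α z := hαt z hz _ (div_pos (norm_pos_iff.2 ha0) (norm_pos_iff.2 hz))
  -- continuity of `α` off the origin
  have hαc : ∀ z, z ≠ 0 → ContinuousAt α z := by
    intro z hz
    have hne : ∀ᶠ x in 𝓝 z, x ≠ 0 := isOpen_ne.mem_nhds hz
    refine hA.tendsto_nhds_of_unique_mapClusterPt (hne.mono fun x hx => hαA x hx) ?_
    intro a ha hcl
    obtain ⟨U, hU, hUa⟩ := mapClusterPt_iff_ultrafilter.1 hcl
    refine huniq z hz a ha ?_
    have h1 : Tendsto (fun x => α x * (‖x‖ : ℂ)) U (𝓝 (a * (‖z‖ : ℂ))) := by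
      refine hUa.mul ?_
      exact ((Complex.continuous_ofReal.comp continuous_norm).tendsto z).mono_left hU
    have h2 : Tendsto (fun x => (‖α x‖ : ℂ) * x) U (𝓝 ((‖a‖ : ℂ) * z)) := by
      refine Tendsto.mul ?_ ((continuous_id.tendsto z).mono_left hU)
      exact ((Complex.continuous_ofReal.comp continuous_norm).tendsto a).comp hUa
    refine tendsto_nhds_unique_of_eventuallyEq h1 h2 ?_
    have h3 : ∀ᶠ x in (U : Filter ℂ), x ≠ 0 := hU hne
    exact h3.mono fun x hx => hdir x hx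
  have hfc : ∀ z, z ≠ 0 → ContinuousAt f z := by
    intro z hz
    refine (hαc z hz).norm.congr ?_
    filter_upwards [isOpen_ne.mem_nhds hz] with x hx
    exact (hfα x hx).symm
  have hfM : ∀ z, z ≠ 0 → f z ≤ M := fun z hz => by rw [hfα z hz]; exact hM _ (hαA z hz)
  have hfm : ∀ z, z ≠ 0 → m ≤ f z := fun z hz => by rw [hfα z hz]; exact hmA _ (hαA z hz)
  let H : ℂ → ℂ := fun z => (f z : ℂ) * z
  let K : ℂ → ℂ := fun z => ((f z)⁻¹ : ℝ) * z
  have hHc : Continuous H := by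
    rw [continuous_iff_continuousAt]
    intro z
    by_cases hz : z = 0
    · subst hz
      have h1 : Tendsto (fun z : ℂ => |M| * ‖z‖) (𝓝 0) (𝓝 0) := by
        have : Continuous fun z : ℂ => |M| * ‖z‖ := by fun_prop
        have := this.tendsto 0
        simpa using this
      have h2 : H 0 = 0 := by simp [H]
      rw [ContinuousAt, h2]
      refine squeeze_zero_norm (fun z => ?_) h1
      by_cases hz : z = 0
      · simp [H, hz]
      · simp only [H, norm_mul, Complex.norm_real, Real.norm_eq_abs, abs_of_pos (hfpos z)]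
        exact mul_le_mul_of_nonneg_right ((hfM z hz).trans (le_abs_self M)) (norm_nonneg z)
    · exact (Complex.continuous_ofReal.continuousAt.comp (hfc z hz)).mul continuousAt_id
  have hKc : Continuous K := by
    rw [continuous_iff_continuousAt]
    intro z
    by_cases hz : z = 0
    · subst hz
      have h1 : Tendsto (fun z : ℂ => m⁻¹ * ‖z‖) (𝓝 0) (𝓝 0) := by
        have : Continuous fun z : ℂ => m⁻¹ * ‖z‖ := by fun_prop
        have := this.tendsto 0
        simpa using this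
      have h2 : K 0 = 0 := by simp [K]
      rw [ContinuousAt, h2]
      refine squeeze_zero_norm (fun z => ?_) h1
      by_cases hz : z = 0
      · simp [K, hz]
      · simp only [K, norm_mul, Complex.norm_real, Real.norm_eq_abs,
          abs_of_pos (inv_pos.2 (hfpos z))]
        refine mul_le_mul_of_nonneg_right ?_ (norm_nonneg z)
        exact inv_anti₀ hm (hfm z hz)
    · exact (Complex.continuous_ofReal.continuousAt.comp
        ((hfc z hz).inv₀ (hfpos z).ne')).mul continuousAt_id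
  have hKH : ∀ z, K (H z) = z := by
    intro z
    have hfz : (f z : ℂ) ≠ 0 := by exact_mod_cast (hfpos z).ne'
    simp only [K, H]
    rw [hft z (f z) (hfpos z)]
    push_cast
    field_simp
  have hHK : ∀ z, H (K z) = z := by
    intro z
    have hfz : (f z : ℂ) ≠ 0 := by exact_mod_cast (hfpos z).ne'
    simp only [K, H]
    rw [hft z (f z)⁻¹ (inv_pos.2 (hfpos z))]
    push_cast
    field_simp
  let h : ℂ ≃ₜ ℂ := ⟨⟨H, K, hKH, hHK⟩, hHc, hKc⟩
  have hh : ∀ z, h z = H z := fun z => rfl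
  obtain ⟨a₁, ha₁⟩ : ∃ a, a ∈ A := ⟨_, hαA 1 one_ne_zero⟩
  -- images
  have himg : ∀ z, ∃ a ∈ A, h z = ‖z‖ * a := by
    intro z
    by_cases hz : z = 0
    · exact ⟨a₁, ha₁, by rw [hh]; simp [H, hz]⟩
    · refine ⟨α z, hαA z hz, ?_⟩
      rw [hh, mul_comm, hdir z hz]
      simp only [H]
      rw [hfα z hz]
  have hpre : ∀ t : ℝ, 0 ≤ t → ∀ a ∈ A, ∃ z, ‖z‖ = t ∧ h z = t * a := by
    intro t ht a ha
    have ha0 : a ≠ 0 := fun h => h0 (h ▸ ha)
    have hna : (‖a‖ : ℂ) ≠ 0 := by exact_mod_cast norm_ne_zero_iff.2 ha0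
    rcases ht.eq_or_lt with h1 | h1
    · exact ⟨0, by rw [norm_zero, h1], by rw [hh, ← h1]; simp [H]⟩
    · refine ⟨((t / ‖a‖ : ℝ) : ℂ) * a, ?_, ?_⟩
      · rw [norm_mul, Complex.norm_real, Real.norm_eq_abs,
          abs_of_pos (div_pos h1 (norm_pos_iff.2 ha0))]
        field_simp
      · rw [hh]
        simp only [H]
        rw [hft a _ (div_pos h1 (norm_pos_iff.2 ha0)), hfα a ha0, hαa a ha]
        push_cast
        field_simp
  refine ⟨h, ?_, ?_, ?_⟩
  · ext w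
    constructor
    · rintro ⟨z, hz, rfl⟩
      obtain ⟨a, ha, h1⟩ := himg z
      exact ⟨‖z‖, norm_nonneg z, by simpa using hz, a, ha, h1⟩
    · rintro ⟨t, ht, ht1, a, ha, rfl⟩
      obtain ⟨z, hz, h1⟩ := hpre t ht a ha
      exact ⟨z, by simpa [hz] using ht1, h1⟩
  · ext w
    constructor
    · rintro ⟨z, hz, rfl⟩
      obtain ⟨a, ha, h1⟩ := himg z
      exact ⟨‖z‖, norm_nonneg z, by simpa using hz, a, ha, h1⟩
    · rintro ⟨t, ht, ht1, a, ha, rfl⟩
      obtain ⟨z, hz, h1⟩ := hpre t ht a ha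
      exact ⟨z, by simpa [hz] using ht1, h1⟩
  · ext w
    constructor
    · rintro ⟨z, hz, rfl⟩
      obtain ⟨a, ha, h1⟩ := himg z
      have hz1 : ‖z‖ = 1 := by simpa using hz
      rw [h1, hz1]
      simpa using ha
    · intro ha
      obtain ⟨z, hz, h1⟩ := hpre 1 zero_le_one w ha
      exact ⟨z, by simpa using hz, by simpa using h1⟩

end Pool.Agent.Rohlin.Octic
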