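import Pool.Agent.Rohlin.Defs

/-!
# Octics: integer vectors, integer polynomials and cones

The common definitions of the certificates for the two real octics.
-/

set_option autoImplicit false

namespace Pool.Agent.Rohlin.Octic

open MvPolynomial Set

/-- integer vectors -/
abbrev V3 : Type := ℤ × ℤ × ℤ

/-- the real vector of an integer vector -/
def toR (a : V3) : Fin 3 → ℝ := ![(a.1 : ℝ), (a.2.1 : ℝ), (a.2.2 : ℝ)]

/-- the scalar product -/
def dot (a b : V3) : ℤ := a.1 * b.1 + a.2.1 * b.2.1 + a.2.2 * b.2.2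

/-- the scalar product with a real vector -/
def dotR (a : V3) (x : Fin 3 → ℝ) : ℝ := a.1 * x 0 + a.2.1 * x 1 + a.2.2 * x 2

/-- the vector product -/
def cross (a b : V3) : V3 :=
  (a.2.1 * b.2.2 - a.2.2 * b.2.1, a.2.2 * b.1 - a.1 * b.2.2, a.1 * b.2.1 - a.2.1 * b.1)

/-- the cone which is spanned by three integer vectors -/
def Cone3 (a b c : V3) : Set (Fin 3 → ℝ) :=
  {x | ∃ r s t : ℝ, 0 ≤ r ∧ 0 ≤ s ∧ 0 ≤ t ∧ x = r • toR a + s • toR b + t • toR c}

/-- an integer polynomial in three variables: coefficients and exponents -/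
abbrev PolyL : Type := List (ℤ × ℕ × ℕ × ℕ)

/-- the values of an integer polynomial -/
def evL {R : Type} [CommRing R] (L : PolyL) (x y z : R) : R :=
  (L.map fun t => (t.1 : R) * x ^ t.2.1 * y ^ t.2.2.1 * z ^ t.2.2.2).sum

/-- the values of an integer polynomial at real vectors -/
def evR (L : PolyL) (x : Fin 3 → ℝ) : ℝ := evL L (x 0) (x 1) (x 2)

/-- the polynomial with integer coefficients -/
noncomputable def polyZ (L : PolyL) : MvPolynomial (Fin 3) ℤ :=
  (L.map fun t => C t.1 * X 0 ^ t.2.1 * X 1 ^ t.2.2.1 * X 2 ^ t.2.2.2).sum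

/-- the polynomial with real coefficients -/
noncomputable def polyR (L : PolyL) : MvPolynomial (Fin 3) ℝ :=
  MvPolynomial.map (Int.castRingHom ℝ) (polyZ L)

/-- the derivative in the direction `c` -/
def derL (c : V3) (L : PolyL) : PolyL :=
  (L.map fun t => (c.1 * t.2.1 * t.1, t.2.1 - 1, t.2.2.1, t.2.2.2)) ++
    (L.map fun t => (c.2.1 * t.2.2.1 * t.1, t.2.1, t.2.2.1 - 1, t.2.2.2)) ++
    (L.map fun t => (c.2.2 * t.2.2.2 * t.1, t.2.1, t.2.2.1, t.2.2.2 - 1))

/-- the cyclically consecutive pairs of vertices of a polygon -/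
def facets (P : List V3) : List (V3 × V3) := P.zip (P.rotate 1)

/-- the cone over a convex polygon, which is given by its vertices in cyclic order -/
def PolyCone (P : List V3) : Set (Fin 3 → ℝ) :=
  {x | ∀ e ∈ facets P, 0 ≤ dotR (cross e.1 e.2) x}

/-- the check that `P` is a strictly convex polygon in positive cyclic order with `c` inside -/
def okPoly (c : V3) (P : List V3) : Bool :=
  decide (3 ≤ P.length) &&
    (facets P).all (fun e => decide (0 < dot (cross e.1 e.2) c) &&
      P.all (fun q => decide (q = e.1 ∨ q = e.2 ∨ 0 < dot (cross e.1 e.2) q)))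

/-- the outer star: a union of convex cones -/
def QSet (Ps : List (List V3)) : Set (Fin 3 → ℝ) := {x | ∃ P ∈ Ps, x ∈ PolyCone P}

/-- the inner star: a union of convex cones and the ray of `c` -/
def KSet (c : V3) (Ps : List (List V3)) : Set (Fin 3 → ℝ) :=
  {x | ∃ r : ℝ, 0 ≤ r ∧ x = r • toR c} ∪ QSet Ps

end Pool.Agent.Rohlin.Octic
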