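import Pool.Agent.Rohlin.Octic.Basic

/-!
# Nonsingularity over the complex numbers from a congruence

If an integer form `F` of degree `m` is congruent modulo a prime `p` (not dividing `m`) to a diagonal form
`∑ c i * X i ^ m` with all `c i` prime to `p`, then `F` is nonsingular over the complex numbers.
-/

set_option autoImplicit false

namespace Pool.Agent.Rohlin.Octic

open MvPolynomial

/-- a valuation ring of `ℂ` in which the prime `p` is not invertible -/
theorem exists_valuationSubring {p : ℕ} (hp : p.Prime) :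
    ∃ V : ValuationSubring ℂ, V.valuation (p : ℂ) < 1 := by
  obtain ⟨V, h1, h2⟩ := Ideal.image_subset_nonunits_valuationSubring (A := (Int.castRingHom ℂ).range)
    (Ideal.span {(⟨(p : ℂ), (p : ℤ), by simp⟩ : (Int.castRingHom ℂ).range)}) (by
      rw [Ne, Ideal.eq_top_iff_one, Ideal.mem_span_singleton]
      rintro ⟨⟨_, a, rfl⟩, ha⟩
      have h3 : (1 : ℂ) = (p : ℂ) * (Int.castRingHom ℂ a) := congrArg Subtype.val ha
      have h4 : ((1 : ℤ) : ℂ) = (((p : ℤ) * a : ℤ) : ℂ) := by
        rw [Int.cast_mul, Int.cast_one]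
        simpa using h3
      have h5 : (1 : ℤ) = (p : ℤ) * a := Int.cast_injective h4
      have h6 : (p : ℤ) ∣ 1 := ⟨a, h5⟩
      exact (Nat.prime_iff_prime_int.1 hp).not_isUnit (isUnit_of_dvd_one h6))
  refine ⟨V, ?_⟩
  have h3 : (p : ℂ) ∈ V.nonunits := h2 ⟨_, Ideal.mem_span_singleton_self _, rfl⟩
  exact V.mem_nonunits_iff.1 h3

theorem valuation_int_le (V : ValuationSubring ℂ) (a : ℤ) : V.valuation (a : ℂ) ≤ 1 :=
  (V.valuation_le_one_iff _).2 (intCast_mem V a)

theorem valuation_aeval_le (V : ValuationSubring ℂ) {n : ℕ} (u : Fin n → ℂ)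
    (hu : ∀ i, V.valuation (u i) ≤ 1) (H : MvPolynomial (Fin n) ℤ) :
    V.valuation (aeval u H) ≤ 1 := by
  rw [V.valuation_le_one_iff]
  induction H using MvPolynomial.induction_on with
  | C a =>
    rw [algHom_C, eq_intCast]
    exact intCast_mem V a
  | add p q hp hq =>
    rw [map_add]
    exact add_mem hp hq
  | mul_X p i hp =>
    rw [map_mul, aeval_X]
    exact mul_mem hp ((V.valuation_le_one_iff _).1 (hu i))

theorem valuation_int_eq {p : ℕ} (hp : p.Prime) (V : ValuationSubring ℂ)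
    (hV : V.valuation (p : ℂ) < 1) {c : ℤ} (hc : ¬ (p : ℤ) ∣ c) : 1 ≤ V.valuation (c : ℂ) := by
  by_contra hlt
  rw [not_le] at hlt
  have hcop : IsCoprime (p : ℤ) c := (Nat.prime_iff_prime_int.1 hp).coprime_iff_not_dvd.2 hc
  obtain ⟨a, b, hab⟩ := hcop
  have h1 : (1 : ℂ) = (a : ℂ) * (p : ℂ) + (b : ℂ) * (c : ℂ) := by
    have := congrArg (fun z : ℤ => (z : ℂ)) hab
    push_cast at this
    exact this.symm
  have h2 : V.valuation (1 : ℂ) < 1 := by
    rw [h1]
    refine lt_of_le_of_lt (V.valuation.map_add _ _) (max_lt ?_ ?_)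
    · rw [map_mul]
      exact lt_of_le_of_lt (mul_le_of_le_one_left' (valuation_int_le V a)) hV
    · rw [map_mul]
      exact lt_of_le_of_lt (mul_le_of_le_one_left' (valuation_int_le V b)) hlt
  rw [map_one] at h2
  exact lt_irrefl _ h2

theorem aeval_smul_of_homogeneous {n d : ℕ} {Q : MvPolynomial (Fin n) ℤ} (hQ : Q.IsHomogeneous d) (r : ℂ)
    (u : Fin n → ℂ) : aeval (fun i => r * u i) Q = r ^ d * aeval u Q := by
  rw [aeval_def, aeval_def, eval₂_eq', eval₂_eq', Finset.mul_sum]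
  refine Finset.sum_congr rfl fun e he => ?_
  have h1 : ∑ i, e i = d := by
    have h2 := hQ (mem_support_iff.1 he)
    rw [Finsupp.weight_apply, Finsupp.sum_fintype _ _ (fun i => by simp)] at h2
    simpa using h2
  have h3 : ∏ i, (r * u i) ^ e i = r ^ d * ∏ i, u i ^ e i := by
    rw [← h1, ← Finset.prod_pow_eq_pow_sum, ← Finset.prod_mul_distrib]
    exact Finset.prod_congr rfl fun i _ => mul_pow _ _ _
  rw [h3]
  ring

/-- an integer form which is congruent to a diagonal form modulo `p` is nonsingular over `ℂ` -/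
theorem nonsing_of_mod {p m : ℕ} (hp : p.Prime) (hpm : ¬ p ∣ m) (c : Fin 3 → ℤ)
    (hc : ∀ i, ¬ (p : ℤ) ∣ c i) (G : MvPolynomial (Fin 3) ℤ) (hG : G.IsHomogeneous m)
    (z : Fin 3 → ℂ) (hz : z ≠ 0) :
    ∃ i, aeval z (pderiv i (∑ j, C (c j) * X j ^ m + C (p : ℤ) * G)) ≠ 0 := by
  obtain ⟨V, hV⟩ := exists_valuationSubring hp
  obtain ⟨i₀, -, hmax⟩ := Finset.exists_max_image Finset.univ (fun i => V.valuation (z i))
    Finset.univ_nonempty
  have hz₀ : z i₀ ≠ 0 := by
    intro h0
    apply hz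
    funext i
    have h1 := hmax i (Finset.mem_univ i)
    simp only [h0, map_zero, le_zero_iff] at h1
    exact (map_eq_zero _).1 h1
  set u : Fin 3 → ℂ := fun i => (z i₀)⁻¹ * z i with hu
  have hu1 : u i₀ = 1 := inv_mul_cancel₀ hz₀
  have huz : z = fun i => z i₀ * u i := by
    funext i
    simp only [hu]
    rw [mul_inv_cancel_left₀ hz₀]
  have huV : ∀ i, V.valuation (u i) ≤ 1 := by
    intro i
    simp only [hu]
    rw [map_mul, map_inv₀]
    have h1 := hmax i (Finset.mem_univ i)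
    have h2 : V.valuation (z i₀) ≠ 0 := (map_ne_zero _).2 hz₀
    calc (V.valuation (z i₀))⁻¹ * V.valuation (z i) ≤ (V.valuation (z i₀))⁻¹ * V.valuation (z i₀) :=
          mul_le_mul_right h1 _
      _ = 1 := inv_mul_cancel₀ h2
  refine ⟨i₀, fun h0 => ?_⟩
  set P : MvPolynomial (Fin 3) ℤ := ∑ j, C (c j) * X j ^ m + C (p : ℤ) * G with hP
  have hPh : P.IsHomogeneous m := by
    refine IsHomogeneous.add (IsHomogeneous.sum _ _ _ fun j _ => isHomogeneous_C_mul_X_pow _ _ _) ?_
    exact hG.C_mul _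
  have h1 : aeval u (pderiv i₀ P) = 0 := by
    rw [huz, aeval_smul_of_homogeneous hPh.pderiv] at h0
    exact (mul_eq_zero.1 h0).resolve_left (pow_ne_zero _ hz₀)
  have hm : m ≠ 0 := fun h => hpm (h ▸ dvd_zero p)
  have h2 : pderiv i₀ P = C (m * c i₀ : ℤ) * X i₀ ^ (m - 1) + C (p : ℤ) * pderiv i₀ G := by
    rw [hP, map_add, map_sum, Finset.sum_eq_single i₀]
    · rw [pderiv_C_mul, pderiv_C_mul, pderiv_pow, pderiv_X_self, mul_one]
      simp only [C_mul, map_natCast]
      ring
    · intro j _ hj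
      rw [pderiv_C_mul, pderiv_pow, pderiv_X_of_ne hj]
      simp
    · intro h
      exact absurd (Finset.mem_univ _) h
  have h8 : ∀ a : ℤ, aeval u (C a : MvPolynomial (Fin 3) ℤ) = (a : ℂ) := fun a => by
    rw [algHom_C, eq_intCast]
  have h9 : ∀ (a : ℤ) (Q : MvPolynomial (Fin 3) ℤ), aeval u (C a * Q) = (a : ℂ) * aeval u Q :=
    fun a Q => by rw [map_mul, h8]
  rw [h2, map_add, h9, h9, map_pow, aeval_X, hu1, one_pow, mul_one] at h1
  have h3 : ((m * c i₀ : ℤ) : ℂ) = - (((p : ℤ) : ℂ) * aeval u (pderiv i₀ G)) :=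
    eq_neg_of_add_eq_zero_left h1
  have h4 : V.valuation ((m * c i₀ : ℤ) : ℂ) < 1 := by
    rw [h3, Valuation.map_neg, map_mul]
    have h5 := valuation_aeval_le V u huV (pderiv i₀ G)
    have h6 : V.valuation (((p : ℤ) : ℂ)) < 1 := by
      rw [Int.cast_natCast]
      exact hV
    exact lt_of_le_of_lt (mul_le_of_le_one_right' h5) h6
  have h7 : ¬ (p : ℤ) ∣ (m * c i₀ : ℤ) := by
    intro h
    rcases (Nat.prime_iff_prime_int.1 hp).dvd_or_dvd h with h | h
    · exact hpm (Int.natCast_dvd_natCast.1 h)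
    · exact hc i₀ h
  exact absurd (valuation_int_eq hp V hV h7) (not_le.2 h4)

/-! ### Polynomials given by lists -/

/-- the coefficients of the pure powers -/
def pureCoeff (m : ℕ) (L : PolyL) : Fin 3 → ℤ
  | 0 => ((L.filter fun e => e.2.1 = m).map Prod.fst).sum
  | 1 => ((L.filter fun e => e.2.2.1 = m).map Prod.fst).sum
  | 2 => ((L.filter fun e => e.2.2.2 = m).map Prod.fst).sum

/-- the condition on the coefficients: the list is homogeneous of degree `m`, congruent to a diagonal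
form modulo `p`, and the pure powers have coefficients prime to `p` -/
def modCheck (p m : ℕ) (L : PolyL) : Bool :=
  (L.all fun e => decide (e.2.1 + e.2.2.1 + e.2.2.2 = m) &&
    (decide (e.2.1 = m) || decide (e.2.2.1 = m) || decide (e.2.2.2 = m) || decide (e.1 % (p : ℤ) = 0))) &&
  decide (pureCoeff m L 0 % (p : ℤ) ≠ 0) && decide (pureCoeff m L 1 % (p : ℤ) ≠ 0) &&
  decide (pureCoeff m L 2 % (p : ℤ) ≠ 0)

theorem polyZ_decomp {p m : ℕ} (hm : m ≠ 0) (L : PolyL)
    (h : ∀ e ∈ L, e.2.1 + e.2.2.1 + e.2.2.2 = m ∧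
      (e.2.1 = m ∨ e.2.2.1 = m ∨ e.2.2.2 = m ∨ e.1 % (p : ℤ) = 0)) :
    ∃ G : MvPolynomial (Fin 3) ℤ, G.IsHomogeneous m ∧
      polyZ L = ∑ j, C (pureCoeff m L j) * X j ^ m + C (p : ℤ) * G := by
  induction L with
  | nil =>
    refine ⟨0, isHomogeneous_zero _ _ _, ?_⟩
    simp [polyZ, pureCoeff, Fin.sum_univ_three]
  | cons e L ih =>
    obtain ⟨G, hG, hL⟩ := ih fun e he => h e (List.mem_cons_of_mem _ he)
    obtain ⟨hd, hp⟩ := h e List.mem_cons_self
    obtain ⟨a, i, j, k⟩ := e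
    simp only at hd hp
    have h0 : polyZ ((a, i, j, k) :: L) = C a * (X 0 ^ i * X 1 ^ j * X 2 ^ k) + polyZ L := by
      simp only [polyZ, List.map_cons, List.sum_cons, mul_assoc]
    rw [h0, hL, Fin.sum_univ_three, Fin.sum_univ_three]
    by_cases hi : i = m
    · have hj : j ≠ m := by omega
      have hk : k ≠ m := by omega
      have hj0 : j = 0 := by omega
      have hk0 : k = 0 := by omega
      refine ⟨G, hG, ?_⟩
      simp only [pureCoeff, List.filter_cons, hi, hj, hk, decide_true, decide_false, if_true,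
        Bool.false_eq_true, if_false, List.map_cons, List.sum_cons, C_add]
      rw [hj0, hk0, pow_zero, pow_zero]
      ring
    by_cases hj : j = m
    · have hk : k ≠ m := by omega
      have hi0 : i = 0 := by omega
      have hk0 : k = 0 := by omega
      refine ⟨G, hG, ?_⟩
      simp only [pureCoeff, List.filter_cons, hi, hj, hk, decide_true, decide_false, if_true,
        Bool.false_eq_true, if_false, List.map_cons, List.sum_cons, C_add]
      rw [hi0, hk0, pow_zero, pow_zero]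
      ring
    by_cases hk : k = m
    · have hi0 : i = 0 := by omega
      have hj0 : j = 0 := by omega
      refine ⟨G, hG, ?_⟩
      simp only [pureCoeff, List.filter_cons, hi, hj, hk, decide_true, decide_false, if_true,
        Bool.false_eq_true, if_false, List.map_cons, List.sum_cons, C_add]
      rw [hi0, hj0, pow_zero, pow_zero]
      ring
    · have hpa : (p : ℤ) ∣ a := Int.dvd_of_emod_eq_zero (by tauto)
      obtain ⟨b, rfl⟩ := hpa
      refine ⟨C b * (X 0 ^ i * X 1 ^ j * X 2 ^ k) + G, ?_, ?_⟩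
      · refine IsHomogeneous.add (IsHomogeneous.C_mul ?_ _) hG
        rw [← hd]
        exact ((isHomogeneous_X_pow _ _).mul (isHomogeneous_X_pow _ _)).mul (isHomogeneous_X_pow _ _)
      · simp only [pureCoeff, List.filter_cons, hi, hj, hk, decide_false,
          Bool.false_eq_true, if_false]
        rw [C_mul]
        ring

theorem modCheck_spec {p m : ℕ} {L : PolyL} (hL : modCheck p m L = true) :
    (∀ e ∈ L, e.2.1 + e.2.2.1 + e.2.2.2 = m ∧
      (e.2.1 = m ∨ e.2.2.1 = m ∨ e.2.2.2 = m ∨ e.1 % (p : ℤ) = 0)) ∧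
      ∀ i, ¬ (p : ℤ) ∣ pureCoeff m L i := by
  simp only [modCheck, Bool.and_eq_true, Bool.or_eq_true, List.all_eq_true, decide_eq_true_eq,
    ne_eq] at hL
  obtain ⟨⟨⟨h1, h2⟩, h3⟩, h4⟩ := hL
  refine ⟨fun e he => ?_, ?_⟩
  · have := h1 e he
    tauto
  · intro i
    fin_cases i
    · exact fun h => h2 (Int.emod_eq_zero_of_dvd h)
    · exact fun h => h3 (Int.emod_eq_zero_of_dvd h)
    · exact fun h => h4 (Int.emod_eq_zero_of_dvd h)

/-- nonsingularity of a real form with integer coefficients from a congruence -/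
theorem nonsing_of_modCheck {p m : ℕ} (hp : p.Prime) (hpm : ¬ p ∣ m) (L : PolyL)
    (hL : modCheck p m L = true) (z : Fin 3 → ℂ) (hz : z ≠ 0) :
    ∃ i, aeval z (pderiv i (polyR L)) ≠ 0 := by
  have hm : m ≠ 0 := fun h => hpm (h ▸ dvd_zero p)
  obtain ⟨h1, hc⟩ := modCheck_spec hL
  obtain ⟨G, hG, hdec⟩ := polyZ_decomp (p := p) hm L h1
  obtain ⟨i, hi⟩ := nonsing_of_mod hp hpm (pureCoeff m L) hc G hG z hz
  refine ⟨i, ?_⟩
  rw [← hdec] at hi
  rw [polyR, pderiv_map]
  have h2 : (Int.castRingHom ℝ) = algebraMap ℤ ℝ := rfl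
  rwa [h2, aeval_map_algebraMap]

theorem isHomogeneous_polyR {m : ℕ} (L : PolyL) (h : ∀ e ∈ L, e.2.1 + e.2.2.1 + e.2.2.2 = m) :
    (polyR L).IsHomogeneous m := by
  rw [polyR]
  refine IsHomogeneous.map ?_ _
  induction L with
  | nil => exact isHomogeneous_zero _ _ _
  | cons e L ih =>
    have h0 : polyZ (e :: L) = C e.1 * (X 0 ^ e.2.1 * X 1 ^ e.2.2.1 * X 2 ^ e.2.2.2) + polyZ L := by
      simp only [polyZ, List.map_cons, List.sum_cons, mul_assoc]
    rw [h0]
    refine IsHomogeneous.add (IsHomogeneous.C_mul ?_ _) (ih fun e he => h e (List.mem_cons_of_mem _ he))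
    rw [← h e List.mem_cons_self]
    exact ((isHomogeneous_X_pow _ _).mul (isHomogeneous_X_pow _ _)).mul (isHomogeneous_X_pow _ _)

/-- **the real curve given by a list of coefficients**; nonsingularity follows from a congruence -/
noncomputable def curveOfMod {p m : ℕ} (hp : p.Prime) (hpm : ¬ p ∣ m) (L : PolyL)
    (hL : modCheck p m L = true) : RealCurve m where
  F := polyR L
  hom := isHomogeneous_polyR L fun e he => ((modCheck_spec hL).1 e he).1
  nonsing := fun z hz _ => nonsing_of_modCheck hp hpm L hL z hz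

/-- the check for octics modulo `3` -/
def mod3Ok (L : PolyL) : Bool := modCheck 3 8 L

/-- the octic given by a list of coefficients -/
noncomputable def curveOf (L : PolyL) (h : mod3Ok L = true) : RealCurve 8 :=
  curveOfMod (p := 3) (m := 8) (by norm_num) (by norm_num) L h

theorem curveOf_F (L : PolyL) (h : mod3Ok L = true) : (curveOf L h).F = polyR L := rfl

/-- the form asked for in the plan -/
theorem nonsing_of_mod3 (L : PolyL) (hd : ∀ t ∈ L, t.2.1 + t.2.2.1 + t.2.2.2 = 8) (a : Fin 3 → ℤ)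
    (ha : ∀ i, ¬ 3 ∣ a i) (G : MvPolynomial (Fin 3) ℤ)
    (hF : polyZ L = (∑ i, C (a i) * X i ^ 8) + 3 * G) (z : Fin 3 → ℂ) (hz : z ≠ 0) :
    ∃ i, aeval z (pderiv i (polyR L)) ≠ 0 := by
  have h30 : (3 : MvPolynomial (Fin 3) ℤ) = C ((3 : ℕ) : ℤ) := by
    rw [Nat.cast_ofNat, map_ofNat]
  have hLh : (polyZ L).IsHomogeneous 8 := by
    have h1 := isHomogeneous_polyR L hd
    exact IsHomogeneous.of_map (f := Int.castRingHom ℝ) Int.cast_injective h1
  have hG : G.IsHomogeneous 8 := by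
    have h3 : ((3 : MvPolynomial (Fin 3) ℤ) * G).IsHomogeneous 8 := by
      rw [← sub_eq_of_eq_add' hF]
      exact hLh.sub (IsHomogeneous.sum _ _ _ fun j _ => isHomogeneous_C_mul_X_pow _ _ _)
    intro d hdG
    refine h3 ?_
    rw [h30, coeff_C_mul]
    exact mul_ne_zero (by norm_num) hdG
  obtain ⟨i, hi⟩ := nonsing_of_mod (p := 3) (m := 8) (by norm_num) (by norm_num) a
    (fun i => by simpa using ha i) G hG z hz
  refine ⟨i, ?_⟩
  rw [← h30, ← hF] at hi
  rw [polyR, pderiv_map]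
  have h2 : (Int.castRingHom ℝ) = algebraMap ℤ ℝ := rfl
  rwa [h2, aeval_map_algebraMap]

end Pool.Agent.Rohlin.Octic
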