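import Pool.Agent.Rohlin.Octic.Cones

/-!
# Octics: the subdivision trees

A tree subdivides a triangular cone; every leaf certifies that the octic has one sign on the leaf,
or that the leaf lies in the ring of one oval and that the derivative of the octic in the direction
of the centre of the oval has the right sign.
-/

set_option autoImplicit false

namespace Pool.Agent.Rohlin.Octic

open MvPolynomial Set

/-- the sum of integer multiples -/
def comb (a b : ℤ) (v w : V3) : V3 :=
  (a * v.1 + b * w.1, a * v.2.1 + b * w.2.1, a * v.2.2 + b * w.2.2)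

/-- the negative of an integer vector -/
def negV (v : V3) : V3 := (-v.1, -v.2.1, -v.2.2)

theorem toR_comb (a b : ℤ) (v w : V3) :
    toR (comb a b v w) = (a : ℝ) • toR v + (b : ℝ) • toR w := by
  ext i
  fin_cases i <;> simp [toR, comb]

theorem toR_negV (v : V3) : toR (negV v) = - toR v := by
  ext i
  fin_cases i <;> simp [toR, negV]

theorem dotR_neg (e : V3) (x : Fin 3 → ℝ) : dotR e (-x) = - dotR e x := by
  simp only [dotR, Pi.neg_apply]; ring

/-- rotation of a cone -/
theorem cone3_rot {a b c : V3} {x : Fin 3 → ℝ} (h : x ∈ Cone3 a b c) : x ∈ Cone3 b c a := by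
  obtain ⟨r, s, t, hr, hs, ht, rfl⟩ := h
  exact ⟨s, t, r, hs, ht, hr, by abel⟩

theorem cone3_neg {a b c : V3} {x : Fin 3 → ℝ} (h : x ∈ Cone3 a b c) :
    -x ∈ Cone3 (negV a) (negV b) (negV c) := by
  obtain ⟨r, s, t, hr, hs, ht, rfl⟩ := h
  refine ⟨r, s, t, hr, hs, ht, ?_⟩
  rw [toR_negV, toR_negV, toR_negV]
  simp only [smul_neg]
  abel

/-- cutting the first edge of a cone -/
theorem cone3_cut {a b c : V3} {m n : ℕ} (hm : 0 < m) (hn : 0 < n) {x : Fin 3 → ℝ}
    (h : x ∈ Cone3 a b c) :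
    x ∈ Cone3 a (comb m n a b) c ∨ x ∈ Cone3 (comb m n a b) b c := by
  obtain ⟨r, s, t, hr, hs, ht, rfl⟩ := h
  have hm' : (0 : ℝ) < m := by exact_mod_cast hm
  have hn' : (0 : ℝ) < n := by exact_mod_cast hn
  have hw : toR (comb m n a b) = (m : ℝ) • toR a + (n : ℝ) • toR b := by
    rw [toR_comb]; simp
  rcases le_total (s * m) (r * n) with h | h
  · left
    refine ⟨r - s * m / n, s / n, t, ?_, by positivity, ht, ?_⟩
    · rw [sub_nonneg, div_le_iff₀ hn']; exact h
    · rw [hw]
      ext i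
      simp only [Pi.add_apply, Pi.smul_apply, smul_eq_mul]
      field_simp
      ring
  · right
    refine ⟨r / m, s - r * n / m, t, by positivity, ?_, ht, ?_⟩
    · rw [sub_nonneg, div_le_iff₀ hm']; exact h
    · rw [hw]
      ext i
      simp only [Pi.add_apply, Pi.smul_apply, smul_eq_mul]
      field_simp
      ring

/-- a functional which is nonnegative on the generators is nonnegative on the cone -/
theorem dotR_nonneg_of_cone3 {e a b c : V3} (ha : 0 ≤ dot e a) (hb : 0 ≤ dot e b)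
    (hc : 0 ≤ dot e c) {x : Fin 3 → ℝ} (h : x ∈ Cone3 a b c) : 0 ≤ dotR e x := by
  obtain ⟨r, s, t, hr, hs, ht, rfl⟩ := h
  rw [dotR_add, dotR_add, dotR_smul, dotR_smul, dotR_smul, dotR_toR, dotR_toR, dotR_toR]
  have ha' : (0 : ℝ) ≤ (dot e a : ℝ) := by exact_mod_cast ha
  have hb' : (0 : ℝ) ≤ (dot e b : ℝ) := by exact_mod_cast hb
  have hc' : (0 : ℝ) ≤ (dot e c : ℝ) := by exact_mod_cast hc
  positivity

theorem dotR_nonpos_of_cone3 {e a b c : V3} (ha : dot e a ≤ 0) (hb : dot e b ≤ 0)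
    (hc : dot e c ≤ 0) {x : Fin 3 → ℝ} (h : x ∈ Cone3 a b c) : dotR e x ≤ 0 := by
  obtain ⟨r, s, t, hr, hs, ht, rfl⟩ := h
  rw [dotR_add, dotR_add, dotR_smul, dotR_smul, dotR_smul, dotR_toR, dotR_toR, dotR_toR]
  have ha' : (dot e a : ℝ) ≤ 0 := by exact_mod_cast ha
  have hb' : (dot e b : ℝ) ≤ 0 := by exact_mod_cast hb
  have hc' : (dot e c : ℝ) ≤ 0 := by exact_mod_cast hc
  nlinarith [mul_nonneg hr (neg_nonneg.2 ha'), mul_nonneg hs (neg_nonneg.2 hb'),
    mul_nonneg ht (neg_nonneg.2 hc')]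

/-- the edge functionals of a polygon -/
def edgesOf (P : List V3) : List V3 := (facets P).map fun e => cross e.1 e.2

/-- the data of one oval: centre, functional, outer and inner polygons, their edge functionals, and
the index of its form -/
structure OvalD where
  /-- the centre -/
  c : V3
  /-- the functional of the chart -/
  l : V3
  /-- the sign of the octic outside of the oval (`true` for positive) -/
  sg : Bool
  /-- the outer polygons -/
  Q : List (List V3)
  /-- the inner polygons -/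
  K : List (List V3)
  /-- the edge functionals of the outer polygons -/
  QE : List (List V3)
  /-- the edge functionals of the inner polygons -/
  KE : List (List V3)
  /-- the vertices of the star polygon (or nothing) -/
  fan : List V3
  /-- the functionals of the fan: the ray functional, the edge functional and the next ray
  functional -/
  FE : List (V3 × V3 × V3)

/-- the tests of signs, which are used by the trees: `α` is a type of forms -/
structure SignTest (α : Type) where
  /-- the values of a form -/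
  ev : α → (Fin 3 → ℝ) → ℝ
  /-- the test of positivity on a cone -/
  pos : α → V3 → V3 → V3 → Bool
  /-- the soundness -/
  sound : ∀ f a b c, pos f a b c = true → ∀ x ∈ Cone3 a b c, x ≠ 0 → 0 < ev f x

/-- subdivision trees -/
inductive Tr : Type
  /-- the octic is positive -/
  | P : Tr
  /-- the octic is negative -/
  | N : Tr
  /-- the triangle (`e = true`) or its negative (`e = false`) lies in the outer polygon `a` of the
  oval `i` -/
  | R (i a : ℕ) (e : Bool) : Tr
  /-- the triangle (`e = true`) or its negative (`e = false`) lies in the star polygon of the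
  oval `i` -/
  | F (i : ℕ) (e : Bool) : Tr
  /-- rotate the triangle -/
  | rot (t : Tr) : Tr
  /-- cut the first edge -/
  | cut (m n : ℕ) (t1 t2 : Tr) : Tr

/-- the check of a ring leaf -/
def ringOk {α : Type} (T : SignTest α) (G : α) (o : OvalD) (a : ℕ) (v0 v1 v2 : V3) : Bool :=
  (match o.QE[a]? with
    | none => false
    | some E => E.all fun e =>
        decide (0 ≤ dot e v0) && decide (0 ≤ dot e v1) && decide (0 ≤ dot e v2)) &&
  (o.KE.all fun E => E.any fun e =>
        decide (dot e v0 ≤ 0) && decide (dot e v1 ≤ 0) && decide (dot e v2 ≤ 0)) &&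
  T.pos G v0 v1 v2

/-- the check of a leaf against the fan -/
def fanOk {α : Type} (T : SignTest α) (G : α) (o : OvalD) (v0 v1 v2 : V3) : Bool :=
  !o.FE.isEmpty && (o.FE.all fun f =>
    (decide (dot f.1 v0 < 0) && decide (dot f.1 v1 < 0) && decide (dot f.1 v2 < 0)) ||
    (decide (0 < dot f.2.2 v0) && decide (0 < dot f.2.2 v1) && decide (0 < dot f.2.2 v2)) ||
    (decide (0 ≤ dot f.2.1 v0) && decide (0 ≤ dot f.2.1 v1) && decide (0 ≤ dot f.2.1 v2))) &&
  (o.KE.all fun E => E.any fun e =>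
        decide (dot e v0 ≤ 0) && decide (dot e v1 ≤ 0) && decide (dot e v2 ≤ 0)) &&
  T.pos G v0 v1 v2

/-- the check of a tree -/
def Tr.check {α : Type} (T : SignTest α) (FP FN : α) (O : List (OvalD × α)) :
    Tr → V3 → V3 → V3 → Bool
  | .P, v0, v1, v2 => T.pos FP v0 v1 v2
  | .N, v0, v1, v2 => T.pos FN v0 v1 v2
  | .R i a e, v0, v1, v2 =>
      match O[i]? with
      | none => false
      | some o => if e then ringOk T o.2 o.1 a v0 v1 v2
          else ringOk T o.2 o.1 a (negV v0) (negV v1) (negV v2)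
  | .F i e, v0, v1, v2 =>
      match O[i]? with
      | none => false
      | some o => if e then fanOk T o.2 o.1 v0 v1 v2
          else fanOk T o.2 o.1 (negV v0) (negV v1) (negV v2)
  | .rot t, v0, v1, v2 => t.check T FP FN O v1 v2 v0
  | .cut m n t1 t2, v0, v1, v2 =>
      decide (0 < m) && decide (0 < n) &&
        t1.check T FP FN O v0 (comb m n v0 v1) v2 && t2.check T FP FN O (comb m n v0 v1) v1 v2

/-- the sector test of the fan -/
def InFan (o : OvalD) (y : Fin 3 → ℝ) : Prop :=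
  ∀ f ∈ o.FE, dotR f.1 y < 0 ∨ 0 < dotR f.2.2 y ∨ 0 ≤ dotR f.2.1 y

/-- the point `y` lies in the ring of the oval `o` (boundaries included) and the form of the oval
is positive -/
def InRing {α : Type} (T : SignTest α) (o : OvalD × α) (y : Fin 3 → ℝ) : Prop :=
  ((∃ E ∈ o.1.QE, ∀ e ∈ E, 0 ≤ dotR e y) ∨ (y ≠ 0 ∧ o.1.FE ≠ [] ∧ InFan o.1 y)) ∧
    (∀ E ∈ o.1.KE, ∃ e ∈ E, dotR e y ≤ 0) ∧ 0 < T.ev o.2 y

/-- the statement which is certified by a tree, at one point -/
def Good {α : Type} (T : SignTest α) (FP FN : α) (O : List (OvalD × α)) (x : Fin 3 → ℝ) : Prop :=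
  0 < T.ev FP x ∨ 0 < T.ev FN x ∨ ∃ o ∈ O, InRing T o x ∨ InRing T o (-x)

/-- the statement which is certified by a tree -/
def Covered {α : Type} (T : SignTest α) (FP FN : α) (O : List (OvalD × α)) (v0 v1 v2 : V3) :
    Prop := ∀ x ∈ Cone3 v0 v1 v2, x ≠ 0 → Good T FP FN O x

theorem ringOk_sound {α : Type} {T : SignTest α} {G : α} {o : OvalD} {a : ℕ} {v0 v1 v2 : V3}
    (h : ringOk T G o a v0 v1 v2 = true) {x : Fin 3 → ℝ} (hx : x ∈ Cone3 v0 v1 v2) (h0 : x ≠ 0) :
    InRing T (o, G) x := by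
  unfold ringOk at h
  rw [Bool.and_eq_true, Bool.and_eq_true] at h
  obtain ⟨⟨h1, h2⟩, h3⟩ := h
  refine ⟨Or.inl ?_, ?_, T.sound _ _ _ _ h3 x hx h0⟩
  · cases hE : o.QE[a]? with
    | none => simp [hE] at h1
    | some E =>
      rw [hE] at h1
      refine ⟨E, List.mem_of_getElem? hE, fun e he => ?_⟩
      have h4 := (List.all_eq_true.1 h1) e he
      rw [Bool.and_eq_true, Bool.and_eq_true] at h4
      obtain ⟨⟨h5, h6⟩, h7⟩ := h4
      exact dotR_nonneg_of_cone3 (of_decide_eq_true h5) (of_decide_eq_true h6)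
        (of_decide_eq_true h7) hx
  · intro E hE
    have h4 := (List.all_eq_true.1 h2) E hE
    obtain ⟨e, he, h5⟩ := List.any_eq_true.1 h4
    rw [Bool.and_eq_true, Bool.and_eq_true] at h5
    obtain ⟨⟨h5, h6⟩, h7⟩ := h5
    exact ⟨e, he, dotR_nonpos_of_cone3 (of_decide_eq_true h5) (of_decide_eq_true h6)
        (of_decide_eq_true h7) hx⟩

theorem dotR_neg_of_cone3 {e a b c : V3} (ha : dot e a < 0) (hb : dot e b < 0)
    (hc : dot e c < 0) {x : Fin 3 → ℝ} (h : x ∈ Cone3 a b c) (h0 : x ≠ 0) : dotR e x < 0 := by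
  obtain ⟨r, s, t, hr, hs, ht, rfl⟩ := h
  rw [dotR_add, dotR_add, dotR_smul, dotR_smul, dotR_smul, dotR_toR, dotR_toR, dotR_toR]
  have ha' : (dot e a : ℝ) < 0 := by exact_mod_cast ha
  have hb' : (dot e b : ℝ) < 0 := by exact_mod_cast hb
  have hc' : (dot e c : ℝ) < 0 := by exact_mod_cast hc
  have h1 : r * (dot e a : ℝ) ≤ 0 := by nlinarith
  have h2 : s * (dot e b : ℝ) ≤ 0 := by nlinarith
  have h3 : t * (dot e c : ℝ) ≤ 0 := by nlinarith
  by_contra hcon
  rw [not_lt] at hcon
  have e1 : r * (dot e a : ℝ) = 0 := by linarith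
  have e2 : s * (dot e b : ℝ) = 0 := by linarith
  have e3 : t * (dot e c : ℝ) = 0 := by linarith
  apply h0
  rw [(mul_eq_zero.1 e1).resolve_right ha'.ne, (mul_eq_zero.1 e2).resolve_right hb'.ne,
    (mul_eq_zero.1 e3).resolve_right hc'.ne]
  simp

theorem dotR_pos_of_cone3 {e a b c : V3} (ha : 0 < dot e a) (hb : 0 < dot e b)
    (hc : 0 < dot e c) {x : Fin 3 → ℝ} (h : x ∈ Cone3 a b c) (h0 : x ≠ 0) : 0 < dotR e x := by
  obtain ⟨r, s, t, hr, hs, ht, rfl⟩ := h
  rw [dotR_add, dotR_add, dotR_smul, dotR_smul, dotR_smul, dotR_toR, dotR_toR, dotR_toR]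
  have ha' : (0 : ℝ) < (dot e a : ℝ) := by exact_mod_cast ha
  have hb' : (0 : ℝ) < (dot e b : ℝ) := by exact_mod_cast hb
  have hc' : (0 : ℝ) < (dot e c : ℝ) := by exact_mod_cast hc
  have h1 : 0 ≤ r * (dot e a : ℝ) := by positivity
  have h2 : 0 ≤ s * (dot e b : ℝ) := by positivity
  have h3 : 0 ≤ t * (dot e c : ℝ) := by positivity
  by_contra hcon
  rw [not_lt] at hcon
  have e1 : r * (dot e a : ℝ) = 0 := by linarith
  have e2 : s * (dot e b : ℝ) = 0 := by linarith
  have e3 : t * (dot e c : ℝ) = 0 := by linarith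
  apply h0
  rw [(mul_eq_zero.1 e1).resolve_right ha'.ne', (mul_eq_zero.1 e2).resolve_right hb'.ne',
    (mul_eq_zero.1 e3).resolve_right hc'.ne']
  simp

theorem fanOk_sound {α : Type} {T : SignTest α} {G : α} {o : OvalD} {v0 v1 v2 : V3}
    (h : fanOk T G o v0 v1 v2 = true) {x : Fin 3 → ℝ}
    (hx : x ∈ Cone3 v0 v1 v2) (h0 : x ≠ 0) : InRing T (o, G) x := by
  unfold fanOk at h
  rw [Bool.and_eq_true, Bool.and_eq_true, Bool.and_eq_true] at h
  obtain ⟨⟨⟨hne', h1⟩, h2⟩, h3⟩ := h
  have hne : o.FE ≠ [] := by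
    intro h; rw [h] at hne'; simp at hne'
  refine ⟨Or.inr ⟨h0, hne, ?_⟩, ?_, T.sound _ _ _ _ h3 x hx h0⟩
  · intro f hf
    have h4 := (List.all_eq_true.1 h1) f hf
    simp only [Bool.or_eq_true, Bool.and_eq_true, decide_eq_true_eq] at h4
    rcases h4 with (⟨⟨a, b⟩, c⟩ | ⟨⟨a, b⟩, c⟩) | ⟨⟨a, b⟩, c⟩
    · exact Or.inl (dotR_neg_of_cone3 a b c hx h0)
    · exact Or.inr (Or.inl (dotR_pos_of_cone3 a b c hx h0))
    · exact Or.inr (Or.inr (dotR_nonneg_of_cone3 a b c hx))
  · intro E hE
    have h4 := (List.all_eq_true.1 h2) E hE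
    obtain ⟨e, he, h5⟩ := List.any_eq_true.1 h4
    rw [Bool.and_eq_true, Bool.and_eq_true] at h5
    obtain ⟨⟨h5, h6⟩, h7⟩ := h5
    exact ⟨e, he, dotR_nonpos_of_cone3 (of_decide_eq_true h5) (of_decide_eq_true h6)
        (of_decide_eq_true h7) hx⟩

theorem Tr.check_sound {α : Type} {T : SignTest α} {FP FN : α} {O : List (OvalD × α)} (t : Tr) :
    ∀ {v0 v1 v2 : V3}, t.check T FP FN O v0 v1 v2 = true → Covered T FP FN O v0 v1 v2 := by
  induction t with
  | P => intro v0 v1 v2 h x hx h0; exact Or.inl (T.sound _ _ _ _ h x hx h0)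
  | N => intro v0 v1 v2 h x hx h0; exact Or.inr (Or.inl (T.sound _ _ _ _ h x hx h0))
  | R i a e =>
    intro v0 v1 v2 h x hx h0
    right; right
    simp only [Tr.check] at h
    cases hO : O[i]? with
    | none => simp [hO] at h
    | some o =>
      rw [hO] at h
      refine ⟨o, List.mem_of_getElem? hO, ?_⟩
      cases e with
      | true => left; exact ringOk_sound (by simpa using h) hx h0
      | false =>
        right
        exact ringOk_sound (by simpa using h) (cone3_neg hx) (neg_ne_zero.2 h0)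
  | F i e =>
    intro v0 v1 v2 h x hx h0
    right; right
    simp only [Tr.check] at h
    cases hO : O[i]? with
    | none => simp [hO] at h
    | some o =>
      rw [hO] at h
      refine ⟨o, List.mem_of_getElem? hO, ?_⟩
      cases e with
      | true => left; exact fanOk_sound (by simpa using h) hx h0
      | false =>
        right
        exact fanOk_sound (by simpa using h) (cone3_neg hx) (neg_ne_zero.2 h0)
  | rot t ih =>
    intro v0 v1 v2 h x hx h0
    exact ih (v0 := v1) (v1 := v2) (v2 := v0) h x (cone3_rot hx) h0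
  | cut m n t1 t2 ih1 ih2 =>
    intro v0 v1 v2 h x hx h0
    simp only [Tr.check] at h
    rw [Bool.and_eq_true, Bool.and_eq_true, Bool.and_eq_true] at h
    obtain ⟨⟨⟨hm, hn⟩, h1⟩, h2⟩ := h
    rcases cone3_cut (of_decide_eq_true hm) (of_decide_eq_true hn) hx with h | h
    · exact ih1 h1 x h h0
    · exact ih2 h2 x h h0

theorem Covered.cut {α : Type} {T : SignTest α} {FP FN : α} {O : List (OvalD × α)}
    {v0 v1 v2 : V3} (m n : ℕ) (hm : 0 < m) (hn : 0 < n)
    (h1 : Covered T FP FN O v0 (comb m n v0 v1) v2)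
    (h2 : Covered T FP FN O (comb m n v0 v1) v1 v2) : Covered T FP FN O v0 v1 v2 := by
  intro x hx h0
  rcases cone3_cut hm hn hx with h | h
  · exact h1 x h h0
  · exact h2 x h h0

theorem Covered.rot {α : Type} {T : SignTest α} {FP FN : α} {O : List (OvalD × α)}
    {v0 v1 v2 : V3} (h : Covered T FP FN O v1 v2 v0) : Covered T FP FN O v0 v1 v2 :=
  fun x hx h0 => h x (cone3_rot hx) h0

/-- the four octants cover everything up to the sign -/
theorem good_of_octants {α : Type} {T : SignTest α} {FP FN : α} {O : List (OvalD × α)}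
    (h1 : Covered T FP FN O (1, 0, 0) (0, 1, 0) (0, 0, 1))
    (h2 : Covered T FP FN O (-1, 0, 0) (0, 1, 0) (0, 0, 1))
    (h3 : Covered T FP FN O (-1, 0, 0) (0, -1, 0) (0, 0, 1))
    (h4 : Covered T FP FN O (1, 0, 0) (0, -1, 0) (0, 0, 1)) (x : Fin 3 → ℝ) (h0 : x ≠ 0) :
    Good T FP FN O x ∨ Good T FP FN O (-x) := by
  have key : ∀ y : Fin 3 → ℝ, y ≠ 0 → 0 ≤ y 2 → Good T FP FN O y := by
    intro y hy hy2
    rcases le_total 0 (y 0) with ha | ha <;> rcases le_total 0 (y 1) with hb | hb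
    · refine h1 y ⟨y 0, y 1, y 2, ha, hb, hy2, ?_⟩ hy
      ext i; fin_cases i <;> simp [toR]
    · refine h4 y ⟨y 0, -y 1, y 2, ha, neg_nonneg.2 hb, hy2, ?_⟩ hy
      ext i; fin_cases i <;> simp [toR]
    · refine h2 y ⟨-y 0, y 1, y 2, neg_nonneg.2 ha, hb, hy2, ?_⟩ hy
      ext i; fin_cases i <;> simp [toR]
    · refine h3 y ⟨-y 0, -y 1, y 2, neg_nonneg.2 ha, neg_nonneg.2 hb, hy2, ?_⟩ hy
      ext i; fin_cases i <;> simp [toR]
  rcases le_total 0 (x 2) with h | h
  · exact Or.inl (key x h0 h)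
  · exact Or.inr (key (-x) (neg_ne_zero.2 h0) (by simpa using h))

end Pool.Agent.Rohlin.Octic
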