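import Pool.Agent.Rohlin.ConeLevels
import Pool.Agent.Rohlin.Octic.Tree

/-!
# Octics: the sign test

`packed` is the sign test of `ConeLevels` for the subdivision trees of `Tree`; `bridge` compares a preprocessed form
with an integer polynomial.
-/

set_option autoImplicit false

namespace Pool.Agent.Rohlin.Octic

open MvPolynomial Finset Pool.Agent.Rohlin.Cone

/-! ### masks -/

/-- `∑_{i ≤ n} a B^i` -/
def triN (B a : ℕ) (n : ℕ) : ℕ := Nat.rec a (fun _ ih => Nat.add (Nat.mul ih B) a) n

/-- `∑_{i + j ≤ n} a B^i Y^j` -/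
def maskN (B Y a : ℕ) (n : ℕ) : ℕ := Nat.rec a (fun n ih => Nat.add (Nat.mul ih Y) (triN B a (Nat.succ n))) n

theorem triN_eq (B a : ℕ) : ∀ n, triN B a n = ∑ i ∈ range (n + 1), a * B ^ i
  | 0 => by simp [triN]
  | n + 1 => by
    show triN B a n * B + a = _
    rw [triN_eq B a n, Finset.sum_range_succ' _ (n + 1), Finset.sum_mul]
    simp only [pow_zero, mul_one, pow_succ, mul_assoc]

theorem idx_sum (d : ℕ) (f : ℕ → ℕ → ℕ) :
    ∑ q ∈ idx d, f q.1 q.2 = ∑ j ∈ range (d + 1), ∑ i ∈ range (d - j + 1), f i j := by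
  rw [Finset.sum_sigma']
  refine Finset.sum_nbij' (fun q => ⟨q.2, q.1⟩) (fun q => (q.2, q.1)) ?_ ?_ ?_ ?_ ?_
  · intro q hq
    have := mem_idx.mp hq
    simp only [mem_sigma, mem_range]
    omega
  · intro q hq
    simp only [mem_sigma, mem_range] at hq
    exact mem_idx.mpr (by simp only; omega)
  · intro q _
    rfl
  · intro q _
    rfl
  · intro q _
    rfl

theorem maskN_eq (B Y a : ℕ) : ∀ n, maskN B Y a n = ∑ j ∈ range (n + 1), ∑ i ∈ range (n - j + 1), a * (B ^ i * Y ^ j)
  | 0 => by simp [maskN]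
  | n + 1 => by
    show maskN B Y a n * Y + triN B a (n + 1) = _
    rw [maskN_eq B Y a n, Finset.sum_range_succ' _ (n + 1), triN_eq, Finset.sum_mul]
    congr 1
    · refine Finset.sum_congr rfl fun j _ => ?_
      rw [Finset.sum_mul, show n + 1 - (j + 1) = n - j by omega]
      refine Finset.sum_congr rfl fun i _ => ?_
      rw [pow_succ Y]
      ring
    · simp

theorem mask_eq (K d a : ℕ) : mask K d a = maskN (2 ^ (K + 1)) ((2 ^ (K + 1)) ^ 9) a d := by
  rw [maskN_eq, mask, idx_sum d fun i j => a * ((2 ^ (K + 1)) ^ i * ((2 ^ (K + 1)) ^ 9) ^ j)]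

/-! ### preprocessed forms -/

/-- the test of a digit size -/
def lvlb (d : ℕ) (l : Lvl) : Bool :=
  Nat.beq l.h (2 ^ l.K) && (Nat.beq l.B (2 ^ (l.K + 1)) && (Nat.beq l.Y ((2 ^ (l.K + 1)) ^ 9) &&
    (Nat.beq l.M (maskN l.B l.Y l.h d) && Nat.beq l.M1 (maskN l.B l.Y (l.h - 1) d))))

theorem lvlb_ok {d : ℕ} {l : Lvl} (h : lvlb d l = true) : l.Ok d := by
  simp only [lvlb, Bool.and_eq_true] at h
  obtain ⟨h5, h6, h7, h8, h9⟩ := h
  have e5 := Nat.eq_of_beq_eq_true h5
  have e6 := Nat.eq_of_beq_eq_true h6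
  have e7 := Nat.eq_of_beq_eq_true h7
  have e8 := Nat.eq_of_beq_eq_true h8
  have e9 := Nat.eq_of_beq_eq_true h9
  rw [e6, e7, e5, ← mask_eq] at e8 e9
  exact ⟨e5, e6, e7, e8, e9⟩

/-- the test of the fields of a form -/
def okb (F : FormL) : Bool :=
  Nat.ble F.d 8 && (Nat.beq F.rows.length (F.d + 1) && (shapeZ 0 F.rows && (decide (F.ar = absRows F.rows) &&
    (decide (F.rows = tab F.d (cf F.rows)) && F.ls.all (lvlb F.d)))))

/-- the test of the tables -/
def tabb (F : FormL) : Bool :=
  decide (castRows (F.T true true true) = twist F.d F.c F.rows true true true) &&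
    (decide (castRows (F.T true true false) = twist F.d F.c F.rows true true false) &&
    (decide (castRows (F.T true false true) = twist F.d F.c F.rows true false true) &&
    (decide (castRows (F.T true false false) = twist F.d F.c F.rows true false false) &&
    (decide (castRows (F.T false true true) = twist F.d F.c F.rows false true true) &&
    (decide (castRows (F.T false true false) = twist F.d F.c F.rows false true false) &&
    (decide (castRows (F.T false false true) = twist F.d F.c F.rows false false true) &&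
    decide (castRows (F.T false false false) = twist F.d F.c F.rows false false false)))))))

theorem okb_ok {F : FormL} (h : okb F = true) (h' : tabb F = true) : F.Ok := by
  simp only [okb, Bool.and_eq_true, decide_eq_true_eq] at h
  simp only [tabb, Bool.and_eq_true, decide_eq_true_eq] at h'
  obtain ⟨h1, h2, h3, h4, h5, h6⟩ := h
  obtain ⟨g1, g2, g3, g4, g5, g6, g7, g8⟩ := h'
  refine ⟨Nat.le_of_ble_eq_true h1, Nat.eq_of_beq_eq_true h2, h3, h4, h5, ?_,
    fun l hl => lvlb_ok (List.all_eq_true.1 h6 l hl)⟩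
  intro a b e
  cases a <;> cases b <;> cases e <;> assumption

/-- preprocessed forms -/
structure PForm where
  /-- the form -/
  F : FormL
  /-- the fields are as they should be -/
  ok : (okb F && tabb F) = true

/-- the test of positivity -/
def posV (F : FormL) (a b c : V3) : Bool :=
  seqI a.1 fun a₀ => seqI a.2.1 fun b₀ => seqI a.2.2 fun c₀ =>
    seqI b.1 fun a₁ => seqI b.2.1 fun b₁ => seqI b.2.2 fun c₁ =>
      seqI c.1 fun a₂ => seqI c.2.1 fun b₂ => seqI c.2.2 fun c₂ => posL F a₀ b₀ c₀ a₁ b₁ c₁ a₂ b₂ c₂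

theorem posV_sound {F : FormL} (hF : F.Ok) {a b c : V3} (h : posV F a b c = true) {x : Fin 3 → ℝ}
    (hx : x ∈ Cone3 a b c) (h0 : x ≠ 0) : 0 < evZ (x 0) (x 1) (x 2) F.rows 0 := by
  obtain ⟨a₀, b₀, c₀⟩ := a
  obtain ⟨a₁, b₁, c₁⟩ := b
  obtain ⟨a₂, b₂, c₂⟩ := c
  simp only [posV, seqI_eq] at h
  obtain ⟨r, s, t, hr, hs, ht, rfl⟩ := hx
  have hnn : ∀ i, 0 ≤ (![r, s, t] : Fin 3 → ℝ) i := by
    intro i
    fin_cases i
    · exact hr
    · exact hs
    · exact ht
  have hne : ∃ i, (![r, s, t] : Fin 3 → ℝ) i ≠ 0 := by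
    by_contra hcon
    push Not at hcon
    apply h0
    have e0 : r = 0 := hcon 0
    have e1 : s = 0 := hcon 1
    have e2 : t = 0 := hcon 2
    rw [e0, e1, e2]
    simp
  have key := posL_pos hF h hnn hne
  simp only [Matrix.cons_val_zero, Matrix.cons_val_one, Matrix.cons_val] at key
  simp only [toR, Pi.add_apply, Pi.smul_apply, smul_eq_mul, Matrix.cons_val_zero, Matrix.cons_val_one,
    Matrix.cons_val]
  convert key using 2 <;> ring

/-- the sign test -/
def packed : SignTest PForm where
  ev f x := evZ (x 0) (x 1) (x 2) f.F.rows 0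
  pos f a b c := posV f.F a b c
  sound f _ _ _ h _ hx h0 :=
    posV_sound (okb_ok (Bool.and_eq_true _ _ ▸ f.ok).1 (Bool.and_eq_true _ _ ▸ f.ok).2) h hx h0

/-! ### the comparison with integer polynomials -/

/-- the coefficient of `x^i y^j z^k` -/
def coefL (i j k : ℕ) : PolyL → ℤ
  | [] => 0
  | t :: L => (if t.2.1 = i ∧ t.2.2.1 = j ∧ t.2.2.2 = k then t.1 else 0) + coefL i j k L

/-- the coefficients of a polynomial of degree `d` -/
def rowsOf (d : ℕ) (L : PolyL) : List (List ℤ) := tab d fun m s => coefL (d - m) (m - s) s L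

/-- all terms of the polynomial with a nonzero coefficient have degree `d` -/
def homL (d : ℕ) (L : PolyL) : Bool := L.all fun t => decide (t.1 = 0 ∨ t.2.1 + t.2.2.1 + t.2.2.2 = d)

/-- the negative of a polynomial -/
def negL (L : PolyL) : PolyL := L.map fun t => (-t.1, t.2)

theorem evR_negL (L : PolyL) (x : Fin 3 → ℝ) : evR (negL L) x = - evR L x := by
  have : ∀ L : PolyL, evL (negL L) (x 0) (x 1) (x 2) = - evL L (x 0) (x 1) (x 2) := by
    intro L
    induction L with
    | nil => simp [evL, negL]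
    | cons t L ih =>
      simp only [evL, negL, List.map_cons, List.sum_cons] at ih ⊢
      rw [ih]
      push_cast
      ring
  exact this L

/-- the comparison of a preprocessed form with a polynomial -/
def bridge (f : PForm) (L : PolyL) : Bool := homL f.F.d L && decide (f.F.rows = rowsOf f.F.d L)

section
variable {R : Type} [CommRing R]

theorem sum_one (x y z c : R) {d i j k : ℕ} (h : i + j + k = d) :
    ∑ m ∈ range (d + 1), (∑ s ∈ range (m + 1), (if i = d - m ∧ j = m - s ∧ k = s then c else 0) *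
      (y ^ (m - s) * z ^ s)) * x ^ (d - m) = c * x ^ i * y ^ j * z ^ k := by
  rw [Finset.sum_eq_single (j + k)]
  · rw [Finset.sum_eq_single k]
    · rw [if_pos ⟨by omega, by omega, rfl⟩, show d - (j + k) = i by omega, show j + k - k = j by omega]
      ring
    · intro s _ hs
      rw [if_neg (fun h => hs h.2.2.symm), zero_mul]
    · intro h
      exact absurd (mem_range.mpr (by omega)) h
  · intro m hm hne
    rw [Finset.sum_eq_zero, zero_mul]
    intro s hs
    rw [if_neg, zero_mul]
    rintro ⟨h1, h2, h3⟩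
    simp only [mem_range] at hm hs
    omega
  · intro h'
    exact absurd (mem_range.mpr (by omega)) h'

theorem evZ_rowsOf (x y z : R) (d : ℕ) : ∀ (L : PolyL), homL d L = true → evZ x y z (rowsOf d L) 0 = evL L x y z
  | [], _ => by
    rw [rowsOf, evZ_tab]
    simp only [coefL, Int.cast_zero, zero_mul, Finset.sum_const_zero]
    simp [evL]
  | t :: L, h => by
    simp only [homL, List.all_cons, Bool.and_eq_true, decide_eq_true_eq] at h
    have ih := evZ_rowsOf x y z d L h.2
    rw [rowsOf, evZ_tab] at ih ⊢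
    have e : evL (t :: L) x y z = (t.1 : R) * x ^ t.2.1 * y ^ t.2.2.1 * z ^ t.2.2.2 + evL L x y z := by
      simp only [evL, List.map_cons, List.sum_cons]
    rw [e, ← ih]
    simp only [coefL, Int.cast_add, add_mul, Finset.sum_add_distrib]
    congr 1
    rcases h.1 with h0 | h0
    · rw [h0]
      simp
    · rw [← sum_one x y z (t.1 : R) h0]
      refine Finset.sum_congr rfl fun m _ => ?_
      congr 1
      refine Finset.sum_congr rfl fun s _ => ?_
      congr 1
      split_ifs <;> simp

end

theorem ev_bridge {f : PForm} {L : PolyL} (h : bridge f L = true) (x : Fin 3 → ℝ) :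
    packed.ev f x = evR L x := by
  simp only [bridge, Bool.and_eq_true, decide_eq_true_eq] at h
  show evZ (x 0) (x 1) (x 2) f.F.rows 0 = _
  rw [h.2, evZ_rowsOf _ _ _ _ _ h.1]
  rfl

theorem ev_bridge_neg {f : PForm} {L : PolyL} (h : bridge f (negL L) = true) (x : Fin 3 → ℝ) :
    packed.ev f x = - evR L x := by
  rw [ev_bridge h, evR_negL]

end Pool.Agent.Rohlin.Octic
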