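import Pool.Agent.Rohlin.Octic.Basic

/-!
# Octics: the polynomials of coefficient lists

Values, homogeneity, directional derivatives and the behaviour under `x ↦ -x` and scaling of the
polynomials which are given by lists of coefficients and exponents.
-/

set_option autoImplicit false

namespace Pool.Agent.Rohlin.Octic

open MvPolynomial

section evL

variable {R : Type} [CommRing R]

theorem evL_nil (x y z : R) : evL ([] : PolyL) x y z = 0 := rfl

theorem evL_cons (t : ℤ × ℕ × ℕ × ℕ) (L : PolyL) (x y z : R) :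
    evL (t :: L) x y z = (t.1 : R) * x ^ t.2.1 * y ^ t.2.2.1 * z ^ t.2.2.2 + evL L x y z := rfl

theorem evL_append (L M : PolyL) (x y z : R) :
    evL (L ++ M) x y z = evL L x y z + evL M x y z := by
  unfold evL
  rw [List.map_append, List.sum_append]

/-- homogeneity of the values -/
theorem evL_smul {m : ℕ} {L : PolyL} (h : ∀ t ∈ L, t.2.1 + t.2.2.1 + t.2.2.2 = m) (r x y z : R) :
    evL L (r * x) (r * y) (r * z) = r ^ m * evL L x y z := by
  induction L with
  | nil => simp [evL_nil]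
  | cons t L ih =>
    rw [evL_cons, evL_cons, ih fun t ht => h t (List.mem_cons_of_mem _ ht),
      ← h t List.mem_cons_self, mul_add]
    congr 1
    rw [mul_pow, mul_pow, mul_pow, pow_add, pow_add]
    ring

end evL

theorem evR_append (L M : PolyL) (x : Fin 3 → ℝ) : evR (L ++ M) x = evR L x + evR M x :=
  evL_append L M _ _ _

theorem evR_smul {m : ℕ} {L : PolyL} (h : ∀ t ∈ L, t.2.1 + t.2.2.1 + t.2.2.2 = m) (r : ℝ)
    (x : Fin 3 → ℝ) : evR L (r • x) = r ^ m * evR L x := by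
  unfold evR
  simp only [Pi.smul_apply, smul_eq_mul]
  exact evL_smul h r _ _ _

theorem evR_neg {m : ℕ} {L : PolyL} (h : ∀ t ∈ L, t.2.1 + t.2.2.1 + t.2.2.2 = m)
    (hm : Even m) (x : Fin 3 → ℝ) : evR L (-x) = evR L x := by
  have h1 := evR_smul h (-1) x
  rwa [neg_one_smul, hm.neg_one_pow, one_mul] at h1

theorem evR_neg_odd {m : ℕ} {L : PolyL} (h : ∀ t ∈ L, t.2.1 + t.2.2.1 + t.2.2.2 = m)
    (hm : Odd m) (x : Fin 3 → ℝ) : evR L (-x) = - evR L x := by
  have h1 := evR_smul h (-1) x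
  rwa [neg_one_smul, hm.neg_one_pow, neg_one_mul] at h1

theorem polyZ_nil : polyZ [] = 0 := rfl

theorem polyZ_cons (t : ℤ × ℕ × ℕ × ℕ) (L : PolyL) :
    polyZ (t :: L) = C t.1 * X 0 ^ t.2.1 * X 1 ^ t.2.2.1 * X 2 ^ t.2.2.2 + polyZ L := rfl

theorem polyR_nil : polyR [] = 0 := by
  unfold polyR
  rw [polyZ_nil, map_zero]

theorem polyR_cons (t : ℤ × ℕ × ℕ × ℕ) (L : PolyL) :
    polyR (t :: L) = C (t.1 : ℝ) * X 0 ^ t.2.1 * X 1 ^ t.2.2.1 * X 2 ^ t.2.2.2 + polyR L := by
  unfold polyR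
  rw [polyZ_cons]
  simp

theorem eval_polyR (L : PolyL) (x : Fin 3 → ℝ) : eval x (polyR L) = evR L x := by
  induction L with
  | nil => rw [polyR_nil, map_zero]; rfl
  | cons t L ih =>
    rw [polyR_cons, map_add, ih]
    simp only [map_mul, map_pow, eval_C, eval_X]
    rfl

theorem aeval_polyR (L : PolyL) (z : Fin 3 → ℂ) :
    aeval z (polyR L) = evL L (z 0) (z 1) (z 2) := by
  induction L with
  | nil => rw [polyR_nil, map_zero]; rfl
  | cons t L ih =>
    rw [polyR_cons, map_add, ih]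
    simp only [map_mul, map_pow, aeval_C, aeval_X]
    rw [evL_cons]
    simp

theorem polyR_isHomogeneous {m : ℕ} {L : PolyL} (h : ∀ t ∈ L, t.2.1 + t.2.2.1 + t.2.2.2 = m) :
    (polyR L).IsHomogeneous m := by
  induction L with
  | nil => rw [polyR_nil]; exact isHomogeneous_zero _ _ _
  | cons t L ih =>
    rw [polyR_cons]
    refine IsHomogeneous.add ?_ (ih fun t ht => h t (List.mem_cons_of_mem _ ht))
    have h1 := (((isHomogeneous_C (Fin 3) (t.1 : ℝ)).mul
      (isHomogeneous_X_pow (R := ℝ) (0 : Fin 3) t.2.1)).mul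
      (isHomogeneous_X_pow (R := ℝ) (1 : Fin 3) t.2.2.1)).mul
      (isHomogeneous_X_pow (R := ℝ) (2 : Fin 3) t.2.2.2)
    rwa [zero_add, h t List.mem_cons_self] at h1

/-- the degree check -/
def degOk (m : ℕ) (L : PolyL) : Bool := L.all fun t => t.2.1 + t.2.2.1 + t.2.2.2 == m

theorem degOk_sound {m : ℕ} {L : PolyL} (h : degOk m L = true) :
    ∀ t ∈ L, t.2.1 + t.2.2.1 + t.2.2.2 = m := by
  intro t ht
  have h1 := List.all_eq_true.1 h t ht
  simpa using h1

/-- the directional derivative of a monomial -/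
theorem evR_derL_cons (c : V3) (t : ℤ × ℕ × ℕ × ℕ) (L : PolyL) (x : Fin 3 → ℝ) :
    evR (derL c (t :: L)) x =
      (c.1 * (t.1 * (t.2.1 * x 0 ^ (t.2.1 - 1)) * x 1 ^ t.2.2.1 * x 2 ^ t.2.2.2) +
      c.2.1 * (t.1 * x 0 ^ t.2.1 * (t.2.2.1 * x 1 ^ (t.2.2.1 - 1)) * x 2 ^ t.2.2.2) +
      c.2.2 * (t.1 * x 0 ^ t.2.1 * x 1 ^ t.2.2.1 * (t.2.2.2 * x 2 ^ (t.2.2.2 - 1)))) +
      evR (derL c L) x := by
  unfold derL
  simp only [List.map_cons, evR_append]
  unfold evR
  simp only [evL_cons]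
  push_cast
  ring

theorem sum_pderiv_polyR (c : V3) (L : PolyL) (x : Fin 3 → ℝ) :
    ∑ j, toR c j * eval x (pderiv j (polyR L)) = evR (derL c L) x := by
  induction L with
  | nil =>
    rw [polyR_nil]
    simp only [map_zero, mul_zero, Finset.sum_const_zero]
    rfl
  | cons t L ih =>
    rw [evR_derL_cons, ← ih, polyR_cons]
    simp only [map_add, mul_add, Finset.sum_add_distrib]
    congr 1
    have h01 : (0 : Fin 3) ≠ 1 := by decide
    have h02 : (0 : Fin 3) ≠ 2 := by decide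
    have h12 : (1 : Fin 3) ≠ 2 := by decide
    simp only [Fin.sum_univ_three, Derivation.leibniz, Derivation.leibniz_pow, pderiv_C,
      pderiv_X_self, pderiv_X_of_ne h01, pderiv_X_of_ne h02, pderiv_X_of_ne h12,
      pderiv_X_of_ne h01.symm, pderiv_X_of_ne h02.symm, pderiv_X_of_ne h12.symm,
      smul_eq_mul, nsmul_eq_mul, map_add, map_mul, map_pow, eval_C, eval_X, map_natCast,
      map_zero, map_one, mul_zero, zero_add, add_zero, mul_one]
    simp only [toR, Matrix.cons_val_zero, Matrix.cons_val_one, Matrix.cons_val]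
    ring

end Pool.Agent.Rohlin.Octic
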