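import Pool.Agent.Rohlin.Octic.Global
import Pool.Agent.Rohlin.Octic.Packed
import Pool.Agent.Rohlin.Octic.Poly
import Pool.Agent.Rohlin.Octic.Nonsing

/-!
# Octics: the final form of the certificate
-/

set_option autoImplicit false

namespace Pool.Agent.Rohlin.Octic

open MvPolynomial Set

/-- the derivative of the octic towards the centre, with the sign which makes it positive on the
ring -/
def ringL (L : PolyL) (o : OvalD) : PolyL :=
  if o.sg then negL (derL o.c L) else derL o.c L

/-- the forms of the ovals are right -/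
def ringFormsOk (L : PolyL) (O : List (OvalD × PForm)) : Bool :=
  O.all fun o => bridge o.2 (ringL L o.1)

theorem formsOk_of_bridge {L : PolyL} (hL : mod3Ok L = true) {FP FN : PForm}
    (hP : bridge FP L = true) (hN : bridge FN (negL L) = true) {O : List (OvalD × PForm)}
    (hO : ringFormsOk L O = true) : FormsOk packed (curveOf L hL) FP FN O where
  evP x := by rw [ev_bridge hP, curveOf_F, eval_polyR]
  evN x := by rw [ev_bridge_neg hN, curveOf_F, eval_polyR]
  evG o ho x := by
    have h := List.all_eq_true.1 hO o ho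
    rw [ev_bridge h, curveOf_F, sum_pderiv_polyR, ringL]
    cases o.1.sg
    · simp
    · simp [evR_negL]

/-- pairs of ovals -/
def pairsOk (ins : ℕ → ℕ → Bool) (O : List OvalD) : Bool :=
  (O.zipIdx).all fun a => (O.zipIdx).all fun b =>
    decide (a.2 = b.2) || (if ins a.2 b.2 then nestB a.1 b.1 else
      (ins b.2 a.2 || decide (b.2 < a.2) || disjB a.1 b.1))

theorem disjB_symm {o o' : OvalD} (h : disjB o o' = true) : disjB o' o = true := by
  simp only [disjB, List.all_eq_true] at h ⊢
  intro P hP P' hP'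
  have h1 := h P' hP' P hP
  simp only [sepB, Bool.and_eq_true, Bool.or_eq_true] at h1 ⊢
  tauto

theorem pairsOk_sound {ins : ℕ → ℕ → Bool} {O : List (OvalD × PForm)}
    (h : pairsOk ins (O.map Prod.fst) = true) (i j : Fin O.length) (hij : i ≠ j) :
    (ins i.1 j.1 = true → nestB O[i].1 O[j].1 = true) ∧
    (ins i.1 j.1 = false → ins j.1 i.1 = false → disjB O[i].1 O[j].1 = true) := by
  have hm : ∀ k : Fin O.length, (O[k].1, k.1) ∈ (O.map Prod.fst).zipIdx := by
    intro k
    rw [List.mem_zipIdx_iff_getElem?]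
    simp
  have key : ∀ i j : Fin O.length, i ≠ j → (if ins i.1 j.1 then nestB O[i].1 O[j].1 else
      (ins j.1 i.1 || decide (j.1 < i.1) || disjB O[i].1 O[j].1)) = true := by
    intro i j hij
    have h1 := (List.all_eq_true.1 ((List.all_eq_true.1 h) _ (hm i))) _ (hm j)
    rw [Bool.or_eq_true] at h1
    rcases h1 with h1 | h1
    · exact absurd (Fin.ext (of_decide_eq_true h1)) hij
    · exact h1
  constructor
  · intro h1
    have h2 := key i j hij
    rwa [if_pos h1] at h2
  · intro h1 h2
    rcases lt_or_ge i.1 j.1 with hlt | hge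
    · have h3 := key i j hij
      rw [h1, h2] at h3
      simpa [not_lt.2 hlt.le] using h3
    · have h3 := key j i (Ne.symm hij)
      rw [h1, h2] at h3
      have h4 : ¬ i.1 < j.1 := not_lt.2 hge
      exact disjB_symm (by simpa [h4] using h3)

/-- the octic with the certificate has the scheme `S` -/
theorem isRealScheme_of_cert {L : PolyL} (hL : mod3Ok L = true) {FP FN : PForm}
    (hP : bridge FP L = true) (hN : bridge FN (negL L) = true) {O : List (OvalD × PForm)}
    (hO : ringFormsOk L O = true) (hok : ∀ o ∈ O, OvalOk packed FP FN o.1) {S : Scheme}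
    (hn : S.n = O.length) {ins : ℕ → ℕ → Bool}
    (hS : ∀ i j : Fin S.n, S.le i j ↔ (i = j ∨ ins i.1 j.1 = true))
    (hanti : ∀ i j : Fin S.n, i ≠ j → S.le i j → ¬ S.le j i)
    (hpairs : pairsOk ins (O.map Prod.fst) = true)
    (h1 : Covered packed FP FN O (1, 0, 0) (0, 1, 0) (0, 0, 1))
    (h2 : Covered packed FP FN O (-1, 0, 0) (0, 1, 0) (0, 0, 1))
    (h3 : Covered packed FP FN O (-1, 0, 0) (0, -1, 0) (0, 0, 1))
    (h4 : Covered packed FP FN O (1, 0, 0) (0, -1, 0) (0, 0, 1)) : IsRealScheme 8 S := by
  refine ⟨curveOf L hL, hasScheme_of_check (by decide) (formsOk_of_bridge hL hP hN hO) hok S hn ins hS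
    hanti (fun i j hij h => (pairsOk_sound hpairs i j hij).1 h)
    (fun i j hij h h' => (pairsOk_sound hpairs i j hij).2 h h')
    (fun x h0 => good_of_octants h1 h2 h3 h4 x h0)⟩

/-- the nesting of `S15` -/
def ins15 (i j : ℕ) : Bool := decide (i < 4) && decide (j = 4)

/-- the nesting of `S13` -/
def ins13 (i j : ℕ) : Bool :=
  (decide (i < 4) && decide (j = 4)) || ((decide (i = 5) || decide (i = 6)) && decide (j = 7))

theorem hS15 (i j : Fin S15.n) : S15.le i j ↔ (i = j ∨ ins15 i.1 j.1 = true) := by
  simp [S15, ins15]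

theorem hS13 (i j : Fin S13.n) : S13.le i j ↔ (i = j ∨ ins13 i.1 j.1 = true) := by
  simp [S13, ins13]

theorem anti15 (i j : Fin S15.n) (hij : i ≠ j) (h : S15.le i j) : ¬ S15.le j i := by
  have hij' : i.1 ≠ j.1 := fun h => hij (Fin.ext h)
  rcases h with h | h
  · exact absurd h hij
  · rintro (h' | h')
    · exact hij h'.symm
    · omega

theorem anti13 (i j : Fin S13.n) (hij : i ≠ j) (h : S13.le i j) : ¬ S13.le j i := by
  have hij' : i.1 ≠ j.1 := fun h => hij (Fin.ext h)
  rcases h with h | h
  · exact absurd h hij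
  · rintro (h' | h')
    · exact hij h'.symm
    · omega

end Pool.Agent.Rohlin.Octic
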