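import Pool.Agent.Rohlin.Defs

/-!
# Affine charts of the real projective plane (helper88; OCTICS block, module M1c)
-/

set_option autoImplicit false

open Set Topology

namespace Pool.Agent.Rohlin.Octic

variable {c u v : Fin 3 → ℝ}

theorem chart_ne_zero (h : LinearIndependent ℝ ![c, u, v]) (z : ℂ) :
    c + z.re • u + z.im • v ≠ 0 := by
  intro h0
  rw [Fintype.linearIndependent_iff] at h
  have h1 := h ![1, z.re, z.im] (by
    rw [Fin.sum_univ_three]
    simpa using h0) 0
  simp at h1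

/-- the affine chart with centre `c` and directions `u`, `v` -/
noncomputable def chart (h : LinearIndependent ℝ ![c, u, v]) (z : ℂ) : RP2 :=
  Projectivization.mk ℝ (c + z.re • u + z.im • v) (chart_ne_zero h z)

theorem continuous_chart (h : LinearIndependent ℝ ![c, u, v]) : Continuous (chart h) := by
  have h1 : Continuous (fun z : ℂ => (⟨c + z.re • u + z.im • v, chart_ne_zero h z⟩ :
      {v : Fin 3 → ℝ // v ≠ 0})) := by
    refine Continuous.subtype_mk ?_ _
    exact (continuous_const.add (Complex.continuous_re.smul continuous_const)).add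
      (Complex.continuous_im.smul continuous_const)
  have h2 : Continuous (fun v : {v : Fin 3 → ℝ // v ≠ 0} =>
      (Projectivization.mk ℝ v.1 v.2 : RP2)) := continuous_quotient_mk'
  exact h2.comp h1

/-- the coordinates of a basis -/
theorem exists_coord (h : LinearIndependent ℝ ![c, u, v]) :
    ∃ a b d : (Fin 3 → ℝ) →ₗ[ℝ] ℝ, (a c = 1 ∧ a u = 0 ∧ a v = 0) ∧
      (b c = 0 ∧ b u = 1 ∧ b v = 0) ∧ (d c = 0 ∧ d u = 0 ∧ d v = 1) ∧
      ∀ x, x = a x • c + b x • u + d x • v := by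
  let B := basisOfLinearIndependentOfCardEqFinrank h (by simp)
  have hB : ∀ i, B i = ![c, u, v] i := fun i => by simp [B]
  have h0 : B 0 = c := hB 0
  have h1 : B 1 = u := hB 1
  have h2 : B 2 = v := hB 2
  have hc : ∀ i j, B.coord i (B j) = if i = j then 1 else 0 := by
    intro i j
    rw [Module.Basis.coord_apply, B.repr_self, Finsupp.single_apply]
    simp [eq_comm]
  refine ⟨B.coord 0, B.coord 1, B.coord 2, ⟨?_, ?_, ?_⟩, ⟨?_, ?_, ?_⟩, ⟨?_, ?_, ?_⟩, fun x => ?_⟩
  · rw [← h0, hc]; simp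
  · rw [← h1, hc]; simp
  · rw [← h2, hc]; simp
  · rw [← h0, hc]; simp
  · rw [← h1, hc]; simp
  · rw [← h2, hc]; simp
  · rw [← h0, hc]; simp
  · rw [← h1, hc]; simp
  · rw [← h2, hc]; simp
  · have := B.sum_repr x
    rw [Fin.sum_univ_three, h0, h1, h2] at this
    exact this.symm

theorem mk_mem_image_chart (h : LinearIndependent ℝ ![c, u, v])
    {a b d : (Fin 3 → ℝ) →ₗ[ℝ] ℝ} (ha : a c = 1 ∧ a u = 0 ∧ a v = 0)
    (hb : b c = 0 ∧ b u = 1 ∧ b v = 0) (hd : d c = 0 ∧ d u = 0 ∧ d v = 1)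
    (hx : ∀ x, x = a x • c + b x • u + d x • v) (U : Set ℂ) (x : Fin 3 → ℝ) (hx0 : x ≠ 0) :
    Projectivization.mk ℝ x hx0 ∈ chart h '' U ↔
      a x ≠ 0 ∧ (⟨b x / a x, d x / a x⟩ : ℂ) ∈ U := by
  have hlin : ∀ z : ℂ, a (c + z.re • u + z.im • v) = 1 ∧ b (c + z.re • u + z.im • v) = z.re ∧
      d (c + z.re • u + z.im • v) = z.im := by
    intro z
    refine ⟨?_, ?_, ?_⟩
    · simp only [map_add, map_smul, ha.1, ha.2.1, ha.2.2]; simp
    · simp only [map_add, map_smul, hb.1, hb.2.1, hb.2.2]; simp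
    · simp only [map_add, map_smul, hd.1, hd.2.1, hd.2.2]; simp
  constructor
  · rintro ⟨z, hz, hzx⟩
    obtain ⟨t, ht⟩ := (Projectivization.mk_eq_mk_iff' ℝ _ _ _ _).1 hzx
    -- `t • x = c + z.re • u + z.im • v`
    obtain ⟨h1, h2, h3⟩ := hlin z
    rw [← ht, map_smul, smul_eq_mul] at h1 h2 h3
    have hax : a x ≠ 0 := fun h0 => by rw [h0, mul_zero] at h1; exact zero_ne_one h1
    have ht0 : t = (a x)⁻¹ := eq_inv_of_mul_eq_one_left h1
    refine ⟨hax, ?_⟩
    have : (⟨b x / a x, d x / a x⟩ : ℂ) = z := by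
      apply Complex.ext
      · simp only
        rw [← h2, ht0]; field_simp
      · simp only
        rw [← h3, ht0]; field_simp
    rw [this]
    exact hz
  · rintro ⟨hax, hz⟩
    refine ⟨_, hz, ?_⟩
    refine (Projectivization.mk_eq_mk_iff' ℝ _ _ _ _).2 ⟨(a x)⁻¹, ?_⟩
    have h1 : (a x)⁻¹ • x = (a x)⁻¹ • (a x • c + b x • u + d x • v) :=
      congrArg ((a x)⁻¹ • ·) (hx x)
    rw [h1]
    simp only [smul_add, smul_smul]
    rw [inv_mul_cancel₀ hax, one_smul, div_eq_inv_mul, div_eq_inv_mul]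

theorem chart_injective (h : LinearIndependent ℝ ![c, u, v]) : Function.Injective (chart h) := by
  obtain ⟨a, b, d, ha, hb, hd, hx⟩ := exists_coord h
  intro z w hzw
  have h1 : chart h z ∈ chart h '' {w} := by rw [hzw]; exact ⟨w, rfl, rfl⟩
  have h2 := ((mk_mem_image_chart h ha hb hd hx {w} _ (chart_ne_zero h z)).1 h1).2
  simp only [map_add, map_smul, ha.1, ha.2.1, ha.2.2, hb.1, hb.2.1, hb.2.2, hd.1, hd.2.1,
    hd.2.2, mem_singleton_iff] at h2
  rw [← h2]
  apply Complex.ext <;> simp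

theorem isOpenMap_chart (h : LinearIndependent ℝ ![c, u, v]) : IsOpenMap (chart h) := by
  obtain ⟨a, b, d, ha, hb, hd, hx⟩ := exists_coord h
  intro U hU
  have hq : IsQuotientMap (fun v : {v : Fin 3 → ℝ // v ≠ 0} =>
      (Projectivization.mk ℝ v.1 v.2 : RP2)) := isQuotientMap_quotient_mk'
  rw [← hq.isOpen_preimage]
  have hac : Continuous a := LinearMap.continuous_of_finiteDimensional a
  have hbc : Continuous b := LinearMap.continuous_of_finiteDimensional b
  have hdc : Continuous d := LinearMap.continuous_of_finiteDimensional d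
  have hset : (fun v : {v : Fin 3 → ℝ // v ≠ 0} => (Projectivization.mk ℝ v.1 v.2 : RP2)) ⁻¹'
      (chart h '' U) = {x | a x.1 ≠ 0 ∧ (⟨b x.1 / a x.1, d x.1 / a x.1⟩ : ℂ) ∈ U} := by
    ext x
    exact mk_mem_image_chart h ha hb hd hx U x.1 x.2
  rw [hset, isOpen_iff_mem_nhds]
  rintro x ⟨hx1, hx2⟩
  have hca : ContinuousAt (fun x : {v : Fin 3 → ℝ // v ≠ 0} => a x.1) x :=
    (hac.comp continuous_subtype_val).continuousAt
  have hcb : ContinuousAt (fun x : {v : Fin 3 → ℝ // v ≠ 0} => b x.1) x :=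
    (hbc.comp continuous_subtype_val).continuousAt
  have hcd : ContinuousAt (fun x : {v : Fin 3 → ℝ // v ≠ 0} => d x.1) x :=
    (hdc.comp continuous_subtype_val).continuousAt
  have hcz : ContinuousAt (fun x : {v : Fin 3 → ℝ // v ≠ 0} =>
      (⟨b x.1 / a x.1, d x.1 / a x.1⟩ : ℂ)) x := by
    have h1 : ContinuousAt (fun x : {v : Fin 3 → ℝ // v ≠ 0} =>
        ((b x.1 / a x.1 : ℝ) : ℂ) + ((d x.1 / a x.1 : ℝ) : ℂ) * Complex.I) x := by
      refine ContinuousAt.add ?_ (ContinuousAt.mul ?_ continuousAt_const)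
      · exact Complex.continuous_ofReal.continuousAt.comp (hcb.div hca hx1)
      · exact Complex.continuous_ofReal.continuousAt.comp (hcd.div hca hx1)
    refine h1.congr (Filter.Eventually.of_forall fun y => ?_)
    apply Complex.ext <;> simp
  filter_upwards [hca.eventually_ne hx1, hcz.preimage_mem_nhds (hU.mem_nhds hx2)] with y h1 h2
  exact ⟨h1, h2⟩

theorem isOpenEmbedding_chart (h : LinearIndependent ℝ ![c, u, v]) :
    IsOpenEmbedding (chart h) :=
  IsOpenEmbedding.of_continuous_injective_isOpenMap (continuous_chart h) (chart_injective h)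
    (isOpenMap_chart h)

/-- the range of the chart is the complement of the line `l = 0` -/
theorem mk_mem_range_chart (h : LinearIndependent ℝ ![c, u, v]) (l : (Fin 3 → ℝ) →ₗ[ℝ] ℝ)
    (hc : l c ≠ 0) (hu : l u = 0) (hv : l v = 0) (x : Fin 3 → ℝ) (hx0 : x ≠ 0) :
    Projectivization.mk ℝ x hx0 ∈ range (chart h) ↔ l x ≠ 0 := by
  obtain ⟨a, b, d, ha, hb, hd, hx⟩ := exists_coord h
  rw [← image_univ, mk_mem_image_chart h ha hb hd hx]
  have hl : l x = a x * l c := by
    conv_lhs => rw [hx x]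
    simp only [map_add, map_smul, hu, hv, smul_eq_mul]
    ring
  rw [hl]
  constructor
  · rintro ⟨h1, -⟩
    exact mul_ne_zero h1 hc
  · intro h1
    exact ⟨left_ne_zero_of_mul h1, mem_univ _⟩

end Pool.Agent.Rohlin.Octic
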