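import Pool.Agent.Rohlin.Octic.Basic

/-!
# Convex polyhedral cones in space
-/

set_option autoImplicit false

namespace Pool.Agent.Rohlin.Octic

open Set

/-! ### Linear algebra -/

theorem dotR_add (a : V3) (x y : Fin 3 → ℝ) : dotR a (x + y) = dotR a x + dotR a y := by
  simp only [dotR, Pi.add_apply]
  ring

theorem dotR_smul (a : V3) (r : ℝ) (x : Fin 3 → ℝ) : dotR a (r • x) = r * dotR a x := by
  simp only [dotR, Pi.smul_apply, smul_eq_mul]
  ring

theorem dotR_sub (a : V3) (x y : Fin 3 → ℝ) : dotR a (x - y) = dotR a x - dotR a y := by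
  simp only [dotR, Pi.sub_apply]
  ring

theorem dotR_zero (a : V3) : dotR a 0 = 0 := by
  simp [dotR]

theorem dotR_toR (a b : V3) : dotR a (toR b) = (dot a b : ℝ) := by
  simp only [dotR, dot, toR, Matrix.cons_val_zero, Matrix.cons_val_one, Matrix.cons_val]
  push_cast
  ring

theorem continuous_dotR (a : V3) : Continuous (dotR a) := by
  unfold dotR
  fun_prop

theorem dot_cross_left (p q : V3) : dot (cross p q) p = 0 := by
  simp only [dot, cross]
  ring

theorem dot_cross_right (p q : V3) : dot (cross p q) q = 0 := by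
  simp only [dot, cross]
  ring

theorem dot_cross_swap (p q c : V3) : dot (cross q p) c = - dot (cross p q) c := by
  simp only [dot, cross]
  ring

theorem toR_apply_zero (a : V3) : toR a 0 = a.1 := rfl
theorem toR_apply_one (a : V3) : toR a 1 = a.2.1 := rfl
theorem toR_apply_two (a : V3) : toR a 2 = a.2.2 := rfl

/-- a vector orthogonal to `p × q ≠ 0` is a combination of `p` and `q` -/
theorem exists_comb {p q : V3} (hn : cross p q ≠ (0, 0, 0)) {x : Fin 3 → ℝ}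
    (hx : dotR (cross p q) x = 0) : ∃ s t : ℝ, x = s • toR p + t • toR q := by
  set n := cross p q with hn0
  have hN : (0 : ℝ) < (n.1 : ℝ) ^ 2 + (n.2.1 : ℝ) ^ 2 + (n.2.2 : ℝ) ^ 2 := by
    by_contra h
    apply hn
    have h1 : (n.1 : ℝ) ^ 2 + (n.2.1 : ℝ) ^ 2 + (n.2.2 : ℝ) ^ 2 ≤ 0 := not_lt.1 h
    have ha : (n.1 : ℝ) = 0 := by nlinarith [sq_nonneg (n.1 : ℝ), sq_nonneg (n.2.1 : ℝ), sq_nonneg (n.2.2 : ℝ)]
    have hb : (n.2.1 : ℝ) = 0 := by nlinarith [sq_nonneg (n.1 : ℝ), sq_nonneg (n.2.1 : ℝ), sq_nonneg (n.2.2 : ℝ)]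
    have hc : (n.2.2 : ℝ) = 0 := by nlinarith [sq_nonneg (n.1 : ℝ), sq_nonneg (n.2.1 : ℝ), sq_nonneg (n.2.2 : ℝ)]
    ext
    · exact_mod_cast ha
    · exact_mod_cast hb
    · exact_mod_cast hc
  have e1 : (n.1 : ℝ) = p.2.1 * q.2.2 - p.2.2 * q.2.1 := by
    rw [hn0]
    simp only [cross]
    push_cast
    ring
  have e2 : (n.2.1 : ℝ) = p.2.2 * q.1 - p.1 * q.2.2 := by
    rw [hn0]
    simp only [cross]
    push_cast
    ring
  have e3 : (n.2.2 : ℝ) = p.1 * q.2.1 - p.2.1 * q.1 := by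
    rw [hn0]
    simp only [cross]
    push_cast
    ring
  set N : ℝ := (n.1 : ℝ) ^ 2 + (n.2.1 : ℝ) ^ 2 + (n.2.2 : ℝ) ^ 2 with hNdef
  have hx' : (n.1 : ℝ) * x 0 + n.2.1 * x 1 + n.2.2 * x 2 = 0 := hx
  set S : ℝ := (x 1 * q.2.2 - x 2 * q.2.1) * n.1 + (x 2 * q.1 - x 0 * q.2.2) * n.2.1 +
    (x 0 * q.2.1 - x 1 * q.1) * n.2.2 with hS
  set T : ℝ := (p.2.1 * x 2 - p.2.2 * x 1) * n.1 + (p.2.2 * x 0 - p.1 * x 2) * n.2.1 +
    (p.1 * x 1 - p.2.1 * x 0) * n.2.2 with hT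
  have i0 : N * x 0 = S * p.1 + T * q.1 := by
    have : N * x 0 = S * p.1 + T * q.1 + ((n.1 : ℝ) * x 0 + n.2.1 * x 1 + n.2.2 * x 2) * n.1 := by
      rw [hNdef, hS, hT, e1, e2, e3]
      ring
    rw [this, hx', zero_mul, add_zero]
  have i1 : N * x 1 = S * p.2.1 + T * q.2.1 := by
    have : N * x 1 = S * p.2.1 + T * q.2.1 + ((n.1 : ℝ) * x 0 + n.2.1 * x 1 + n.2.2 * x 2) * n.2.1 := by
      rw [hNdef, hS, hT, e1, e2, e3]
      ring
    rw [this, hx', zero_mul, add_zero]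
  have i2 : N * x 2 = S * p.2.2 + T * q.2.2 := by
    have : N * x 2 = S * p.2.2 + T * q.2.2 + ((n.1 : ℝ) * x 0 + n.2.1 * x 1 + n.2.2 * x 2) * n.2.2 := by
      rw [hNdef, hS, hT, e1, e2, e3]
      ring
    rw [this, hx', zero_mul, add_zero]
  refine ⟨S / N, T / N, ?_⟩
  have hN0 : N ≠ 0 := hN.ne'
  funext i
  fin_cases i
  · show x 0 = S / N * p.1 + T / N * q.1
    field_simp
    linarith
  · show x 1 = S / N * p.2.1 + T / N * q.2.1
    field_simp
    linarith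
  · show x 2 = S / N * p.2.2 + T / N * q.2.2
    field_simp
    linarith

/-! ### The vertices of a polygon in cyclic order -/

/-- the vertex number `i` (modulo the number of vertices) -/
def vtx (P : List V3) (i : ℕ) : V3 := P.getD (i % P.length) (0, 0, 0)

theorem vtx_mem {P : List V3} (hn : 0 < P.length) (i : ℕ) : vtx P i ∈ P := by
  unfold vtx
  rw [List.getD_eq_getElem _ _ (Nat.mod_lt _ hn)]
  exact List.getElem_mem _

theorem exists_vtx {P : List V3} {q : V3} (hq : q ∈ P) : ∃ i, vtx P i = q := by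
  obtain ⟨i, hi, rfl⟩ := List.getElem_of_mem hq
  refine ⟨i, ?_⟩
  unfold vtx
  rw [Nat.mod_eq_of_lt hi, List.getD_eq_getElem _ _ hi]

theorem vtx_add_length (P : List V3) (i : ℕ) : vtx P (i + P.length) = vtx P i := by
  unfold vtx
  rw [Nat.add_mod_right]

theorem mem_facets {P : List V3} (hn : 0 < P.length) {e : V3 × V3} :
    e ∈ facets P ↔ ∃ i, e = (vtx P i, vtx P (i + 1)) := by
  have hv : ∀ i (hi : i < P.length), (vtx P i, vtx P (i + 1)) =
      (P[i], (P.rotate 1)[i]'(by rw [List.length_rotate]; exact hi)) := by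
    intro i hi
    unfold vtx
    rw [List.getElem_rotate, Nat.mod_eq_of_lt hi, List.getD_eq_getElem _ _ hi,
      List.getD_eq_getElem _ _ (Nat.mod_lt _ hn)]
  constructor
  · intro he
    obtain ⟨i, hi, rfl⟩ := List.getElem_of_mem he
    have hi' : i < P.length := by
      unfold facets at hi
      rw [List.length_zip, List.length_rotate, min_self] at hi
      exact hi
    refine ⟨i, ?_⟩
    rw [hv i hi']
    exact List.getElem_zip
  · rintro ⟨i, rfl⟩
    have h1 : vtx P i = vtx P (i % P.length) := by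
      unfold vtx
      rw [Nat.mod_mod]
    have h2 : vtx P (i + 1) = vtx P (i % P.length + 1) := by
      unfold vtx
      rw [Nat.mod_add_mod]
    rw [h1, h2, hv _ (Nat.mod_lt _ hn)]
    have hl : i % P.length < (facets P).length := by
      unfold facets
      rw [List.length_zip, List.length_rotate, min_self]
      exact Nat.mod_lt _ hn
    have h3 : (facets P)[i % P.length] = (P[i % P.length]'(Nat.mod_lt _ hn),
        (P.rotate 1)[i % P.length]'(by rw [List.length_rotate]; exact Nat.mod_lt _ hn)) :=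
      List.getElem_zip
    rw [← h3]
    exact List.getElem_mem _

/-- the content of the check `okPoly` -/
structure GoodPoly (c : V3) (P : List V3) : Prop where
  len : 3 ≤ P.length
  inner : ∀ i, 0 < dot (cross (vtx P i) (vtx P (i + 1))) c
  conv : ∀ i, ∀ q ∈ P, q = vtx P i ∨ q = vtx P (i + 1) ∨ 0 < dot (cross (vtx P i) (vtx P (i + 1))) q

theorem goodPoly_of_ok {c : V3} {P : List V3} (h : okPoly c P = true) : GoodPoly c P := by
  simp only [okPoly, Bool.and_eq_true, decide_eq_true_eq, List.all_eq_true] at h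
  obtain ⟨h1, h2⟩ := h
  have hn : 0 < P.length := by omega
  exact ⟨h1, fun i => (h2 _ ((mem_facets hn).2 ⟨i, rfl⟩)).1,
    fun i q hq => (h2 _ ((mem_facets hn).2 ⟨i, rfl⟩)).2 q hq⟩

namespace GoodPoly

variable {c : V3} {P : List V3}

theorem pos (h : GoodPoly c P) : 0 < P.length := by
  have := h.len
  omega

theorem ne_succ (h : GoodPoly c P) (i : ℕ) : vtx P i ≠ vtx P (i + 1) := by
  intro heq
  have h1 := h.inner i
  rw [← heq] at h1
  have h2 : dot (cross (vtx P i) (vtx P i)) c = 0 := by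
    simp only [dot, cross]
    ring
  omega

theorem ne_succ2 (h : GoodPoly c P) (i : ℕ) : vtx P i ≠ vtx P (i + 2) := by
  intro heq
  have h1 := h.inner i
  have h2 := h.inner (i + 1)
  rw [show i + 1 + 1 = i + 2 from rfl, ← heq, dot_cross_swap] at h2
  omega

theorem pos_next (h : GoodPoly c P) (i : ℕ) :
    0 < dot (cross (vtx P i) (vtx P (i + 1))) (vtx P (i + 2)) := by
  rcases h.conv i (vtx P (i + 2)) (vtx_mem h.pos _) with h1 | h1 | h1
  · exact absurd h1.symm (h.ne_succ2 i)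
  · exact absurd h1.symm (h.ne_succ (i + 1))
  · exact h1

theorem pos_prev (h : GoodPoly c P) (i : ℕ) :
    0 < dot (cross (vtx P (i + 1)) (vtx P (i + 2))) (vtx P i) := by
  rcases h.conv (i + 1) (vtx P i) (vtx_mem h.pos _) with h1 | h1 | h1
  · exact absurd h1 (h.ne_succ i)
  · exact absurd h1 (h.ne_succ2 i)
  · exact h1

theorem cross_ne (h : GoodPoly c P) (i : ℕ) : cross (vtx P i) (vtx P (i + 1)) ≠ (0, 0, 0) := by
  intro h0
  have h1 := h.inner i
  rw [h0] at h1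
  simp [dot] at h1

theorem mem_iff (h : GoodPoly c P) {x : Fin 3 → ℝ} :
    x ∈ PolyCone P ↔ ∀ i, 0 ≤ dotR (cross (vtx P i) (vtx P (i + 1))) x := by
  constructor
  · intro hx i
    have hm : (vtx P i, vtx P (i + 1)) ∈ facets P := (mem_facets h.pos).2 ⟨i, rfl⟩
    exact hx (vtx P i, vtx P (i + 1)) hm
  · intro hx e he
    obtain ⟨i, hi⟩ := (mem_facets h.pos).1 he
    rw [hi]
    exact hx i

/-- a boundary point of a polygonal cone lies on a facet -/
theorem facet_aux (h : GoodPoly c P) {x : Fin 3 → ℝ} (hx : x ∈ PolyCone P) {i : ℕ}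
    (h0 : dotR (cross (vtx P i) (vtx P (i + 1))) x = 0) :
    ∃ s t : ℝ, 0 ≤ s ∧ 0 ≤ t ∧ x = s • toR (vtx P i) + t • toR (vtx P (i + 1)) := by
  obtain ⟨j, hj0, hj1⟩ : ∃ j, vtx P (j + 1) = vtx P i ∧ vtx P (j + 2) = vtx P (i + 1) := by
    refine ⟨i + P.length - 1, ?_, ?_⟩
    · have h1 : i + P.length - 1 + 1 = i + P.length := by have := h.pos; omega
      rw [h1, vtx_add_length]
    · have h1 : i + P.length - 1 + 2 = (i + 1) + P.length := by have := h.pos; omega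
      rw [h1, vtx_add_length]
  obtain ⟨s, t, hst⟩ := exists_comb (h.cross_ne i) h0
  rw [h.mem_iff] at hx
  have ha := hx j
  have hb := hx (j + 2)
  rw [← hj0, ← hj1] at hst
  have p1 : dotR (cross (vtx P j) (vtx P (j + 1))) x =
      t * (dot (cross (vtx P j) (vtx P (j + 1))) (vtx P (j + 2)) : ℝ) := by
    rw [hst, dotR_add, dotR_smul, dotR_smul, dotR_toR, dotR_toR, dot_cross_right]
    simp
  have p2 : dotR (cross (vtx P (j + 2)) (vtx P (j + 2 + 1))) x =
      s * (dot (cross (vtx P (j + 2)) (vtx P (j + 2 + 1))) (vtx P (j + 1)) : ℝ) := by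
    rw [hst, dotR_add, dotR_smul, dotR_smul, dotR_toR, dotR_toR, dot_cross_left]
    simp
  have q1 : (0 : ℝ) < (dot (cross (vtx P j) (vtx P (j + 1))) (vtx P (j + 2)) : ℝ) := by
    exact_mod_cast h.pos_next j
  have q2 : (0 : ℝ) < (dot (cross (vtx P (j + 2)) (vtx P (j + 2 + 1))) (vtx P (j + 1)) : ℝ) := by
    exact_mod_cast h.pos_prev (j + 1)
  rw [p1] at ha
  rw [p2] at hb
  rw [hj0, hj1] at hst
  exact ⟨s, t, nonneg_of_mul_nonneg_left hb q2, nonneg_of_mul_nonneg_left ha q1, hst⟩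

theorem dot_nonneg (h : GoodPoly c P) (i : ℕ) {q : V3} (hq : q ∈ P) :
    0 ≤ dot (cross (vtx P i) (vtx P (i + 1))) q := by
  rcases h.conv i q hq with h1 | h1 | h1
  · rw [h1, dot_cross_left]
  · rw [h1, dot_cross_right]
  · exact h1.le

/-- a point of a polygonal cone is a nonnegative combination of three vertices -/
theorem exists_comb3 (h : GoodPoly c P) {x : Fin 3 → ℝ} (hx : x ∈ PolyCone P) :
    ∃ q₀ ∈ P, ∃ q₁ ∈ P, ∃ q₂ ∈ P, ∃ r s t : ℝ, 0 ≤ r ∧ 0 ≤ s ∧ 0 ≤ t ∧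
      x = r • toR q₀ + s • toR q₁ + t • toR q₂ := by
  set q₀ := vtx P 0 with hq₀
  have hq₀P : q₀ ∈ P := vtx_mem h.pos 0
  set N := P.length with hN
  set I : Finset ℕ := (Finset.range N).filter fun i =>
    0 < dot (cross (vtx P i) (vtx P (i + 1))) q₀ with hI
  have hne : I.Nonempty := by
    refine ⟨1, ?_⟩
    rw [hI, Finset.mem_filter, Finset.mem_range]
    exact ⟨by have := h.len; omega, h.pos_prev 0⟩
  obtain ⟨i₀, hi₀, hmin⟩ := I.exists_min_image (fun i =>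
    dotR (cross (vtx P i) (vtx P (i + 1))) x / (dot (cross (vtx P i) (vtx P (i + 1))) q₀ : ℝ)) hne
  rw [hI, Finset.mem_filter] at hi₀
  have hxi := (h.mem_iff.1 hx)
  have hd₀ : (0 : ℝ) < (dot (cross (vtx P i₀) (vtx P (i₀ + 1))) q₀ : ℝ) := by exact_mod_cast hi₀.2
  set τ : ℝ := dotR (cross (vtx P i₀) (vtx P (i₀ + 1))) x /
    (dot (cross (vtx P i₀) (vtx P (i₀ + 1))) q₀ : ℝ) with hτ
  have hτ0 : 0 ≤ τ := div_nonneg (hxi i₀) hd₀.le
  have hval : ∀ i, dotR (cross (vtx P i) (vtx P (i + 1))) (x - τ • toR q₀) =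
      dotR (cross (vtx P i) (vtx P (i + 1))) x - τ * (dot (cross (vtx P i) (vtx P (i + 1))) q₀ : ℝ) := by
    intro i
    rw [dotR_sub, dotR_smul, dotR_toR]
  have hper : ∀ i, vtx P i = vtx P (i % N) := fun i => by
    unfold vtx
    rw [Nat.mod_mod]
  have hper1 : ∀ i, vtx P (i + 1) = vtx P (i % N + 1) := fun i => by
    unfold vtx
    rw [Nat.mod_add_mod]
  have hx' : x - τ • toR q₀ ∈ PolyCone P := by
    rw [h.mem_iff]
    intro i
    rw [hper i, hper1 i, hval]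
    by_cases hd : 0 < dot (cross (vtx P (i % N)) (vtx P (i % N + 1))) q₀
    · have h1 := hmin (i % N) (by
        rw [hI, Finset.mem_filter, Finset.mem_range]
        exact ⟨Nat.mod_lt _ h.pos, hd⟩)
      have hd' : (0 : ℝ) < (dot (cross (vtx P (i % N)) (vtx P (i % N + 1))) q₀ : ℝ) := by exact_mod_cast hd
      rw [le_div_iff₀ hd'] at h1
      linarith
    · have h1 : dot (cross (vtx P (i % N)) (vtx P (i % N + 1))) q₀ = 0 :=
        le_antisymm (not_lt.1 hd) (h.dot_nonneg _ hq₀P)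
      rw [h1]
      simpa using hxi (i % N)
  have h0 : dotR (cross (vtx P i₀) (vtx P (i₀ + 1))) (x - τ • toR q₀) = 0 := by
    rw [hval, hτ, div_mul_cancel₀ _ hd₀.ne', sub_self]
  obtain ⟨s, t, hs, ht, hst⟩ := h.facet_aux hx' h0
  refine ⟨q₀, hq₀P, vtx P i₀, vtx_mem h.pos _, vtx P (i₀ + 1), vtx_mem h.pos _, τ, s, t, hτ0, hs, ht, ?_⟩
  rw [add_assoc, ← hst]
  abel

end GoodPoly

/-! ### The interface -/

theorem isClosed_polyCone (P : List V3) : IsClosed (PolyCone P) := by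
  have h : PolyCone P = ⋂ e ∈ facets P, {x | 0 ≤ dotR (cross e.1 e.2) x} := by
    ext x
    simp [PolyCone]
  rw [h]
  exact isClosed_biInter fun e _ => isClosed_le continuous_const (continuous_dotR _)

theorem polyCone_comb {P : List V3} {x y : Fin 3 → ℝ} (hx : x ∈ PolyCone P) (hy : y ∈ PolyCone P)
    {r s : ℝ} (hr : 0 ≤ r) (hs : 0 ≤ s) : r • x + s • y ∈ PolyCone P := by
  intro e he
  rw [dotR_add, dotR_smul, dotR_smul]
  exact add_nonneg (mul_nonneg hr (hx e he)) (mul_nonneg hs (hy e he))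

theorem mem_interior_polyCone {P : List V3} {x : Fin 3 → ℝ}
    (hx : ∀ e ∈ facets P, 0 < dotR (cross e.1 e.2) x) : x ∈ interior (PolyCone P) := by
  rw [mem_interior]
  refine ⟨⋂ e ∈ (facets P).toFinset, {x | 0 < dotR (cross e.1 e.2) x}, ?_, ?_, ?_⟩
  · intro y hy e he
    simp only [mem_iInter] at hy
    exact (hy e (List.mem_toFinset.2 he)).le
  · exact isOpen_biInter_finset fun e _ => isOpen_lt continuous_const (continuous_dotR _)
  · simp only [mem_iInter]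
    exact fun e he => hx e (List.mem_toFinset.1 he)

theorem center_pos {c : V3} {P : List V3} (h : okPoly c P = true) :
    ∀ e ∈ facets P, 0 < dotR (cross e.1 e.2) (toR c) := by
  intro e he
  have hg := goodPoly_of_ok h
  obtain ⟨i, rfl⟩ := (mem_facets hg.pos).1 he
  rw [dotR_toR]
  exact_mod_cast hg.inner i

theorem center_mem_interior {c : V3} {P : List V3} (h : okPoly c P = true) :
    toR c ∈ interior (PolyCone P) := mem_interior_polyCone (center_pos h)

theorem center_mem {c : V3} {P : List V3} (h : okPoly c P = true) : toR c ∈ PolyCone P :=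
  interior_subset (center_mem_interior h)

/-- a point of a facet plane lies on the facet -/
theorem facet_comb {c : V3} {P : List V3} (h : okPoly c P = true) {e : V3 × V3} (he : e ∈ facets P)
    {x : Fin 3 → ℝ} (hx : x ∈ PolyCone P) (h0 : dotR (cross e.1 e.2) x = 0) :
    ∃ s t : ℝ, 0 ≤ s ∧ 0 ≤ t ∧ x = s • toR e.1 + t • toR e.2 := by
  have hg := goodPoly_of_ok h
  obtain ⟨i, rfl⟩ := (mem_facets hg.pos).1 he
  exact hg.facet_aux hx h0

theorem vertex_mem {c : V3} {P : List V3} (h : okPoly c P = true) {q : V3} (hq : q ∈ P) :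
    toR q ∈ PolyCone P := by
  have hg := goodPoly_of_ok h
  rw [hg.mem_iff]
  intro i
  rw [dotR_toR]
  exact_mod_cast hg.dot_nonneg i hq

theorem polyCone_comb3 {c : V3} {P : List V3} (h : okPoly c P = true) {x : Fin 3 → ℝ}
    (hx : x ∈ PolyCone P) : ∃ q₀ ∈ P, ∃ q₁ ∈ P, ∃ q₂ ∈ P, ∃ r s t : ℝ, 0 ≤ r ∧ 0 ≤ s ∧ 0 ≤ t ∧
      x = r • toR q₀ + s • toR q₁ + t • toR q₂ := (goodPoly_of_ok h).exists_comb3 hx

theorem hull_nonneg {c : V3} {P : List V3} (h : okPoly c P = true) {φ : V3}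
    (hφ : ∀ q ∈ P, 0 ≤ dot φ q) {x : Fin 3 → ℝ} (hx : x ∈ PolyCone P) : 0 ≤ dotR φ x := by
  obtain ⟨q₀, h0, q₁, h1, q₂, h2, r, s, t, hr, hs, ht, rfl⟩ := polyCone_comb3 h hx
  rw [dotR_add, dotR_add, dotR_smul, dotR_smul, dotR_smul, dotR_toR, dotR_toR, dotR_toR]
  have a0 : (0 : ℝ) ≤ (dot φ q₀ : ℝ) := by exact_mod_cast hφ q₀ h0
  have a1 : (0 : ℝ) ≤ (dot φ q₁ : ℝ) := by exact_mod_cast hφ q₁ h1
  have a2 : (0 : ℝ) ≤ (dot φ q₂ : ℝ) := by exact_mod_cast hφ q₂ h2
  positivity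

theorem hull_pos {c : V3} {P : List V3} (h : okPoly c P = true) {φ : V3}
    (hφ : ∀ q ∈ P, 0 < dot φ q) {x : Fin 3 → ℝ} (hx : x ∈ PolyCone P) (hx0 : x ≠ 0) :
    0 < dotR φ x := by
  obtain ⟨q₀, h0, q₁, h1, q₂, h2, r, s, t, hr, hs, ht, hxe⟩ := polyCone_comb3 h hx
  have a0 : (0 : ℝ) < (dot φ q₀ : ℝ) := by exact_mod_cast hφ q₀ h0
  have a1 : (0 : ℝ) < (dot φ q₁ : ℝ) := by exact_mod_cast hφ q₁ h1
  have a2 : (0 : ℝ) < (dot φ q₂ : ℝ) := by exact_mod_cast hφ q₂ h2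
  have hval : dotR φ x = r * (dot φ q₀ : ℝ) + s * (dot φ q₁ : ℝ) + t * (dot φ q₂ : ℝ) := by
    rw [hxe, dotR_add, dotR_add, dotR_smul, dotR_smul, dotR_smul, dotR_toR, dotR_toR, dotR_toR]
  rw [hval]
  by_contra hcon
  rw [not_lt] at hcon
  have b0 : 0 ≤ r * (dot φ q₀ : ℝ) := mul_nonneg hr a0.le
  have b1 : 0 ≤ s * (dot φ q₁ : ℝ) := mul_nonneg hs a1.le
  have b2 : 0 ≤ t * (dot φ q₂ : ℝ) := mul_nonneg ht a2.le
  have c0 : r = 0 := by
    have : r * (dot φ q₀ : ℝ) = 0 := by linarith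
    exact (mul_eq_zero.1 this).resolve_right a0.ne'
  have c1 : s = 0 := by
    have : s * (dot φ q₁ : ℝ) = 0 := by linarith
    exact (mul_eq_zero.1 this).resolve_right a1.ne'
  have c2 : t = 0 := by
    have : t * (dot φ q₂ : ℝ) = 0 := by linarith
    exact (mul_eq_zero.1 this).resolve_right a2.ne'
  apply hx0
  rw [hxe, c0, c1, c2]
  simp

/-! ### Stars -/

theorem isClosed_QSet (Ps : List (List V3)) : IsClosed (QSet Ps) := by
  have h : QSet Ps = ⋃ P ∈ {P | P ∈ Ps}, PolyCone P := by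
    ext x
    simp [QSet]
  rw [h]
  exact (List.finite_toSet Ps).isClosed_biUnion fun P _ => isClosed_polyCone P

theorem polyCone_subset_QSet {Ps : List (List V3)} {P : List V3} (hP : P ∈ Ps) :
    PolyCone P ⊆ QSet Ps := fun _ hx => ⟨P, hP, hx⟩

theorem isClosed_ray (v : Fin 3 → ℝ) : IsClosed {x : Fin 3 → ℝ | ∃ r : ℝ, 0 ≤ r ∧ x = r • v} := by
  have h : {x : Fin 3 → ℝ | ∃ r : ℝ, 0 ≤ r ∧ x = r • v} = (fun r : ℝ => r • v) '' Ici 0 := by
    ext x
    constructor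
    · rintro ⟨r, hr, rfl⟩
      exact ⟨r, hr, rfl⟩
    · rintro ⟨r, hr, rfl⟩
      exact ⟨r, hr, rfl⟩
  rw [h]
  exact isClosedMap_smul_left v _ isClosed_Ici

theorem isClosed_KSet (c : V3) (Ps : List (List V3)) : IsClosed (KSet c Ps) :=
  (isClosed_ray _).union (isClosed_QSet Ps)

theorem QSet_comb {c : V3} {Ps : List (List V3)} (h : ∀ P ∈ Ps, okPoly c P = true)
    {x : Fin 3 → ℝ} (hx : x ∈ QSet Ps) {r s : ℝ} (hr : 0 ≤ r) (hs : 0 ≤ s) :
    r • x + s • toR c ∈ QSet Ps := by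
  obtain ⟨P, hP, hxP⟩ := hx
  exact ⟨P, hP, polyCone_comb hxP (center_mem (h P hP)) hr hs⟩

theorem ray_mem_KSet (c : V3) (Ps : List (List V3)) {r : ℝ} (hr : 0 ≤ r) :
    r • toR c ∈ KSet c Ps := Or.inl ⟨r, hr, rfl⟩

theorem center_mem_KSet (c : V3) (Ps : List (List V3)) : toR c ∈ KSet c Ps :=
  Or.inl ⟨1, zero_le_one, (one_smul _ _).symm⟩

theorem KSet_comb {c : V3} {Ps : List (List V3)} (h : ∀ P ∈ Ps, okPoly c P = true)
    {x : Fin 3 → ℝ} (hx : x ∈ KSet c Ps) {r s : ℝ} (hr : 0 ≤ r) (hs : 0 ≤ s) :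
    r • x + s • toR c ∈ KSet c Ps := by
  rcases hx with ⟨r', hr', rfl⟩ | hx
  · left
    exact ⟨r * r' + s, by positivity, by rw [add_smul, mul_smul]⟩
  · exact Or.inr (QSet_comb h hx hr hs)

theorem center_mem_interior_QSet {c : V3} {Ps : List (List V3)} (h : ∀ P ∈ Ps, okPoly c P = true)
    (hne : Ps ≠ []) : toR c ∈ interior (QSet Ps) := by
  obtain ⟨P, hP⟩ := List.exists_mem_of_ne_nil Ps hne
  exact interior_mono (polyCone_subset_QSet hP) (center_mem_interior (h P hP))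

theorem KSet_nil (c : V3) : KSet c [] = {x | ∃ r : ℝ, 0 ≤ r ∧ x = r • toR c} := by
  ext x
  simp [KSet, QSet]

theorem KSet_eq_QSet {c : V3} {Ps : List (List V3)} (h : ∀ P ∈ Ps, okPoly c P = true)
    (hne : Ps ≠ []) : KSet c Ps = QSet Ps := by
  refine Subset.antisymm ?_ subset_union_right
  rintro x (⟨r, hr, rfl⟩ | hx)
  · have h1 := QSet_comb h (interior_subset (center_mem_interior_QSet h hne)) hr le_rfl
    rwa [zero_smul, add_zero] at h1
  · exact hx

/-- the frontier of a star -/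
theorem frontier_QSet {c : V3} {Ps : List (List V3)} (h : ∀ P ∈ Ps, okPoly c P = true)
    {x : Fin 3 → ℝ} (hx : x ∈ frontier (QSet Ps)) :
    ∃ P ∈ Ps, ∃ e ∈ facets P, (∃ s t : ℝ, 0 ≤ s ∧ 0 ≤ t ∧ x = s • toR e.1 + t • toR e.2) ∧
      ∀ P' ∈ Ps, ∃ e' ∈ facets P', dotR (cross e'.1 e'.2) x ≤ 0 := by
  have hxQ : x ∈ QSet Ps := (isClosed_QSet Ps).frontier_subset hx
  have hxi : x ∉ interior (QSet Ps) := fun hi => hx.2 hi
  have hall : ∀ P' ∈ Ps, ∃ e' ∈ facets P', dotR (cross e'.1 e'.2) x ≤ 0 := by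
    intro P' hP'
    by_contra hcon
    push Not at hcon
    exact hxi (interior_mono (polyCone_subset_QSet hP') (mem_interior_polyCone hcon))
  obtain ⟨P, hP, hxP⟩ := hxQ
  obtain ⟨e, he, hle⟩ := hall P hP
  have h0 : dotR (cross e.1 e.2) x = 0 := le_antisymm hle (hxP e he)
  exact ⟨P, hP, e, he, facet_comb (h P hP) he hxP h0, hall⟩

/-- the frontier of an inner star -/
theorem frontier_KSet {c : V3} {Ps : List (List V3)} (h : ∀ P ∈ Ps, okPoly c P = true)
    {x : Fin 3 → ℝ} (hx : x ∈ frontier (KSet c Ps)) :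
    (Ps = [] ∧ ∃ r : ℝ, 0 ≤ r ∧ x = r • toR c) ∨ (Ps ≠ [] ∧ x ∈ frontier (QSet Ps)) := by
  by_cases hne : Ps = []
  · left
    subst hne
    have h1 := (isClosed_KSet c []).frontier_subset hx
    rw [KSet_nil] at h1
    exact ⟨rfl, h1⟩
  · right
    rw [KSet_eq_QSet h hne] at hx
    exact ⟨hne, hx⟩

end Pool.Agent.Rohlin.Octic
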