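import Pool.Agent.Rohlin.Octic.OvalOk

/-!
# Octics: the soundness of the whole certificate
-/

set_option autoImplicit false

namespace Pool.Agent.Rohlin.Octic

open MvPolynomial Set

/-- the forms belong to the curve -/
structure FormsOk {α : Type} (T : SignTest α) {m : ℕ} (A : RealCurve m) (FP FN : α)
    (O : List (OvalD × α)) : Prop where
  evP : ∀ x, T.ev FP x = eval x A.F
  evN : ∀ x, T.ev FN x = - eval x A.F
  evG : ∀ o ∈ O, ∀ x, T.ev o.2 x =
    -((if o.1.sg then 1 else -1) * ∑ j, toR o.1.c j * eval x (pderiv j A.F))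

/-- the oval `o` is inside of the oval `o'` -/
def nestB (o o' : OvalD) : Bool :=
  o.Q.all fun P => o'.KE.any fun E => E.all fun e => P.all fun q => decide (0 < dot e q)

/-- two convex cones are disjoint up to the sign -/
def sepB (P : List V3 × List V3) (P' : List V3 × List V3) : Bool :=
  ((P.2.any fun e => P'.1.all fun q => decide (dot e q < 0)) ||
    (P'.2.any fun e => P.1.all fun q => decide (dot e q < 0))) &&
  ((P.2.any fun e => P'.1.all fun q => decide (0 < dot e q)) ||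
    (P'.2.any fun e => P.1.all fun q => decide (0 < dot e q)))

/-- the ovals `o` and `o'` are outside of each other -/
def disjB (o o' : OvalD) : Bool :=
  (o.Q.zip o.QE).all fun P => (o'.Q.zip o'.QE).all fun P' => sepB P P'

theorem mem_edgesOf {P : List V3} {e : V3} : e ∈ edgesOf P ↔ ∃ f ∈ facets P, cross f.1 f.2 = e := by
  simp only [edgesOf, List.mem_map]

theorem mem_polyCone_iff {P : List V3} {x : Fin 3 → ℝ} :
    x ∈ PolyCone P ↔ ∀ e ∈ edgesOf P, 0 ≤ dotR e x := by
  constructor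
  · intro h e he
    obtain ⟨f, hf, rfl⟩ := mem_edgesOf.1 he
    exact h f hf
  · intro h f hf
    exact h _ (mem_edgesOf.2 ⟨f, hf, rfl⟩)

theorem dot_negV (e q : V3) : dot (negV e) q = - dot e q := by
  simp only [dot, negV]; ring

theorem dotR_negV (e : V3) (x : Fin 3 → ℝ) : dotR (negV e) x = - dotR e x := by
  simp only [dotR, negV]; push_cast; ring

/-- strict separation -/
theorem hull_neg {c : V3} {P : List V3} (h : okPoly c P = true) {φ : V3}
    (hφ : ∀ q ∈ P, dot φ q < 0) {x : Fin 3 → ℝ} (hx : x ∈ PolyCone P) (h0 : x ≠ 0) :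
    dotR φ x < 0 := by
  have := hull_pos h (φ := negV φ) (fun q hq => by rw [dot_negV]; linarith [hφ q hq]) hx h0
  rw [dotR_negV] at this
  linarith

theorem sepB_sound {c c' : V3} {P P' : List V3} (hP : okPoly c P = true)
    (hP' : okPoly c' P' = true) (h : sepB (P, edgesOf P) (P', edgesOf P') = true)
    {x : Fin 3 → ℝ} (h0 : x ≠ 0) (hx : x ∈ PolyCone P) : x ∉ PolyCone P' ∧ -x ∉ PolyCone P' := by
  simp only [sepB, Bool.and_eq_true, Bool.or_eq_true, List.any_eq_true, List.all_eq_true,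
    decide_eq_true_eq] at h
  obtain ⟨h1, h2⟩ := h
  constructor
  · intro hx'
    rcases h1 with ⟨e, he, h3⟩ | ⟨e, he, h3⟩
    · have h4 := hull_neg hP' h3 hx' h0
      have h5 := mem_polyCone_iff.1 hx e he
      linarith
    · have h4 := hull_neg hP h3 hx h0
      have h5 := mem_polyCone_iff.1 hx' e he
      linarith
  · intro hx'
    rcases h2 with ⟨e, he, h3⟩ | ⟨e, he, h3⟩
    · have h4 := hull_pos hP' h3 hx' (neg_ne_zero.2 h0)
      have h5 := mem_polyCone_iff.1 hx e he
      rw [dotR_neg] at h4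
      linarith
    · have h4 := hull_pos hP h3 hx h0
      have h5 := mem_polyCone_iff.1 hx' e he
      rw [dotR_neg] at h5
      linarith

section oval

variable {α : Type} {T : SignTest α} {FP FN : α} {o : OvalD}

theorem OvalOk.mem_edges (ho : OvalOk T FP FN o) {x : Fin 3 → ℝ} :
    x ∈ QSet o.Q ↔ ∃ E ∈ o.QE, ∀ e ∈ E, 0 ≤ dotR e x := by
  rw [ho.hQE]
  constructor
  · rintro ⟨P, hP, hx⟩
    exact ⟨edgesOf P, List.mem_map.2 ⟨P, hP, rfl⟩, mem_polyCone_iff.1 hx⟩
  · rintro ⟨E, hE, hx⟩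
    obtain ⟨P, hP, rfl⟩ := List.mem_map.1 hE
    exact ⟨P, hP, mem_polyCone_iff.2 hx⟩

/-- the fan covers everything -/
theorem FanOk.exists_sector {o : OvalD} (h : FanOk o) (x : Fin 3 → ℝ) :
    ∃ e ∈ facets o.fan, 0 ≤ dotR (cross o.c e.1) x ∧ dotR (cross o.c e.2) x ≤ 0 := by
  obtain ⟨a, ha, b, hb, d, hd, hab, hbd, hda⟩ := h.around
  have hlen : 0 < o.fan.length := List.length_pos_of_mem ha
  by_contra hcon
  push Not at hcon
  have hstep : ∀ i : ℕ, 0 ≤ dotR (cross o.c (vtx o.fan i)) x →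
      0 < dotR (cross o.c (vtx o.fan (i + 1))) x := by
    intro i
    have hm : (vtx o.fan i, vtx o.fan (i + 1)) ∈ facets o.fan := (mem_facets hlen).2 ⟨i, rfl⟩
    exact hcon (vtx o.fan i, vtx o.fan (i + 1)) hm
  have hid : (dot (cross o.c b) d : ℝ) * dotR (cross o.c a) x +
      (dot (cross o.c d) a : ℝ) * dotR (cross o.c b) x +
      (dot (cross o.c a) b : ℝ) * dotR (cross o.c d) x = 0 := by
    simp only [dotR, dot, cross]
    push_cast
    ring
  have hab' : (0 : ℝ) < (dot (cross o.c a) b : ℝ) := by exact_mod_cast hab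
  have hbd' : (0 : ℝ) < (dot (cross o.c b) d : ℝ) := by exact_mod_cast hbd
  have hda' : (0 : ℝ) < (dot (cross o.c d) a : ℝ) := by exact_mod_cast hda
  by_cases hex : ∃ i, 0 ≤ dotR (cross o.c (vtx o.fan i)) x
  · obtain ⟨i, hi⟩ := hex
    have hall : ∀ k, 0 < dotR (cross o.c (vtx o.fan (i + 1 + k))) x := by
      intro k
      induction k with
      | zero => exact hstep i hi
      | succ k ih => exact hstep _ ih.le
    have hall' : ∀ q ∈ o.fan, 0 < dotR (cross o.c q) x := by
      intro q hq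
      obtain ⟨j, hj⟩ := exists_vtx hq
      have h1 := hall (j + o.fan.length * (i + 1) - (i + 1))
      have h2 : i + 1 + (j + o.fan.length * (i + 1) - (i + 1)) =
          j + o.fan.length * (i + 1) := by
        have : i + 1 ≤ o.fan.length * (i + 1) := Nat.le_mul_of_pos_left _ hlen
        omega
      have h3 : vtx o.fan (j + o.fan.length * (i + 1)) = vtx o.fan j := by
        unfold vtx
        rw [Nat.add_mul_mod_self_left]
      rw [h2, h3, hj] at h1
      exact h1
    have := mul_pos hbd' (hall' a ha)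
    have := mul_pos hda' (hall' b hb)
    have := mul_pos hab' (hall' d hd)
    linarith
  · push Not at hex
    have hall' : ∀ q ∈ o.fan, dotR (cross o.c q) x < 0 := by
      intro q hq
      obtain ⟨j, hj⟩ := exists_vtx hq
      have := hex j
      rwa [hj] at this
    have := mul_neg_of_pos_of_neg hbd' (hall' a ha)
    have := mul_neg_of_pos_of_neg hda' (hall' b hb)
    have := mul_neg_of_pos_of_neg hab' (hall' d hd)
    linarith

/-- the sector test implies that the point lies in the outer set -/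
theorem OvalOk.mem_of_fan (ho : OvalOk T FP FN o) (hf : FanOk o) {x : Fin 3 → ℝ}
    (hx : InFan o x) : x ∈ QSet o.Q := by
  obtain ⟨e, he, h1, h2⟩ := hf.exists_sector x
  obtain ⟨hD, E, hE, h3⟩ := hf.pieces e he
  have h4 : 0 ≤ dotR (cross e.1 e.2) x := by
    have h5 : (cross o.c e.1, cross e.1 e.2, cross o.c e.2) ∈ o.FE := by
      rw [hf.hFE]; exact List.mem_map.2 ⟨e, he, rfl⟩
    rcases hx _ h5 with h | h | h
    · exact absurd h1 (not_le.2 h)
    · exact absurd h2 (not_le.2 h)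
    · exact h
  rw [ho.hQE] at hE
  obtain ⟨P, hP, rfl⟩ := List.mem_map.1 hE
  refine ⟨P, hP, ?_⟩
  have hc := center_mem (ho.okQ P hP)
  have hp1 : toR e.1 ∈ PolyCone P := mem_polyCone_iff.2 fun f hf' => by
    rw [dotR_toR]; exact_mod_cast (h3 f hf').1
  have hp2 : toR e.2 ∈ PolyCone P := mem_polyCone_iff.2 fun f hf' => by
    rw [dotR_toR]; exact_mod_cast (h3 f hf').2
  have hD' : (0 : ℝ) < (dot (cross o.c e.1) e.2 : ℝ) := by exact_mod_cast hD
  have hcr : x = (dot (cross o.c e.1) e.2 : ℝ)⁻¹ • (1 * (dotR (cross e.1 e.2) x) • toR o.c +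
      (1 : ℝ) • ((-dotR (cross o.c e.2) x) • toR e.1 + (dotR (cross o.c e.1) x) • toR e.2)) := by
    rw [eq_inv_smul_iff₀ hD'.ne']
    ext i
    fin_cases i <;>
    · simp [dotR, dot, cross, toR]
      ring
  rw [hcr]
  have h6 := polyCone_comb (polyCone_comb hc hc h4 le_rfl)
    (polyCone_comb hp1 hp2 (neg_nonneg.2 h2) h1) zero_le_one zero_le_one
  have h7 := polyCone_comb h6 h6 (inv_nonneg.2 hD'.le) le_rfl
  simpa using h7

theorem OvalOk.mem_of_ring (ho : OvalOk T FP FN o) {G : α} {x : Fin 3 → ℝ}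
    (hx : InRing T (o, G) x) : x ∈ QSet o.Q := by
  rcases hx.1 with h | ⟨_, hne, h⟩
  · exact ho.mem_edges.2 h
  · rcases ho.hfan with h' | h'
    · exact absurd h' hne
    · exact ho.mem_of_fan h' h

theorem OvalOk.l_pos (ho : OvalOk T FP FN o) {x : Fin 3 → ℝ} (hx : x ∈ QSet o.Q) (h0 : x ≠ 0) :
    0 < dotR o.l x := by
  obtain ⟨P, hP, hx⟩ := hx
  exact hull_pos (ho.okQ P hP) (ho.lpos P hP) hx h0

theorem okPoly_edges {c : V3} {P : List V3} (h : okPoly c P = true) {e : V3 × V3}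
    (he : e ∈ facets P) : 0 < dotR (cross e.1 e.2) (toR c) := by
  rw [okPoly, Bool.and_eq_true] at h
  have h1 := (List.all_eq_true.1 h.2) e he
  rw [Bool.and_eq_true] at h1
  rw [dotR_toR]
  exact_mod_cast of_decide_eq_true h1.1

theorem okPoly_center {c : V3} {P : List V3} (h : okPoly c P = true) : toR c ∈ PolyCone P :=
  fun _ he => (okPoly_edges h he).le

theorem OvalOk.c_mem (ho : OvalOk T FP FN o) : toR o.c ∈ interior (QSet o.Q) := by
  obtain ⟨P, hP⟩ := List.exists_mem_of_ne_nil _ ho.hQ0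
  have h1 : toR o.c ∈ interior (PolyCone P) :=
    mem_interior_polyCone fun e he => okPoly_edges (ho.okQ P hP) he
  have h2 : PolyCone P ⊆ QSet o.Q := fun x hx => ⟨P, hP, hx⟩
  exact interior_mono h2 h1

theorem OvalOk.cone_add (ho : OvalOk T FP FN o) {x : Fin 3 → ℝ} (hx : x ∈ QSet o.Q) {r s : ℝ}
    (hr : 0 ≤ r) (hs : 0 ≤ s) : r • x + s • toR o.c ∈ QSet o.Q := by
  obtain ⟨P, hP, hx⟩ := hx
  exact ⟨P, hP, polyCone_comb hx (okPoly_center (ho.okQ P hP)) hr hs⟩

theorem OvalOk.K_sub (ho : OvalOk T FP FN o) : KSet o.c o.K ⊆ QSet o.Q := by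
  rintro x (⟨r, hr, rfl⟩ | ⟨P, hP, hx⟩)
  · have := ho.cone_add (interior_subset ho.c_mem) (le_refl 0) hr
    simpa using this
  · obtain ⟨P', hP', h⟩ := ho.KQ P hP
    refine ⟨P', hP', mem_polyCone_iff.2 fun e he => ?_⟩
    exact hull_nonneg (ho.okK P hP) (h e he) hx

theorem KSet_add {c : V3} {Ps : List (List V3)} (h : ∀ P ∈ Ps, okPoly c P = true)
    {x : Fin 3 → ℝ} (hx : x ∈ KSet c Ps) {r s : ℝ} (hr : 0 ≤ r) (hs : 0 ≤ s) :
    r • x + s • toR c ∈ KSet c Ps := by
  rcases hx with ⟨r', hr', rfl⟩ | ⟨P, hP, hx⟩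
  · left
    exact ⟨r * r' + s, by positivity, by rw [smul_smul, add_smul]⟩
  · right
    exact ⟨P, hP, polyCone_comb hx (okPoly_center (h P hP)) hr hs⟩

theorem zero_mem_KSet (c : V3) (Ps : List (List V3)) : (0 : Fin 3 → ℝ) ∈ KSet c Ps :=
  Or.inl ⟨0, le_rfl, by simp⟩

/-- a zero in the closed ring is not in the inner set -/
theorem OvalOk.not_mem_K (ho : OvalOk T FP FN o) {x : Fin 3 → ℝ} (h0 : x ≠ 0)
    (hz : ¬ 0 < T.ev (inner FP FN o) x)
    (hc : ∀ r : ℝ, 0 < r → 0 < T.ev (inner FP FN o) (r • toR o.c))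
    (hK : ∀ E ∈ o.KE, ∃ e ∈ E, dotR e x ≤ 0) : x ∉ KSet o.c o.K := by
  rintro (⟨r, hr, rfl⟩ | ⟨P, hP, hx⟩)
  · rcases hr.eq_or_lt with h | h
    · exact h0 (by rw [← h]; simp)
    · exact hz (hc r h)
  · obtain ⟨e, he, h1⟩ := hK (edgesOf P) (by rw [ho.hKE]; exact List.mem_map.2 ⟨P, hP, rfl⟩)
    obtain ⟨f, hf, rfl⟩ := mem_edgesOf.1 he
    have h2 : dotR (cross f.1 f.2) x = 0 := le_antisymm h1 (hx f hf)
    obtain ⟨s, t, hs, ht, h3⟩ := facet_comb (ho.okK P hP) hf hx h2
    have h4 : x ∈ Cone3 f.1 f.2 f.2 := ⟨s, t, 0, hs, ht, le_rfl, by rw [h3]; simp⟩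
    rcases ho.facK P hP f hf x h4 h0 with h5 | ⟨es, hes, h5⟩
    · exact hz h5
    · obtain ⟨e', he', h6⟩ := hK es hes
      linarith [h5 e' he']

end oval

section main

variable {α : Type} {T : SignTest α} {FP FN : α} {O : List (OvalD × α)} {m : ℕ} {A : RealCurve m}

theorem eval_neg_even (hm : Even m) (x : Fin 3 → ℝ) : eval (-x) A.F = eval x A.F := by
  have h := eval_smul_of_homogeneous A.hom (-1) x
  rw [hm.neg_one_pow, one_mul, neg_one_smul] at h
  exact h

theorem FormsOk.inner_eq (hf : FormsOk T A FP FN O) (o : OvalD) (x : Fin 3 → ℝ) :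
    T.ev (inner FP FN o) x = -((if o.sg then 1 else -1) * eval x A.F) := by
  unfold inner
  cases o.sg
  · simp [hf.evP]
  · simp [hf.evN]

theorem FormsOk.outer_eq (hf : FormsOk T A FP FN O) (o : OvalD) (x : Fin 3 → ℝ) :
    T.ev (outer FP FN o) x = (if o.sg then 1 else -1) * eval x A.F := by
  unfold outer
  cases o.sg
  · simp [hf.evN]
  · simp [hf.evP]

/-- a zero lies in a ring -/
theorem exists_ring (hm : Even m) (hf : FormsOk T A FP FN O)
    (cov : ∀ x : Fin 3 → ℝ, x ≠ 0 → Good T FP FN O x ∨ Good T FP FN O (-x))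
    {x : Fin 3 → ℝ} (h0 : x ≠ 0) (hz : eval x A.F = 0) :
    ∃ o ∈ O, ∃ y, (y = x ∨ y = -x) ∧ InRing T o y := by
  have key : ∀ y : Fin 3 → ℝ, eval y A.F = 0 → Good T FP FN O y →
      ∃ o ∈ O, InRing T o y ∨ InRing T o (-y) := by
    intro y hy hg
    rcases hg with h | h | h
    · rw [hf.evP, hy] at h; exact absurd h (lt_irrefl _)
    · rw [hf.evN, hy, neg_zero] at h; exact absurd h (lt_irrefl _)
    · exact h
  rcases cov x h0 with h | h
  · obtain ⟨o, ho, h1 | h1⟩ := key x hz h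
    · exact ⟨o, ho, x, Or.inl rfl, h1⟩
    · exact ⟨o, ho, -x, Or.inr rfl, h1⟩
  · obtain ⟨o, ho, h1 | h1⟩ := key (-x) (by rw [eval_neg_even hm, hz]) h
    · exact ⟨o, ho, -x, Or.inr rfl, h1⟩
    · rw [neg_neg] at h1; exact ⟨o, ho, x, Or.inl rfl, h1⟩

/-- the inner test at the multiples of the centre -/
theorem inner_center (hf : FormsOk T A FP FN O) {o : OvalD} (ho : OvalOk T FP FN o) (r : ℝ)
    (hr : 0 < r) : 0 < T.ev (inner FP FN o) (r • toR o.c) := by
  have h := ho.cen
  rw [hf.inner_eq] at h ⊢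
  rw [eval_smul_of_homogeneous A.hom]
  have h2 : -((if o.sg then (1 : ℝ) else -1) * (r ^ m * eval (toR o.c) A.F)) =
      r ^ m * -((if o.sg then 1 else -1) * eval (toR o.c) A.F) := by ring
  rw [h2]
  positivity

/-- a ring point which is a zero is in the outer set and not in the inner set -/
theorem ring_zero (hf : FormsOk T A FP FN O) (hok : ∀ o ∈ O, OvalOk T FP FN o.1)
    {o : OvalD × α} (ho : o ∈ O) {y : Fin 3 → ℝ} (h0 : y ≠ 0) (hz : eval y A.F = 0)
    (h : InRing T o y) : y ∈ QSet o.1.Q ∧ y ∉ KSet o.1.c o.1.K := by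
  refine ⟨(hok o ho).mem_of_ring h, ?_⟩
  refine (hok o ho).not_mem_K h0 ?_ (fun r hr => inner_center hf (hok o ho) r hr) h.2.1
  rw [hf.inner_eq, hz]
  simp

theorem nestB_sound {o o' : OvalD} (ho : OvalOk T FP FN o) (h : nestB o o' = true)
    {x : Fin 3 → ℝ} (h0 : x ≠ 0) (hx : x ∈ QSet o.Q) : ∃ E ∈ o'.KE, ∀ e ∈ E, 0 < dotR e x := by
  obtain ⟨P, hP, hx⟩ := hx
  obtain ⟨E, hE, h1⟩ := List.any_eq_true.1 ((List.all_eq_true.1 h) P hP)
  refine ⟨E, hE, fun e he => ?_⟩
  refine hull_pos (ho.okQ P hP) (fun q hq => ?_) hx h0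
  exact of_decide_eq_true ((List.all_eq_true.1 ((List.all_eq_true.1 h1) e he)) q hq)

theorem mem_KSet_of_edges {o : OvalD} (ho : OvalOk T FP FN o) {x : Fin 3 → ℝ}
    (h : ∃ E ∈ o.KE, ∀ e ∈ E, 0 < dotR e x) : x ∈ KSet o.c o.K := by
  obtain ⟨E, hE, h1⟩ := h
  rw [ho.hKE] at hE
  obtain ⟨P, hP, rfl⟩ := List.mem_map.1 hE
  exact Or.inr ⟨P, hP, mem_polyCone_iff.2 fun e he => (h1 e he).le⟩

theorem mem_zip_map {β γ : Type} {f : β → γ} {l : List β} {b : β} (h : b ∈ l) :
    (b, f b) ∈ l.zip (l.map f) := by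
  induction l with
  | nil => simp at h
  | cons a l ih =>
    rw [List.map_cons, List.zip_cons_cons]
    rcases List.mem_cons.1 h with rfl | h
    · exact List.mem_cons_self
    · exact List.mem_cons_of_mem _ (ih h)

theorem disjB_sound {o o' : OvalD} (ho : OvalOk T FP FN o) (ho' : OvalOk T FP FN o')
    (h : disjB o o' = true) {x : Fin 3 → ℝ} (h0 : x ≠ 0) (hx : x ∈ QSet o.Q) :
    x ∉ QSet o'.Q ∧ -x ∉ QSet o'.Q := by
  obtain ⟨P, hP, hx⟩ := hx
  have key : ∀ P' ∈ o'.Q, x ∉ PolyCone P' ∧ -x ∉ PolyCone P' := by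
    intro P' hP'
    have h1 : (P, edgesOf P) ∈ o.Q.zip o.QE := by
      rw [ho.hQE]; exact mem_zip_map hP
    have h2 : (P', edgesOf P') ∈ o'.Q.zip o'.QE := by
      rw [ho'.hQE]; exact mem_zip_map hP'
    have h3 := (List.all_eq_true.1 ((List.all_eq_true.1 h) _ h1)) _ h2
    exact sepB_sound (ho.okQ P hP) (ho'.okQ P' hP') h3 h0 hx
  constructor
  · rintro ⟨P', hP', h1⟩; exact (key P' hP').1 h1
  · rintro ⟨P', hP', h1⟩; exact (key P' hP').2 h1

/-- the soundness of the whole certificate -/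
theorem hasScheme_of_check (hm : Even m) (hf : FormsOk T A FP FN O)
    (hok : ∀ o ∈ O, OvalOk T FP FN o.1) (S : Scheme) (hn : S.n = O.length)
    (ins : ℕ → ℕ → Bool) (hS : ∀ i j : Fin S.n, S.le i j ↔ (i = j ∨ ins i.1 j.1 = true))
    (hanti : ∀ i j : Fin S.n, i ≠ j → S.le i j → ¬ S.le j i)
    (hnest : ∀ i j : Fin O.length, i ≠ j → ins i.1 j.1 = true → nestB O[i].1 O[j].1 = true)
    (hdisj : ∀ i j : Fin O.length, i ≠ j → ins i.1 j.1 = false → ins j.1 i.1 = false →
      disjB O[i].1 O[j].1 = true)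
    (cov : ∀ x : Fin 3 → ℝ, x ≠ 0 → Good T FP FN O x ∨ Good T FP FN O (-x)) :
    HasScheme m A.real S := by
  have hmem : ∀ i : Fin O.length, O[i] ∈ O := fun i => List.getElem_mem _
  have hokn : ∀ i : Fin O.length, OvalOk T FP FN O[i].1 := fun i => hok _ (hmem i)
  -- the ring condition
  have hring : ∀ i : Fin O.length, ∀ x ∈ QSet O[i].1.Q, x ∉ KSet O[i].1.c O[i].1.K →
      eval x A.F = 0 → 0 < T.ev O[i].2 x := by
    intro i x hx hxK hz
    have h0 : x ≠ 0 := fun h => hxK (by rw [h]; exact zero_mem_KSet _ _)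
    obtain ⟨o, ho, y, hy, hr⟩ := exists_ring hm hf cov h0 hz
    obtain ⟨j, hj⟩ := List.get_of_mem ho
    have hj' : O[j] = o := hj
    rw [← hj'] at hr
    have hy0 : y ≠ 0 := by rcases hy with rfl | rfl; exacts [h0, neg_ne_zero.2 h0]
    have hyQ : y ∈ QSet O[j].1.Q := (hokn j).mem_of_ring hr
    by_cases hij : i = j
    · subst hij
      rcases hy with rfl | rfl
      · exact hr.2.2
      · exfalso
        have h1 := (hokn i).l_pos hx h0
        have h2 := (hokn i).l_pos hyQ hy0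
        rw [dotR_neg] at h2
        linarith
    · exfalso
      by_cases h1 : ins i.1 j.1 = true
      · have h2 := nestB_sound (hokn i) (hnest i j hij h1) h0 hx
        rcases hy with rfl | rfl
        · obtain ⟨E, hE, h3⟩ := h2
          obtain ⟨e, he, h4⟩ := hr.2.1 E hE
          linarith [h3 e he]
        · have h3 := (hokn j).l_pos ((hokn j).K_sub (mem_KSet_of_edges (hokn j) h2)) h0
          have h4 := (hokn j).l_pos hyQ hy0
          rw [dotR_neg] at h4
          linarith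
      · by_cases h2 : ins j.1 i.1 = true
        · have h3 := nestB_sound (hokn j) (hnest j i (Ne.symm hij) h2) hy0 hyQ
          have h4 := mem_KSet_of_edges (hokn i) h3
          rcases hy with rfl | rfl
          · exact hxK h4
          · have h5 := (hokn i).l_pos ((hokn i).K_sub h4) hy0
            have h6 := (hokn i).l_pos hx h0
            rw [dotR_neg] at h5
            linarith
        · have h3 := disjB_sound (hokn i) (hokn j) (hdisj i j hij (by simpa using h1)
            (by simpa using h2)) h0 hx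
          rcases hy with rfl | rfl
          · exact h3.1 hyQ
          · exact h3.2 hyQ
  -- the discs
  have hoval : ∀ i : Fin O.length, ∃ Δ : Set RP2,
      OvalIn A.F (QSet O[i].1.Q) (KSet O[i].1.c O[i].1.K) Δ := by
    intro i
    have ho := hokn i
    let ℓ : (Fin 3 → ℝ) →ₗ[ℝ] ℝ :=
      { toFun := dotR O[i].1.l
        map_add' := dotR_add _
        map_smul' := fun r x => by rw [dotR_smul]; rfl }
    have hc0 : toR O[i].1.c ≠ 0 := by
      intro h
      have h1 := inner_center hf ho 1 one_pos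
      have h2 := inner_center hf ho 2 two_pos
      obtain ⟨P, hP⟩ := List.exists_mem_of_ne_nil _ ho.hQ0
      have hne : facets P ≠ [] := by
        have h3 := ho.okQ P hP
        rw [okPoly, Bool.and_eq_true] at h3
        have h4 := of_decide_eq_true h3.1
        cases P with
        | nil => simp at h4
        | cons p Ps' => simp [facets, ← List.length_eq_zero_iff]
      obtain ⟨e, he⟩ := List.exists_mem_of_ne_nil _ hne
      have h5 := okPoly_edges (ho.okQ P hP) he
      rw [h] at h5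
      simp [dotR] at h5
    refine exists_oval A.F A.hom (toR O[i].1.c) ℓ (if O[i].1.sg then 1 else -1)
      (QSet O[i].1.Q) (KSet O[i].1.c O[i].1.K) ?_ (isClosed_QSet _)
      (fun x hx r s hr hs => ho.cone_add hx hr hs) (fun x hx h0 => ho.l_pos hx h0) ho.c_mem
      (isClosed_KSet _ _) (fun x hx r s hr hs => KSet_add ho.okK hx hr hs)
      (Or.inl ⟨1, zero_le_one, by simp⟩) ho.K_sub ?_ ?_ ?_
    · exact ho.l_pos (interior_subset ho.c_mem) hc0
    · intro x hx h0
      rw [← hf.outer_eq]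
      obtain ⟨P, hP, e, he, ⟨s, t, hs, ht, h1⟩, h2⟩ := frontier_QSet ho.okQ hx
      have h3 : x ∈ Cone3 e.1 e.2 e.2 := ⟨s, t, 0, hs, ht, le_rfl, by rw [h1]; simp⟩
      rcases ho.facQ P hP e he x h3 h0 with h4 | ⟨es, hes, h4⟩
      · exact h4
      · exfalso
        rw [ho.hQE] at hes
        obtain ⟨P', hP', rfl⟩ := List.mem_map.1 hes
        obtain ⟨e', he', h5⟩ := h2 P' hP'
        have := h4 _ (mem_edgesOf.2 ⟨e', he', rfl⟩)
        linarith
    · intro x hx h0
      rw [← neg_pos, ← hf.inner_eq]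
      rcases frontier_KSet ho.okK hx with ⟨-, r, hr, rfl⟩ | ⟨-, hx⟩
      · rcases hr.eq_or_lt with h | h
        · exfalso; apply h0; rw [← h]; simp
        · exact inner_center hf ho r h
      · obtain ⟨P, hP, e, he, ⟨s, t, hs, ht, h1⟩, h2⟩ := frontier_QSet ho.okK hx
        have h3 : x ∈ Cone3 e.1 e.2 e.2 := ⟨s, t, 0, hs, ht, le_rfl, by rw [h1]; simp⟩
        rcases ho.facK P hP e he x h3 h0 with h4 | ⟨es, hes, h4⟩
        · exact h4
        · exfalso
          rw [ho.hKE] at hes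
          obtain ⟨P', hP', rfl⟩ := List.mem_map.1 hes
          obtain ⟨e', he', h5⟩ := h2 P' hP'
          have := h4 _ (mem_edgesOf.2 ⟨e', he', rfl⟩)
          linarith
    · intro x hx hxK hz
      have h1 := hring i x hx hxK hz
      rw [hf.evG _ (hmem i)] at h1
      linarith
  choose Δ hΔ using hoval
  refine hasScheme_of_ovals hm A S (fun i => (hS i i).2 (Or.inl rfl)) hanti
    (fun i => QSet O[Fin.cast hn i].1.Q) (fun i => KSet O[Fin.cast hn i].1.c O[Fin.cast hn i].1.K)
    (fun i => Δ (Fin.cast hn i)) (fun i => hΔ (Fin.cast hn i)) ?_ ?_ ?_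
  · intro i j hij hle x h0 hx
    left
    have h1 : ins i.1 j.1 = true := by
      rcases (hS i j).1 hle with h | h
      · exact absurd h hij
      · exact h
    have hij' : Fin.cast hn i ≠ Fin.cast hn j := fun h => hij (by
      simpa [Fin.ext_iff] using h)
    exact mem_KSet_of_edges (hokn _) (nestB_sound (hokn _) (hnest _ _ hij' h1) h0 hx)
  · intro i j h1 h2 x h0 hx
    have hij : i ≠ j := fun h => h1 ((hS i j).2 (Or.inl h))
    have hij' : Fin.cast hn i ≠ Fin.cast hn j := fun h => hij (by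
      simpa [Fin.ext_iff] using h)
    have h3 : ins i.1 j.1 = false := by
      rw [← Bool.not_eq_true]; exact fun h => h1 ((hS i j).2 (Or.inr h))
    have h4 : ins j.1 i.1 = false := by
      rw [← Bool.not_eq_true]; exact fun h => h2 ((hS j i).2 (Or.inr h))
    exact disjB_sound (hokn _) (hokn _) (hdisj _ _ hij' h3 h4) h0 hx
  · intro x h0 hz
    obtain ⟨o, ho, y, hy, hr⟩ := exists_ring hm hf cov h0 hz
    obtain ⟨j, hj⟩ := List.get_of_mem ho
    have hj' : O[j] = o := hj
    have hy0 : y ≠ 0 := by rcases hy with rfl | rfl; exacts [h0, neg_ne_zero.2 h0]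
    have hyz : eval y A.F = 0 := by
      rcases hy with rfl | rfl
      · exact hz
      · rw [eval_neg_even hm, hz]
    have h1 := ring_zero hf hok ho hy0 hyz hr
    rw [← hj'] at h1
    refine ⟨Fin.cast hn.symm j, ?_⟩
    rcases hy with rfl | rfl
    · exact Or.inl h1
    · exact Or.inr h1

end main

end Pool.Agent.Rohlin.Octic
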