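import Pool.Agent.Rohlin.Octic.Basic
import Pool.Agent.Rohlin.Octic.StarDisc
import Pool.Agent.Rohlin.RP2Top

/-!
# An oval of a plane curve from a star-shaped cone
-/

set_option autoImplicit false

namespace Pool.Agent.Rohlin.Octic

open MvPolynomial Set Topology

namespace OvalAux

/-! ### one variable -/

/-- a function whose derivative is positive at every zero has at most one zero -/
theorem zero_unique {g g' : ℝ → ℝ} {a b : ℝ} (hg : ∀ r ∈ Icc a b, HasDerivAt g (g' r) r)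
    (hpos : ∀ r ∈ Icc a b, g r = 0 → 0 < g' r) {r₁ r₂ : ℝ} (h₁ : r₁ ∈ Icc a b)
    (h₂ : r₂ ∈ Icc a b) (hr₁ : g r₁ = 0) (hr₂ : g r₂ = 0) : r₁ = r₂ := by
  wlog h : r₁ < r₂ generalizing r₁ r₂
  · rcases lt_trichotomy r₁ r₂ with h' | h' | h'
    · exact absurd h' h
    · exact h'
    · exact (this h₂ h₁ hr₂ hr₁ h').symm
  exfalso
  have hsub : Icc r₁ r₂ ⊆ Icc a b := Icc_subset_Icc h₁.1 h₂.2
  have hnn : ∀ x ∈ Icc r₁ r₂, 0 ≤ g x := fun x hx =>
    image_le_of_deriv_right_lt_deriv_boundary' (f := fun _ => 0) (f' := fun _ => 0) (B := g)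
      (B' := g') continuousOn_const (fun x _ => hasDerivWithinAt_const _ _ _) hr₁.ge
      (fun x hx => (hg x (hsub hx)).continuousAt.continuousWithinAt)
      (fun x hx => (hg x (hsub (Ico_subset_Icc_self hx))).hasDerivWithinAt)
      (fun x hx h0 => hpos x (hsub (Ico_subset_Icc_self hx)) h0.symm) hx
  have hd := hg r₂ h₂
  have ht := (hasDerivWithinAt_iff_tendsto_slope' (s := Iio r₂) (by simp)).1
    (hd.hasDerivWithinAt (s := Iio r₂))
  have hle : g' r₂ ≤ 0 := by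
    refine le_of_tendsto ht ?_
    have hev : ∀ᶠ x in 𝓝[<] r₂, x ∈ Ioo r₁ r₂ := Ioo_mem_nhdsLT h
    filter_upwards [hev] with x hx
    rw [slope_def_field, hr₂, sub_zero]
    exact div_nonpos_of_nonneg_of_nonpos (hnn x ⟨hx.1.le, hx.2.le⟩) (sub_nonpos.2 hx.2.le)
  exact absurd (hpos r₂ h₂ hr₂) (not_lt.2 hle)

/-- the derivative of a polynomial along a line -/
theorem hasDerivAt_eval_line (F : MvPolynomial (Fin 3) ℝ) (c W : Fin 3 → ℝ) (r : ℝ) :
    HasDerivAt (fun r : ℝ => eval (c + r • W) F)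
      (∑ j, W j * eval (c + r • W) (pderiv j F)) r := by
  induction F using MvPolynomial.induction_on with
  | C a => simpa using hasDerivAt_const r a
  | add p q hp hq =>
    have := hp.add hq
    simp only [map_add, mul_add, Finset.sum_add_distrib]
    exact this
  | mul_X p i hp =>
    have hx : HasDerivAt (fun r : ℝ => (c + r • W) i) (W i) r := by
      simp only [Pi.add_apply, Pi.smul_apply, smul_eq_mul]
      simpa using ((hasDerivAt_id r).mul_const (W i)).const_add (c i)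
    have := hp.mul hx
    simp only [map_mul, eval_X]
    refine this.congr_deriv (Eq.symm ?_)
    simp only [Derivation.leibniz, pderiv_X, smul_eq_mul, map_add, map_mul, eval_X, mul_add,
      Finset.sum_add_distrib, Finset.sum_mul]
    rw [add_comm]
    congr 1
    · exact Finset.sum_congr rfl fun j _ => by ring
    · rw [Finset.sum_eq_single i]
      · simp [mul_comm]
      · intro j _ hj
        simp [hj]
      · simp

theorem euler_eval {m : ℕ} {F : MvPolynomial (Fin 3) ℝ} (hF : F.IsHomogeneous m)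
    (x : Fin 3 → ℝ) : ∑ j, x j * eval x (pderiv j F) = m * eval x F := by
  have h := congrArg (eval x) hF.sum_X_mul_pderiv
  simpa [nsmul_eq_mul] using h

/-! ### rays in a star-shaped cone -/

/-- the points of a ray which lie in a star-shaped cone form an interval -/
theorem ray_mem {Q : Set (Fin 3 → ℝ)} {c : Fin 3 → ℝ}
    (hQ : ∀ x ∈ Q, ∀ r s : ℝ, 0 ≤ r → 0 ≤ s → r • x + s • c ∈ Q) {W : Fin 3 → ℝ} {r t : ℝ}
    (ht : 0 ≤ t) (htr : t ≤ r) (h : c + r • W ∈ Q) : c + t • W ∈ Q := by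
  rcases (ht.trans htr).eq_or_lt with hr | hr
  · have : t = r := le_antisymm htr (hr ▸ ht)
    rwa [this]
  · have h1 := hQ _ h (t / r) (1 - t / r) (div_nonneg ht hr.le)
      (sub_nonneg.2 ((div_le_one hr).2 htr))
    have h2 : (t / r) • (c + r • W) + (1 - t / r) • c = c + t • W := by
      rw [smul_add, smul_smul, div_mul_cancel₀ _ hr.ne', sub_smul, one_smul]
      abel
    rwa [h2] at h1

theorem smul_mem_cone {Q : Set (Fin 3 → ℝ)} {c : Fin 3 → ℝ}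
    (hQ : ∀ x ∈ Q, ∀ r s : ℝ, 0 ≤ r → 0 ≤ s → r • x + s • c ∈ Q) {x : Fin 3 → ℝ} {r : ℝ}
    (hr : 0 ≤ r) (hx : x ∈ Q) : r • x ∈ Q := by
  have := hQ x hx r 0 hr le_rfl
  rwa [zero_smul, add_zero] at this

theorem smul_mem_cone_iff {Q : Set (Fin 3 → ℝ)} {c : Fin 3 → ℝ}
    (hQ : ∀ x ∈ Q, ∀ r s : ℝ, 0 ≤ r → 0 ≤ s → r • x + s • c ∈ Q) {x : Fin 3 → ℝ} {r : ℝ}
    (hr : 0 < r) : r • x ∈ Q ↔ x ∈ Q := by
  refine ⟨fun h => ?_, smul_mem_cone hQ hr.le⟩
  have := smul_mem_cone hQ (inv_nonneg.2 hr.le) h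
  rwa [smul_smul, inv_mul_cancel₀ hr.ne', one_smul] at this

theorem continuous_ray (c W : Fin 3 → ℝ) : Continuous fun r : ℝ => c + r • W := by fun_prop

/-- the last point of a ray in a closed set is a boundary point -/
theorem frontier_of_last {Q : Set (Fin 3 → ℝ)} (hQc : IsClosed Q) {c W : Fin 3 → ℝ} {R : ℝ}
    (hR : c + R • W ∈ Q) (hmax : ∀ r, R < r → c + r • W ∉ Q) : c + R • W ∈ frontier Q := by
  rw [hQc.frontier_eq]
  refine ⟨hR, fun hint => ?_⟩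
  have h1 : ∀ᶠ r in 𝓝 R, c + r • W ∈ interior Q :=
    (continuous_ray c W).continuousAt.eventually (isOpen_interior.mem_nhds hint)
  have h2 : ∀ᶠ r in 𝓝[>] R, c + r • W ∈ interior Q := nhdsWithin_le_nhds h1
  obtain ⟨r, hr, hr'⟩ := (h2.and self_mem_nhdsWithin).exists
  exact hmax r hr' (interior_subset hr)

/-- every ray has exactly one zero between the inner and the outer cone -/
theorem ray_unique {m : ℕ} {F : MvPolynomial (Fin 3) ℝ} {c : Fin 3 → ℝ} {σ : ℝ}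
    {Q K : Set (Fin 3 → ℝ)} (hF : F.IsHomogeneous m) (hQc : IsClosed Q)
    (hQ : ∀ x ∈ Q, ∀ r s : ℝ, 0 ≤ r → 0 ≤ s → r • x + s • c ∈ Q)
    (hKc : IsClosed K)
    (hK : ∀ x ∈ K, ∀ r s : ℝ, 0 ≤ r → 0 ≤ s → r • x + s • c ∈ K) (hcK : c ∈ K) (hKQ : K ⊆ Q)
    (h1 : ∀ x ∈ frontier Q, x ≠ 0 → 0 < σ * eval x F)
    (h2 : ∀ x ∈ frontier K, x ≠ 0 → σ * eval x F < 0)
    (h3 : ∀ x ∈ Q, x ∉ K → eval x F = 0 → σ * ∑ j, c j * eval x (pderiv j F) < 0)
    {W : Fin 3 → ℝ} (hW : ∀ r : ℝ, c + r • W ≠ 0)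
    (hb : BddAbove {r : ℝ | 0 ≤ r ∧ c + r • W ∈ Q}) :
    ∃! r : ℝ, 0 < r ∧ (eval (c + r • W) F = 0 ∧ c + r • W ∈ Q ∧ c + r • W ∉ K) := by
  have hclQ : IsClosed {r : ℝ | 0 ≤ r ∧ c + r • W ∈ Q} :=
    isClosed_Ici.inter (hQc.preimage (continuous_ray c W))
  have hclK : IsClosed {r : ℝ | 0 ≤ r ∧ c + r • W ∈ K} :=
    isClosed_Ici.inter (hKc.preimage (continuous_ray c W))
  have h0K : (0 : ℝ) ∈ {r : ℝ | 0 ≤ r ∧ c + r • W ∈ K} :=
    ⟨le_rfl, by rwa [zero_smul, add_zero]⟩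
  have h0Q : (0 : ℝ) ∈ {r : ℝ | 0 ≤ r ∧ c + r • W ∈ Q} := ⟨le_rfl, hKQ h0K.2⟩
  have hsub : {r : ℝ | 0 ≤ r ∧ c + r • W ∈ K} ⊆ {r : ℝ | 0 ≤ r ∧ c + r • W ∈ Q} :=
    fun r hr => ⟨hr.1, hKQ hr.2⟩
  have hbK : BddAbove {r : ℝ | 0 ≤ r ∧ c + r • W ∈ K} := hb.mono hsub
  obtain ⟨RQ, hRQ⟩ : ∃ R, R = sSup {r : ℝ | 0 ≤ r ∧ c + r • W ∈ Q} := ⟨_, rfl⟩
  obtain ⟨RK, hRK⟩ : ∃ R, R = sSup {r : ℝ | 0 ≤ r ∧ c + r • W ∈ K} := ⟨_, rfl⟩
  have hmQ : 0 ≤ RQ ∧ c + RQ • W ∈ Q := hRQ ▸ hclQ.csSup_mem ⟨0, h0Q⟩ hb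
  have hmK : 0 ≤ RK ∧ c + RK • W ∈ K := hRK ▸ hclK.csSup_mem ⟨0, h0K⟩ hbK
  have hlQ : ∀ r, 0 ≤ r → c + r • W ∈ Q → r ≤ RQ := fun r hr h =>
    hRQ ▸ le_csSup hb ⟨hr, h⟩
  have hlK : ∀ r, 0 ≤ r → c + r • W ∈ K → r ≤ RK := fun r hr h =>
    hRK ▸ le_csSup hbK ⟨hr, h⟩
  have hgQ : 0 < σ * eval (c + RQ • W) F :=
    h1 _ (frontier_of_last hQc hmQ.2 fun r hr h =>
      absurd (hlQ r (hmQ.1.trans hr.le) h) (not_le.2 hr)) (hW _)
  have hgK : σ * eval (c + RK • W) F < 0 :=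
    h2 _ (frontier_of_last hKc hmK.2 fun r hr h =>
      absurd (hlK r (hmK.1.trans hr.le) h) (not_le.2 hr)) (hW _)
  have hle : RK ≤ RQ := hlQ _ hmK.1 (hKQ hmK.2)
  have hσ : σ ≠ 0 := by
    rintro rfl
    rw [zero_mul] at hgQ
    exact lt_irrefl _ hgQ
  have hder : ∀ r : ℝ, HasDerivAt (fun r : ℝ => σ * eval (c + r • W) F)
      (σ * ∑ j, W j * eval (c + r • W) (pderiv j F)) r := fun r =>
    (hasDerivAt_eval_line F c W r).const_mul σ
  have hcont : Continuous (fun r : ℝ => σ * eval (c + r • W) F) :=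
    continuous_iff_continuousAt.2 fun r => (hder r).continuousAt
  have hbetween : ∀ r, RK < r → r ≤ RQ → c + r • W ∈ Q ∧ c + r • W ∉ K := fun r hr hr' =>
    ⟨ray_mem hQ (hmK.1.trans hr.le) hr' hmQ.2, fun h =>
      absurd (hlK r (hmK.1.trans hr.le) h) (not_le.2 hr)⟩
  obtain ⟨r₀, hr₀, hz₀⟩ := intermediate_value_Ioo hle hcont.continuousOn
    (show (0 : ℝ) ∈ Ioo (σ * eval (c + RK • W) F) (σ * eval (c + RQ • W) F) from ⟨hgK, hgQ⟩)
  have hz₀' : σ * eval (c + r₀ • W) F = 0 := hz₀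
  refine ⟨r₀, ⟨hmK.1.trans_lt hr₀.1, (mul_eq_zero.1 hz₀').resolve_left hσ,
    hbetween r₀ hr₀.1 hr₀.2.le⟩, ?_⟩
  rintro r ⟨hr, hzr, hrQ, hrK⟩
  have hrR : RK < r := by
    by_contra h
    exact hrK (ray_mem hK hr.le (not_lt.1 h) hmK.2)
  refine zero_unique (a := RK) (b := RQ) (g := fun r : ℝ => σ * eval (c + r • W) F)
    (fun r _ => hder r) ?_ ⟨hrR.le, hlQ r hr.le hrQ⟩ ⟨hr₀.1.le, hr₀.2.le⟩ (by
      show σ * eval (c + r • W) F = 0
      rw [hzr, mul_zero]) hz₀'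
  intro r hrI hz
  have hz' : σ * eval (c + r • W) F = 0 := hz
  have hr1 : RK < r := by
    refine lt_of_le_of_ne hrI.1 fun h => ?_
    rw [← h] at hz'
    exact hgK.ne hz'
  have hr0 : 0 < r := hmK.1.trans_lt hr1
  have hF0 : eval (c + r • W) F = 0 := (mul_eq_zero.1 hz').resolve_left hσ
  obtain ⟨hq, hk⟩ := hbetween r hr1 hrI.2
  have h4 := h3 _ hq hk hF0
  have h5 := euler_eval hF (c + r • W)
  rw [hF0, mul_zero] at h5
  have h6 : ∑ j, (c + r • W) j * eval (c + r • W) (pderiv j F) =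
      ∑ j, c j * eval (c + r • W) (pderiv j F) +
        r * ∑ j, W j * eval (c + r • W) (pderiv j F) := by
    rw [Finset.mul_sum, ← Finset.sum_add_distrib]
    exact Finset.sum_congr rfl fun j _ => by
      rw [Pi.add_apply, Pi.smul_apply, smul_eq_mul]
      ring
  rw [h6] at h5
  have h7 : r * (σ * ∑ j, W j * eval (c + r • W) (pderiv j F)) =
      -(σ * ∑ j, c j * eval (c + r • W) (pderiv j F)) := by linear_combination σ * h5
  exact (mul_pos_iff_of_pos_left hr0).1 (by rw [h7]; exact neg_pos.2 h4)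

/-! ### the chart -/

/-- a linear parametrisation of the kernel of a linear form -/
theorem exists_param {c : Fin 3 → ℝ} {ℓ : (Fin 3 → ℝ) →ₗ[ℝ] ℝ} (hc : ℓ c ≠ 0) :
    ∃ (P : ℂ →ₗ[ℝ] (Fin 3 → ℝ)) (N : (Fin 3 → ℝ) →ₗ[ℝ] ℂ), (∀ z, N (P z) = z) ∧
      (∀ z, ℓ (P z) = 0) ∧ ∀ x, ℓ x = 0 → P (N x) = x := by
  have hr : LinearMap.range ℓ = ⊤ := by
    rw [LinearMap.range_eq_top]
    intro y
    refine ⟨(y / ℓ c) • c, ?_⟩
    rw [map_smul, smul_eq_mul, div_mul_cancel₀ _ hc]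
  have hk : Module.finrank ℝ (LinearMap.ker ℓ) = 2 := by
    have h := LinearMap.finrank_range_add_finrank_ker ℓ
    rw [hr, finrank_top, Module.finrank_self, Module.finrank_fin_fun] at h
    omega
  obtain ⟨e⟩ : Nonempty (ℂ ≃ₗ[ℝ] LinearMap.ker ℓ) :=
    ⟨LinearEquiv.ofFinrankEq _ _ (by rw [hk, Complex.finrank_real_complex])⟩
  obtain ⟨P, hP⟩ : ∃ P : ℂ →ₗ[ℝ] (Fin 3 → ℝ), P = (LinearMap.ker ℓ).subtype ∘ₗ e.toLinearMap :=
    ⟨_, rfl⟩
  have hPz : ∀ z, P z = (e z : Fin 3 → ℝ) := fun z => by rw [hP]; rfl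
  have hinj : LinearMap.ker P = ⊥ := by
    rw [LinearMap.ker_eq_bot]
    intro z w h
    rw [hPz, hPz] at h
    exact e.injective (Subtype.ext h)
  obtain ⟨N, hN⟩ := P.exists_leftInverse_of_injective hinj
  have hNP : ∀ z, N (P z) = z := fun z => LinearMap.congr_fun hN z
  refine ⟨P, N, hNP, fun z => ?_, fun x hx => ?_⟩
  · rw [hPz]
    exact (e z).2
  · have h1 : P (e.symm ⟨x, hx⟩) = x := by rw [hPz, e.apply_symm_apply]
    rw [← h1, hNP]

theorem isOpen_RP2_iff (S : Set RP2) :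
    IsOpen S ↔ IsOpen {v : {v : Fin 3 → ℝ // v ≠ 0} | Projectivization.mk ℝ v.1 v.2 ∈ S} :=
  Iff.rfl

/-- the chart of the plane `c + P z` -/
noncomputable def planeChart (c : Fin 3 → ℝ) (P : ℂ →ₗ[ℝ] (Fin 3 → ℝ))
    (h : ∀ z, c + P z ≠ 0) : ℂ → RP2 := fun z => Projectivization.mk ℝ (c + P z) (h z)

theorem isOpenEmbedding_planeChart {c : Fin 3 → ℝ} {ℓ : (Fin 3 → ℝ) →ₗ[ℝ] ℝ} (hc : ℓ c ≠ 0)
    {P : ℂ →ₗ[ℝ] (Fin 3 → ℝ)} {N : (Fin 3 → ℝ) →ₗ[ℝ] ℂ} (hNP : ∀ z, N (P z) = z)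
    (hP0 : ∀ z, ℓ (P z) = 0) (hPN : ∀ x, ℓ x = 0 → P (N x) = x) (h : ∀ z, c + P z ≠ 0) :
    IsOpenEmbedding (planeChart c P h) := by
  have hPc : Continuous P := LinearMap.continuous_of_finiteDimensional P
  have hNc : Continuous N := LinearMap.continuous_of_finiteDimensional N
  have hlc : Continuous ℓ := LinearMap.continuous_of_finiteDimensional ℓ
  refine IsOpenEmbedding.of_continuous_injective_isOpenMap ?_ ?_ ?_
  · exact continuous_mkRP2.comp
      (Continuous.subtype_mk (continuous_const.add hPc) fun z => h z)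
  · intro z w hzw
    obtain ⟨a, ha⟩ := (Projectivization.mk_eq_mk_iff' ℝ _ _ _ _).1 hzw
    have h1 : a * ℓ c = ℓ c := by
      have := congrArg ℓ ha
      rwa [map_smul, map_add, map_add, hP0, hP0, add_zero, smul_eq_mul] at this
    have h2 : a = 1 := mul_right_cancel₀ hc (h1.trans (one_mul _).symm)
    rw [h2, one_smul] at ha
    have h3 := congrArg N (add_left_cancel ha)
    rw [hNP, hNP] at h3
    exact h3.symm
  · intro U hU
    rw [isOpen_RP2_iff]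
    have hopen : IsOpen {v : {v : Fin 3 → ℝ // v ≠ 0} | ℓ v.1 ≠ 0} :=
      isOpen_ne_fun (hlc.comp continuous_subtype_val) continuous_const
    have hcont : ContinuousOn (fun v : {v : Fin 3 → ℝ // v ≠ 0} => N ((ℓ c / ℓ v.1) • v.1 - c))
        {v | ℓ v.1 ≠ 0} := by
      have hd : ContinuousOn (fun v : {v : Fin 3 → ℝ // v ≠ 0} => ℓ c / ℓ v.1)
          {v | ℓ v.1 ≠ 0} :=
        continuousOn_const.div (hlc.comp continuous_subtype_val).continuousOn fun v hv => hv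
      have hs : ContinuousOn (fun v : {v : Fin 3 → ℝ // v ≠ 0} => (ℓ c / ℓ v.1) • v.1 - c)
          {v | ℓ v.1 ≠ 0} :=
        (hd.smul continuous_subtype_val.continuousOn).sub continuousOn_const
      exact hNc.comp_continuousOn hs
    convert hcont.isOpen_inter_preimage hopen hU using 1
    ext ⟨v, hv⟩
    constructor
    · rintro ⟨z, hz, hzv⟩
      obtain ⟨a, ha⟩ := (Projectivization.mk_eq_mk_iff' ℝ _ _ _ _).1 hzv
      have ha' : a • v = c + P z := ha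
      have h1 : a * ℓ v = ℓ c := by
        have := congrArg ℓ ha'
        rwa [map_smul, map_add, hP0, add_zero, smul_eq_mul] at this
      have h2 : ℓ v ≠ 0 := fun h0 => by
        rw [h0, mul_zero] at h1
        exact hc h1.symm
      refine ⟨h2, ?_⟩
      show N ((ℓ c / ℓ v) • v - c) ∈ U
      rw [← h1, mul_div_assoc, div_self h2, mul_one, ha', add_sub_cancel_left, hNP]
      exact hz
    · rintro ⟨h2, hz⟩
      have h2' : ℓ v ≠ 0 := h2
      refine ⟨N ((ℓ c / ℓ v) • v - c), hz, ?_⟩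
      refine (Projectivization.mk_eq_mk_iff' ℝ _ _ _ _).2 ⟨ℓ c / ℓ v, ?_⟩
      show (ℓ c / ℓ v) • v = c + P (N ((ℓ c / ℓ v) • v - c))
      rw [hPN, add_sub_cancel]
      rw [map_sub, map_smul, smul_eq_mul, div_mul_cancel₀ _ h2', sub_self]

/-! ### bounds -/

theorem exists_cone_bound {Q : Set (Fin 3 → ℝ)} {c : Fin 3 → ℝ} {ℓ : (Fin 3 → ℝ) →ₗ[ℝ] ℝ}
    (hQc : IsClosed Q) (hQ : ∀ x ∈ Q, ∀ r s : ℝ, 0 ≤ r → 0 ≤ s → r • x + s • c ∈ Q)
    (hQl : ∀ x ∈ Q, x ≠ 0 → 0 < ℓ x) : ∃ ε : ℝ, 0 < ε ∧ ∀ x ∈ Q, ε * ‖x‖ ≤ ℓ x := by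
  have hlc : Continuous ℓ := LinearMap.continuous_of_finiteDimensional ℓ
  have hcomp : IsCompact (Metric.sphere (0 : Fin 3 → ℝ) 1 ∩ Q) :=
    (isCompact_sphere _ _).inter_right hQc
  have hmem : ∀ x ∈ Q, x ≠ 0 → ‖x‖⁻¹ • x ∈ Metric.sphere (0 : Fin 3 → ℝ) 1 ∩ Q := by
    intro x hx hx0
    refine ⟨?_, smul_mem_cone hQ (inv_nonneg.2 (norm_nonneg _)) hx⟩
    rw [mem_sphere_zero_iff_norm, norm_smul, norm_inv, norm_norm,
      inv_mul_cancel₀ (norm_ne_zero_iff.2 hx0)]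
  rcases (Metric.sphere (0 : Fin 3 → ℝ) 1 ∩ Q).eq_empty_or_nonempty with he | hne
  · refine ⟨1, one_pos, fun x hx => ?_⟩
    by_cases hx0 : x = 0
    · rw [hx0, norm_zero, mul_zero, map_zero]
    · have := hmem x hx hx0
      rw [he] at this
      exact absurd this (notMem_empty _)
  · obtain ⟨y, hy, hmin⟩ := hcomp.exists_isMinOn hne hlc.continuousOn
    have hy0 : y ≠ 0 := by
      rintro rfl
      have := mem_sphere_zero_iff_norm.1 hy.1
      rw [norm_zero] at this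
      exact zero_ne_one this
    refine ⟨ℓ y, hQl y hy.2 hy0, fun x hx => ?_⟩
    by_cases hx0 : x = 0
    · rw [hx0, norm_zero, mul_zero, map_zero]
    · have h1 : ℓ y ≤ ℓ (‖x‖⁻¹ • x) := hmin (hmem x hx hx0)
      have hn : 0 < ‖x‖ := norm_pos_iff.2 hx0
      rw [map_smul, smul_eq_mul] at h1
      calc ℓ y * ‖x‖ ≤ (‖x‖⁻¹ * ℓ x) * ‖x‖ := mul_le_mul_of_nonneg_right h1 hn.le
        _ = ℓ x := by field_simp

/-! ### the oval -/

theorem interior_image_of_isOpenEmbedding {X Y : Type*} [TopologicalSpace X]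
    [TopologicalSpace Y] {f : X → Y} (hf : IsOpenEmbedding f) (s : Set X) :
    interior (f '' s) = f '' interior s := by
  apply Subset.antisymm
  · have h1 : f ⁻¹' interior (f '' s) ⊆ s := by
      intro x hx
      obtain ⟨y, hy, hxy⟩ := interior_subset hx
      rwa [← hf.injective hxy]
    have h2 : f ⁻¹' interior (f '' s) ⊆ interior s :=
      interior_maximal h1 (isOpen_interior.preimage hf.continuous)
    intro y hy
    obtain ⟨x, hx, rfl⟩ := interior_subset hy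
    exact ⟨x, h2 hy, rfl⟩
  · exact hf.isOpenMap.image_interior_subset s

end OvalAux

open OvalAux in
/-- an oval of a plane curve and its disc from a star-shaped pair of cones -/
theorem exists_oval {m : ℕ} (F : MvPolynomial (Fin 3) ℝ) (hF : F.IsHomogeneous m)
    (c : Fin 3 → ℝ) (ℓ : (Fin 3 → ℝ) →ₗ[ℝ] ℝ) (σ : ℝ) (Q K : Set (Fin 3 → ℝ)) (hc : 0 < ℓ c)
    (hQc : IsClosed Q) (hQ : ∀ x ∈ Q, ∀ r s : ℝ, 0 ≤ r → 0 ≤ s → r • x + s • c ∈ Q)
    (hQl : ∀ x ∈ Q, x ≠ 0 → 0 < ℓ x) (_hQi : c ∈ interior Q) (hKc : IsClosed K)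
    (hK : ∀ x ∈ K, ∀ r s : ℝ, 0 ≤ r → 0 ≤ s → r • x + s • c ∈ K) (hcK : c ∈ K) (hKQ : K ⊆ Q)
    (h1 : ∀ x ∈ frontier Q, x ≠ 0 → 0 < σ * eval x F)
    (h2 : ∀ x ∈ frontier K, x ≠ 0 → σ * eval x F < 0)
    (h3 : ∀ x ∈ Q, x ∉ K → eval x F = 0 → σ * ∑ j, c j * eval x (pderiv j F) < 0) :
    ∃ Δ : Set RP2, IsDisc Δ ∧
      (∀ x (hx : x ≠ 0), Projectivization.mk ℝ x hx ∈ Δ → x ∈ Q ∨ -x ∈ Q) ∧
      (∀ x (hx : x ≠ 0), x ∈ K → Projectivization.mk ℝ x hx ∈ interior Δ) ∧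
      (∀ x (hx : x ≠ 0), Projectivization.mk ℝ x hx ∈ frontier Δ ↔
        eval x F = 0 ∧ ((x ∈ Q ∧ x ∉ K) ∨ (-x ∈ Q ∧ -x ∉ K))) := by
  obtain ⟨P, N, hNP, hP0, hPN⟩ := exists_param (c := c) hc.ne'
  have hPc : Continuous P := LinearMap.continuous_of_finiteDimensional P
  have hNc : Continuous N := LinearMap.continuous_of_finiteDimensional N
  have hlc : Continuous ℓ := LinearMap.continuous_of_finiteDimensional ℓ
  have hlP : ∀ z, ℓ (c + P z) = ℓ c := fun z => by rw [map_add, hP0, add_zero]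
  have hne : ∀ z, c + P z ≠ 0 := fun z h0 => by
    have := hlP z
    rw [h0, map_zero] at this
    exact hc.ne this
  have hPr : ∀ (r : ℝ) (z : ℂ), P ((r : ℂ) * z) = r • P z := fun r z => by
    rw [← Complex.real_smul, map_smul]
  -- the boundary curve in the chart
  obtain ⟨A, hAdef⟩ : ∃ A : Set ℂ, A = {z | eval (c + P z) F = 0 ∧ c + P z ∈ Q ∧ c + P z ∉ K} :=
    ⟨_, rfl⟩
  have hmA : ∀ z, z ∈ A ↔ eval (c + P z) F = 0 ∧ c + P z ∈ Q ∧ c + P z ∉ K := fun z => by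
    rw [hAdef]; rfl
  have h0A : (0 : ℂ) ∉ A := fun h => by
    have := ((hmA 0).1 h).2.2
    rw [map_zero, add_zero] at this
    exact this hcK
  obtain ⟨ε, hε, hbound⟩ := exists_cone_bound hQc hQ hQl
  have hevc : Continuous fun x : Fin 3 → ℝ => eval x F := MvPolynomial.continuous_eval F
  have hcm : Continuous fun z : ℂ => c + P z := continuous_const.add hPc
  have hAc : IsCompact A := by
    have hQK : IsCompact (Q ∩ {x | ℓ x = ℓ c}) := by
      refine Metric.isCompact_of_isClosed_isBounded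
        (hQc.inter (isClosed_eq hlc continuous_const)) ?_
      refine (Metric.isBounded_closedBall (x := (0 : Fin 3 → ℝ)) (r := ℓ c / ε)).subset ?_
      rintro x ⟨hx, hx'⟩
      rw [mem_closedBall_zero_iff, le_div_iff₀ hε, mul_comm]
      exact (hbound x hx).trans (le_of_eq hx')
    have him : IsCompact ((fun x => N (x - c)) '' (Q ∩ {x | ℓ x = ℓ c})) :=
      hQK.image (hNc.comp (continuous_id.sub continuous_const))
    refine him.of_isClosed_subset ?_ ?_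
    · have hA2 : A = {z | eval (c + P z) F = 0} ∩ ((fun z => c + P z) ⁻¹' Q ∩
          ((fun z => c + P z) ⁻¹' (interior K))ᶜ) := by
        ext z
        rw [hmA]
        refine ⟨fun h => ⟨h.1, h.2.1, fun h' => h.2.2 (interior_subset h')⟩, fun h =>
          ⟨h.1, h.2.1, fun h' => ?_⟩⟩
        have hfr : c + P z ∈ frontier K := by
          rw [hKc.frontier_eq]
          exact ⟨h', h.2.2⟩
        have h4 := h2 _ hfr (hne z)
        have h5 : eval (c + P z) F = 0 := h.1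
        rw [h5, mul_zero] at h4
        exact lt_irrefl _ h4
      rw [hA2]
      exact (isClosed_eq (hevc.comp hcm) continuous_const).inter
        ((hQc.preimage hcm).inter (isOpen_interior.preimage hcm).isClosed_compl)
    · intro z hz
      refine ⟨c + P z, ⟨((hmA z).1 hz).2.1, hlP z⟩, ?_⟩
      show N (c + P z - c) = z
      rw [add_sub_cancel_left, hNP]
  have hunique : ∀ w : ℂ, w ≠ 0 → ∃! r : ℝ, 0 < r ∧ (r : ℂ) * w ∈ A := by
    intro w hw
    have hPw : P w ≠ 0 := fun h0 => by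
      have := hNP w
      rw [h0, map_zero] at this
      exact hw this.symm
    have hPw' : 0 < ‖P w‖ := norm_pos_iff.2 hPw
    have hrw : ∀ r : ℝ, c + r • P w = c + P ((r : ℂ) * w) := fun r => by rw [hPr]
    have hb : BddAbove {r : ℝ | 0 ≤ r ∧ c + r • P w ∈ Q} := by
      refine ⟨(ℓ c / ε + ‖c‖) / ‖P w‖, ?_⟩
      rintro r ⟨hr, hrQ⟩
      rw [le_div_iff₀ hPw']
      have h4 : ‖c + r • P w‖ ≤ ℓ c / ε := by
        rw [le_div_iff₀ hε, mul_comm]
        refine (hbound _ hrQ).trans (le_of_eq ?_)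
        rw [hrw, hlP]
      have h5 : r * ‖P w‖ = ‖(c + r • P w) - c‖ := by
        rw [add_sub_cancel_left, norm_smul, Real.norm_of_nonneg hr]
      rw [h5]
      exact (norm_sub_le _ _).trans (add_le_add h4 le_rfl)
    have h4 := ray_unique hF hQc hQ hKc hK hcK hKQ h1 h2 h3 (W := P w)
      (fun r => by rw [hrw]; exact hne _) hb
    have h5 : ∀ r : ℝ, (0 < r ∧ (r : ℂ) * w ∈ A) ↔
        (0 < r ∧ (eval (c + r • P w) F = 0 ∧ c + r • P w ∈ Q ∧ c + r • P w ∉ K)) := fun r => by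
      rw [hmA, hrw]
    simpa only [h5] using h4
  obtain ⟨h, hcl, hop, hsp⟩ := star_disc A hAc h0A hunique
  have hemb := isOpenEmbedding_planeChart hc.ne' hNP hP0 hPN hne
  obtain ⟨φ, hφ⟩ : ∃ φ : ℂ → RP2, φ = planeChart c P hne := ⟨_, rfl⟩
  rw [← hφ] at hemb
  have hφz : ∀ z, φ z = Projectivization.mk ℝ (c + P z) (hne z) := fun z => by rw [hφ]; rfl
  have hinterior : interior (φ '' (h '' Metric.closedBall 0 1)) =
      φ '' (h '' Metric.ball 0 1) := by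
    rw [interior_image_of_isOpenEmbedding hemb, ← h.image_interior,
      interior_closedBall (0 : ℂ) one_ne_zero]
  have hcompact : IsCompact (φ '' (h '' Metric.closedBall 0 1)) :=
    ((isCompact_closedBall _ _).image h.continuous).image hemb.continuous
  have hfrontier : frontier (φ '' (h '' Metric.closedBall 0 1)) = φ '' A := by
    rw [hcompact.isClosed.frontier_eq, hinterior, ← image_sdiff hemb.injective,
      ← image_sdiff h.injective, Metric.closedBall_sdiff_ball, hsp]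
  have hmk : ∀ x (hx : x ≠ 0) (S : Set ℂ), Projectivization.mk ℝ x hx ∈ φ '' S ↔
      ∃ z ∈ S, ∃ a : ℝ, a ≠ 0 ∧ x = a • (c + P z) := by
    intro x hx S
    constructor
    · rintro ⟨z, hz, hzx⟩
      rw [hφz] at hzx
      obtain ⟨a, ha⟩ := (Projectivization.mk_eq_mk_iff' ℝ _ _ _ _).1 hzx.symm
      refine ⟨z, hz, a, ?_, ha.symm⟩
      rintro rfl
      rw [zero_smul] at ha
      exact hx ha.symm
    · rintro ⟨z, hz, a, -, ha⟩
      refine ⟨z, hz, ?_⟩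
      rw [hφz]
      exact ((Projectivization.mk_eq_mk_iff' ℝ _ _ _ _).2 ⟨a, ha.symm⟩).symm
  -- the point of the chart plane on a ray
  have hproj : ∀ x, 0 < ℓ x → x = (ℓ x / ℓ c) • (c + P (N ((ℓ c / ℓ x) • x - c))) := by
    intro x hx
    have h4 : ℓ ((ℓ c / ℓ x) • x - c) = 0 := by
      rw [map_sub, map_smul, smul_eq_mul, div_mul_cancel₀ _ hx.ne', sub_self]
    rw [hPN _ h4, add_sub_cancel, smul_smul, div_mul_div_comm, mul_comm (ℓ c),
      div_self (mul_ne_zero hx.ne' hc.ne'), one_smul]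
  refine ⟨φ '' (h '' Metric.closedBall 0 1), ?_, ?_, ?_, ?_⟩
  · refine ⟨fun z => φ (h z), hemb.continuous.comp (h.continuous.comp continuous_subtype_val),
      fun z w hzw => Subtype.ext (h.injective (hemb.injective hzw)), ?_, ?_⟩
    · ext p
      constructor
      · rintro ⟨z, rfl⟩
        exact ⟨h z, ⟨z, z.2, rfl⟩, rfl⟩
      · rintro ⟨_, ⟨z, hz, rfl⟩, rfl⟩
        exact ⟨⟨z, hz⟩, rfl⟩
    · rw [hinterior]
      ext p
      constructor
      · rintro ⟨_, ⟨z, hz, rfl⟩, rfl⟩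
        exact ⟨⟨z, Metric.ball_subset_closedBall hz⟩, mem_ball_zero_iff.1 hz, rfl⟩
      · rintro ⟨z, hz, rfl⟩
        exact ⟨h z, ⟨z, mem_ball_zero_iff.2 hz, rfl⟩, rfl⟩
  · intro x hx hxΔ
    obtain ⟨z, hz, a, ha, hxa⟩ := (hmk x hx _).1 hxΔ
    rw [hcl] at hz
    obtain ⟨t, ht0, ht1, w, hw, rfl⟩ := hz
    have h4 : c + P w ∈ Q := ((hmA w).1 hw).2.1
    have h5 : c + P ((t : ℂ) * w) ∈ Q := by
      rw [hPr]
      exact ray_mem hQ ht0 ht1 (by rwa [one_smul])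
    rcases ha.lt_or_gt with ha' | ha'
    · right
      rw [hxa, ← neg_smul]
      exact smul_mem_cone hQ (neg_nonneg.2 ha'.le) h5
    · left
      rw [hxa]
      exact smul_mem_cone hQ ha'.le h5
  · intro x hx hxK
    rw [hinterior, hmk]
    have hlx : 0 < ℓ x := hQl x (hKQ hxK) hx
    have hxz := hproj x hlx
    obtain ⟨z, hz⟩ : ∃ z, z = N ((ℓ c / ℓ x) • x - c) := ⟨_, rfl⟩
    rw [← hz] at hxz
    refine ⟨z, ?_, ℓ x / ℓ c, (div_pos hlx hc).ne', hxz⟩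
    rw [hop]
    by_cases hz0 : z = 0
    · obtain ⟨r, ⟨-, hr⟩, -⟩ := hunique 1 one_ne_zero
      exact ⟨0, le_rfl, one_pos, _, hr, by rw [hz0, Complex.ofReal_zero, zero_mul]⟩
    · obtain ⟨r, ⟨hr0, hr⟩, -⟩ := hunique z hz0
      have hzK : c + P z ∈ K := by
        rw [hxz] at hxK
        exact (smul_mem_cone_iff hK (div_pos hlx hc)).1 hxK
      have hr1 : 1 < r := by
        by_contra hcon
        have h4 := ((hmA _).1 hr).2.2
        rw [hPr] at h4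
        exact h4 (ray_mem hK hr0.le (not_lt.1 hcon) (by rwa [one_smul]))
      refine ⟨r⁻¹, inv_nonneg.2 hr0.le, inv_lt_one_of_one_lt₀ hr1, _, hr, ?_⟩
      rw [← mul_assoc, ← Complex.ofReal_mul, inv_mul_cancel₀ hr0.ne', Complex.ofReal_one, one_mul]
  · intro x hx
    rw [hfrontier, hmk]
    constructor
    · rintro ⟨z, hz, a, ha, hxa⟩
      obtain ⟨hz1, hz2, hz3⟩ := (hmA z).1 hz
      refine ⟨by rw [hxa, eval_smul_of_homogeneous hF, hz1, mul_zero], ?_⟩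
      rcases ha.lt_or_gt with ha' | ha'
      · right
        rw [hxa, ← neg_smul, smul_mem_cone_iff hQ (neg_pos.2 ha'),
          smul_mem_cone_iff hK (neg_pos.2 ha')]
        exact ⟨hz2, hz3⟩
      · left
        rw [hxa, smul_mem_cone_iff hQ ha', smul_mem_cone_iff hK ha']
        exact ⟨hz2, hz3⟩
    · rintro ⟨hFx, hQK⟩
      have key : ∀ y, y ≠ 0 → eval y F = 0 → y ∈ Q → y ∉ K → ∃ z ∈ A, ∃ a : ℝ, a ≠ 0 ∧
          y = a • (c + P z) := by
        intro y hy hFy hyQ hyK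
        have hly : 0 < ℓ y := hQl y hyQ hy
        have hyz := hproj y hly
        obtain ⟨z, hz⟩ : ∃ z, z = N ((ℓ c / ℓ y) • y - c) := ⟨_, rfl⟩
        rw [← hz] at hyz
        have ha : 0 < ℓ y / ℓ c := div_pos hly hc
        refine ⟨z, (hmA z).2 ⟨?_, ?_, ?_⟩, ℓ y / ℓ c, ha.ne', hyz⟩
        · rw [hyz, eval_smul_of_homogeneous hF] at hFy
          exact (mul_eq_zero.1 hFy).resolve_left (pow_ne_zero _ ha.ne')
        · rw [hyz] at hyQ
          exact (smul_mem_cone_iff hQ ha).1 hyQ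
        · intro h'
          refine hyK ?_
          rw [hyz]
          exact (smul_mem_cone_iff hK ha).2 h'
      rcases hQK with ⟨hxQ, hxK⟩ | ⟨hxQ, hxK⟩
      · exact key x hx hFx hxQ hxK
      · have hFx' : eval (-x) F = 0 := by
          rw [← neg_one_smul ℝ x, eval_smul_of_homogeneous hF, hFx, mul_zero]
        obtain ⟨z, hz, a, ha, hxa⟩ := key (-x) (neg_ne_zero.2 hx) hFx' hxQ hxK
        exact ⟨z, hz, -a, neg_ne_zero.2 ha, by rw [neg_smul, ← hxa, neg_neg]⟩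

end Pool.Agent.Rohlin.Octic
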