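import Pool.Agent.Rohlin.Octic.Scheme
import Pool.Agent.Rohlin.Octic.Oval

/-!
# Octics: the checks for one oval
-/

set_option autoImplicit false

namespace Pool.Agent.Rohlin.Octic

open MvPolynomial Set

/-- certificates for segments: the form is positive, or the segment lies in the interior of the
polygon `j`, or the segment is cut -/
inductive Sg : Type
  /-- the form is positive -/
  | S : Sg
  /-- the segment lies in the interior of the polygon `j` -/
  | I (j : ℕ) : Sg
  /-- cut -/
  | cut (m n : ℕ) (s1 s2 : Sg) : Sg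

/-- the check of a segment -/
def Sg.check {α : Type} (T : SignTest α) (f : α) (E : List (List V3)) : Sg → V3 → V3 → Bool
  | .S, a, b => T.pos f a b b
  | .I j, a, b =>
      match E[j]? with
      | none => false
      | some es => es.all fun e => decide (0 < dot e a) && decide (0 < dot e b)
  | .cut m n s1 s2, a, b =>
      decide (0 < m) && decide (0 < n) && s1.check T f E a (comb m n a b) &&
        s2.check T f E (comb m n a b) b

theorem cone2_cut {a b : V3} {m n : ℕ} (hm : 0 < m) (hn : 0 < n) {x : Fin 3 → ℝ}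
    (h : x ∈ Cone3 a b b) :
    x ∈ Cone3 a (comb m n a b) (comb m n a b) ∨ x ∈ Cone3 (comb m n a b) b b := by
  obtain ⟨r, s, t, hr, hs, ht, rfl⟩ := h
  have h' : r • toR a + s • toR b + t • toR b ∈ Cone3 a b (comb m n a b) :=
    ⟨r, s + t, 0, hr, add_nonneg hs ht, le_rfl, by rw [zero_smul, add_smul]; abel⟩
  rcases cone3_cut hm hn h' with h1 | h1
  · exact Or.inl h1
  · right
    obtain ⟨r', s', t', hr', hs', ht', h2⟩ := h1
    exact ⟨r' + t', s', 0, add_nonneg hr' ht', hs', le_rfl, by
      rw [h2, zero_smul, add_smul]; abel⟩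

theorem Sg.check_sound {α : Type} {T : SignTest α} {f : α} {E : List (List V3)} (s : Sg) :
    ∀ {a b : V3}, s.check T f E a b = true → ∀ x ∈ Cone3 a b b, x ≠ 0 →
      0 < T.ev f x ∨ ∃ es ∈ E, ∀ e ∈ es, 0 < dotR e x := by
  induction s with
  | S => intro a b h x hx h0; exact Or.inl (T.sound _ _ _ _ h x hx h0)
  | I j =>
    intro a b h x hx h0
    right
    simp only [Sg.check] at h
    cases hE : E[j]? with
    | none => simp [hE] at h
    | some es =>
      rw [hE] at h
      refine ⟨es, List.mem_of_getElem? hE, fun e he => ?_⟩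
      have h4 := (List.all_eq_true.1 h) e he
      rw [Bool.and_eq_true] at h4
      have ha : (0 : ℝ) < (dot e a : ℝ) := by exact_mod_cast of_decide_eq_true h4.1
      have hb : (0 : ℝ) < (dot e b : ℝ) := by exact_mod_cast of_decide_eq_true h4.2
      obtain ⟨r, s, t, hr, hs, ht, rfl⟩ := hx
      rw [dotR_add, dotR_add, dotR_smul, dotR_smul, dotR_smul, dotR_toR, dotR_toR]
      rcases hr.eq_or_lt with hr0 | hr0
      · rcases hs.eq_or_lt with hs0 | hs0
        · rcases ht.eq_or_lt with ht0 | ht0
          · exfalso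
            apply h0
            rw [← hr0, ← hs0, ← ht0]
            simp
          · have := mul_pos ht0 hb
            have := mul_nonneg hs hb.le
            have := mul_nonneg hr ha.le
            linarith
        · have := mul_pos hs0 hb
          have := mul_nonneg ht hb.le
          have := mul_nonneg hr ha.le
          linarith
      · have := mul_pos hr0 ha
        have := mul_nonneg ht hb.le
        have := mul_nonneg hs hb.le
        linarith
  | cut m n s1 s2 ih1 ih2 =>
    intro a b h x hx h0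
    simp only [Sg.check] at h
    rw [Bool.and_eq_true, Bool.and_eq_true, Bool.and_eq_true] at h
    obtain ⟨⟨⟨hm, hn⟩, h1⟩, h2⟩ := h
    rcases cone2_cut (of_decide_eq_true hm) (of_decide_eq_true hn) hx with h | h
    · exact ih1 h1 x h h0
    · exact ih2 h2 x h h0

/-- the form which is positive outside of the oval -/
def outer {α : Type} (FP FN : α) (o : OvalD) : α := if o.sg then FP else FN

/-- the form which is positive inside of the oval -/
def inner {α : Type} (FP FN : α) (o : OvalD) : α := if o.sg then FN else FP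

/-- the functionals of a fan -/
def fanFE (c : V3) (P : List V3) : List (V3 × V3 × V3) :=
  (facets P).map fun e => (cross c e.1, cross e.1 e.2, cross c e.2)

/-- the conditions on the fan -/
structure FanOk (o : OvalD) : Prop where
  hFE : o.FE = fanFE o.c o.fan
  around : ∃ a ∈ o.fan, ∃ b ∈ o.fan, ∃ d ∈ o.fan, 0 < dot (cross o.c a) b ∧
    0 < dot (cross o.c b) d ∧ 0 < dot (cross o.c d) a
  pieces : ∀ e ∈ facets o.fan, 0 < dot (cross o.c e.1) e.2 ∧
    ∃ E ∈ o.QE, ∀ f ∈ E, 0 ≤ dot f e.1 ∧ 0 ≤ dot f e.2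

/-- the check of the fan -/
def fanCheck (o : OvalD) : Bool :=
  decide (o.FE = fanFE o.c o.fan) &&
  (o.fan.any fun a => o.fan.any fun b => decide (0 < dot (cross o.c a) b) &&
    o.fan.any fun d => decide (0 < dot (cross o.c b) d) && decide (0 < dot (cross o.c d) a)) &&
  (facets o.fan).all fun e => decide (0 < dot (cross o.c e.1) e.2) &&
    o.QE.any fun E => E.all fun f => decide (0 ≤ dot f e.1) && decide (0 ≤ dot f e.2)

theorem fanCheck_sound {o : OvalD} (h : fanCheck o = true) : FanOk o := by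
  simp only [fanCheck, Bool.and_eq_true, List.any_eq_true, List.all_eq_true,
    decide_eq_true_eq] at h
  obtain ⟨⟨h1, a, ha, b, hb, hab, d, hd, hbd, hda⟩, h3⟩ := h
  refine ⟨h1, ⟨a, ha, b, hb, d, hd, hab, hbd, hda⟩, fun e he => ?_⟩
  obtain ⟨h4, E, hE, h5⟩ := h3 e he
  exact ⟨h4, E, hE, fun f hf => h5 f hf⟩

/-- the conditions on one oval -/
structure OvalOk {α : Type} (T : SignTest α) (FP FN : α) (o : OvalD) : Prop where
  hQE : o.QE = o.Q.map edgesOf
  hKE : o.KE = o.K.map edgesOf
  hfan : o.FE = [] ∨ FanOk o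
  hQ0 : o.Q ≠ []
  okQ : ∀ P ∈ o.Q, okPoly o.c P = true
  okK : ∀ P ∈ o.K, okPoly o.c P = true
  lpos : ∀ P ∈ o.Q, ∀ q ∈ P, 0 < dot o.l q
  KQ : ∀ P ∈ o.K, ∃ P' ∈ o.Q, ∀ e ∈ edgesOf P', ∀ q ∈ P, 0 ≤ dot e q
  facQ : ∀ P ∈ o.Q, ∀ e ∈ facets P, ∀ x ∈ Cone3 e.1 e.2 e.2, x ≠ 0 →
    0 < T.ev (outer FP FN o) x ∨ ∃ es ∈ o.QE, ∀ e ∈ es, 0 < dotR e x
  facK : ∀ P ∈ o.K, ∀ e ∈ facets P, ∀ x ∈ Cone3 e.1 e.2 e.2, x ≠ 0 →
    0 < T.ev (inner FP FN o) x ∨ ∃ es ∈ o.KE, ∀ e ∈ es, 0 < dotR e x
  cen : 0 < T.ev (inner FP FN o) (toR o.c)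

/-- a check of a list of segments against the facets -/
def segsOk {α : Type} (T : SignTest α) (f : α) (E : List (List V3)) :
    List (V3 × V3) → List Sg → Bool
  | [], [] => true
  | e :: es, s :: ss => s.check T f E e.1 e.2 && segsOk T f E es ss
  | _, _ => false

/-- a check of several polygons -/
def polysOk {α : Type} (T : SignTest α) (f : α) (E : List (List V3)) :
    List (List V3) → List (List Sg) → Bool
  | [], [] => true
  | P :: Ps, s :: ss => segsOk T f E (facets P) s && polysOk T f E Ps ss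
  | _, _ => false

theorem segsOk_sound {α : Type} {T : SignTest α} {f : α} {E : List (List V3)} :
    ∀ {es : List (V3 × V3)} {ss : List Sg}, segsOk T f E es ss = true →
      ∀ e ∈ es, ∀ x ∈ Cone3 e.1 e.2 e.2, x ≠ 0 →
        0 < T.ev f x ∨ ∃ es ∈ E, ∀ e ∈ es, 0 < dotR e x
  | [], [], _, e, he => by simp at he
  | [], _ :: _, h, _, _ => by simp [segsOk] at h
  | _ :: _, [], h, _, _ => by simp [segsOk] at h
  | e' :: es, s :: ss, h, e, he => by
    rw [segsOk, Bool.and_eq_true] at h
    rcases List.mem_cons.1 he with rfl | he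
    · exact s.check_sound h.1
    · exact segsOk_sound h.2 e he

theorem polysOk_sound {α : Type} {T : SignTest α} {f : α} {E : List (List V3)} :
    ∀ {Ps : List (List V3)} {ss : List (List Sg)}, polysOk T f E Ps ss = true →
      ∀ P ∈ Ps, ∀ e ∈ facets P, ∀ x ∈ Cone3 e.1 e.2 e.2, x ≠ 0 →
        0 < T.ev f x ∨ ∃ es ∈ E, ∀ e ∈ es, 0 < dotR e x
  | [], [], _, e, he => by simp at he
  | [], _ :: _, h, _, _ => by simp [polysOk] at h
  | _ :: _, [], h, _, _ => by simp [polysOk] at h
  | P' :: Ps, s :: ss, h, P, hP => by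
    rw [polysOk, Bool.and_eq_true] at h
    rcases List.mem_cons.1 hP with rfl | hP
    · exact segsOk_sound h.1
    · exact polysOk_sound h.2 P hP

/-- the check of one oval -/
def ovalCheck {α : Type} (T : SignTest α) (FP FN : α) (o : OvalD) (sQ sK : List (List Sg)) :
    Bool :=
  decide (o.QE = o.Q.map edgesOf) && decide (o.KE = o.K.map edgesOf) &&
  (o.FE.isEmpty || fanCheck o) && !o.Q.isEmpty &&
  o.Q.all (okPoly o.c) && o.K.all (okPoly o.c) &&
  (o.Q.all fun P => P.all fun q => decide (0 < dot o.l q)) &&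
  (o.K.all fun P => o.QE.any fun E => E.all fun e => P.all fun q => decide (0 ≤ dot e q)) &&
  polysOk T (outer FP FN o) o.QE o.Q sQ &&
  polysOk T (inner FP FN o) o.KE o.K sK &&
  T.pos (inner FP FN o) o.c o.c o.c

theorem ovalCheck_sound {α : Type} {T : SignTest α} {FP FN : α} {o : OvalD}
    {sQ sK : List (List Sg)} (h : ovalCheck T FP FN o sQ sK = true) : OvalOk T FP FN o := by
  simp only [ovalCheck, Bool.and_eq_true] at h
  obtain ⟨⟨⟨⟨⟨⟨⟨⟨⟨⟨h1, h2⟩, h2'⟩, h3⟩, h4⟩, h5⟩, h6⟩, h7⟩, h8⟩, h9⟩, h10⟩ := h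
  have hQE := of_decide_eq_true h1
  refine ⟨hQE, of_decide_eq_true h2, ?_, ?_, fun P hP => (List.all_eq_true.1 h4) P hP,
    fun P hP => (List.all_eq_true.1 h5) P hP, ?_, ?_, polysOk_sound h8, polysOk_sound h9, ?_⟩
  · rw [Bool.or_eq_true] at h2'
    rcases h2' with h | h
    · exact Or.inl (List.isEmpty_iff.1 h)
    · exact Or.inr (fanCheck_sound h)
  · intro h; simp [h] at h3
  · intro P hP q hq
    exact of_decide_eq_true ((List.all_eq_true.1 ((List.all_eq_true.1 h6) P hP)) q hq)
  · intro P hP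
    obtain ⟨E, hE, h11⟩ := List.any_eq_true.1 ((List.all_eq_true.1 h7) P hP)
    rw [hQE] at hE
    obtain ⟨P', hP', rfl⟩ := List.mem_map.1 hE
    refine ⟨P', hP', fun e he q hq => ?_⟩
    exact of_decide_eq_true ((List.all_eq_true.1 ((List.all_eq_true.1 h11) e he)) q hq)
  · by_cases hc : toR o.c = 0
    · exfalso
      cases hQ : o.Q with
      | nil => rw [hQ] at h3; simp at h3
      | cons P Ps =>
        have h11 : okPoly o.c P = true := (List.all_eq_true.1 h4) P (by rw [hQ]; simp)
        rw [okPoly, Bool.and_eq_true] at h11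
        have h12 := of_decide_eq_true h11.1
        cases P with
        | nil => simp at h12
        | cons p Ps' =>
          have hne : facets (p :: Ps') ≠ [] := by
            simp [facets, ← List.length_eq_zero_iff]
          obtain ⟨e, he⟩ := List.exists_mem_of_ne_nil _ hne
          have h13 := (List.all_eq_true.1 h11.2) e he
          rw [Bool.and_eq_true] at h13
          have h14 : 0 < dot (cross e.1 e.2) o.c := of_decide_eq_true h13.1
          have h15 : dotR (cross e.1 e.2) (toR o.c) = 0 := by rw [hc]; simp [dotR]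
          rw [dotR_toR] at h15
          have h16 : (0 : ℝ) < (dot (cross e.1 e.2) o.c : ℝ) := by exact_mod_cast h14
          linarith
    · exact T.sound _ _ _ _ h10 _ ⟨1, 0, 0, by norm_num, le_rfl, le_rfl, by simp⟩ hc

end Pool.Agent.Rohlin.Octic
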