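import Pool.Agent.Rohlin.RP2Top
import Pool.Agent.Rohlin.Octic.Tree

/-!
# Octics: from the ovals to the scheme
-/

set_option autoImplicit false

namespace Pool.Agent.Rohlin.Octic

open MvPolynomial Set

/-- the conclusion of the oval theorem -/
def OvalIn (F : MvPolynomial (Fin 3) ℝ) (Q K : Set (Fin 3 → ℝ)) (Δ : Set RP2) : Prop :=
  IsDisc Δ ∧
    (∀ x (hx : x ≠ 0), Projectivization.mk ℝ x hx ∈ Δ → x ∈ Q ∨ -x ∈ Q) ∧
    (∀ x (hx : x ≠ 0), x ∈ K → Projectivization.mk ℝ x hx ∈ interior Δ) ∧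
    (∀ x (hx : x ≠ 0), Projectivization.mk ℝ x hx ∈ frontier Δ ↔
      eval x F = 0 ∧ ((x ∈ Q ∧ x ∉ K) ∨ (-x ∈ Q ∧ -x ∉ K)))

theorem mk_neg (x : Fin 3 → ℝ) (hx : x ≠ 0) :
    Projectivization.mk ℝ (-x) (neg_ne_zero.2 hx) = Projectivization.mk ℝ x hx := by
  rw [Projectivization.mk_eq_mk_iff']
  exact ⟨-1, by simp⟩

/-- the assembly: ovals with nested and otherwise disjoint outer and inner sets -/
theorem hasScheme_of_ovals {m : ℕ} (hm : Even m) (A : RealCurve m) (S : Scheme)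
    (hrefl : ∀ i, S.le i i) (hanti : ∀ i j, i ≠ j → S.le i j → ¬ S.le j i)
    (Q K : Fin S.n → Set (Fin 3 → ℝ)) (Δ : Fin S.n → Set RP2)
    (hΔ : ∀ i, OvalIn A.F (Q i) (K i) (Δ i))
    (hnest : ∀ i j, i ≠ j → S.le i j → ∀ x, x ≠ 0 → x ∈ Q i → x ∈ K j ∨ -x ∈ K j)
    (hdisj : ∀ i j, ¬ S.le i j → ¬ S.le j i → ∀ x, x ≠ 0 → x ∈ Q i → x ∉ Q j ∧ -x ∉ Q j)
    (hcov : ∀ x, x ≠ 0 → eval x A.F = 0 →
      ∃ i, (x ∈ Q i ∧ x ∉ K i) ∨ (-x ∈ Q i ∧ -x ∉ K i)) :
    HasScheme m A.real S := by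
  refine ⟨Δ, ∅, fun i => (hΔ i).1, ?_, ?_, hrefl, hanti, Or.inl ⟨hm, rfl⟩, ?_, ?_⟩
  · intro i j hij hle p hp
    induction p using Projectivization.ind with
    | _ x hx =>
      have h1 : x ∈ Q i ∨ -x ∈ Q i := (hΔ i).2.1 x hx hp
      have h2 : x ∈ K j ∨ -x ∈ K j := by
        rcases h1 with h1 | h1
        · exact hnest i j hij hle x hx h1
        · have := hnest i j hij hle (-x) (neg_ne_zero.2 hx) h1
          rw [neg_neg] at this
          exact this.symm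
      rcases h2 with h2 | h2
      · exact (hΔ j).2.2.1 x hx h2
      · have := (hΔ j).2.2.1 (-x) (neg_ne_zero.2 hx) h2
        rwa [mk_neg x hx] at this
  · intro i j h1 h2
    rw [Set.disjoint_left]
    intro p hp hp'
    induction p using Projectivization.ind with
    | _ x hx =>
      have h3 : x ∈ Q i ∨ -x ∈ Q i := (hΔ i).2.1 x hx hp
      have h4 : x ∈ Q j ∨ -x ∈ Q j := (hΔ j).2.1 x hx hp'
      rcases h3 with h3 | h3
      · have := hdisj i j h1 h2 x hx h3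
        tauto
      · have := hdisj i j h1 h2 (-x) (neg_ne_zero.2 hx) h3
        rw [neg_neg] at this
        tauto
  · intro i
    exact Set.disjoint_empty _
  · rw [Set.empty_union]
    ext p
    induction p using Projectivization.ind with
    | _ x hx =>
      have h1 : Projectivization.mk ℝ x hx ∈ A.real ↔ eval x A.F = 0 :=
        eval_rep_eq_zero_iff A.hom x hx
      rw [h1, mem_iUnion]
      constructor
      · intro h
        obtain ⟨i, hi⟩ := hcov x hx h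
        exact ⟨i, ((hΔ i).2.2.2 x hx).2 ⟨h, hi⟩⟩
      · rintro ⟨i, hi⟩
        exact (((hΔ i).2.2.2 x hx).1 hi).1

end Pool.Agent.Rohlin.Octic
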